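import Mathlib

/-!
# Subset sums in cyclic groups: counting functions and the reduction identity

The part up to `esymm_key` follows the treatment of elementary symmetric sums of roots of unity in
the library module `Pool.Graph.R_pool_sql_team_seeded_64922ed1.X147.SsdB`.
-/

set_option autoImplicit false

open Finset Polynomial

namespace Pool.Agent.H47.SD

/-- number of `k`-subsets of `V` with sum `z` -/
def cnt {n : ℕ} (V : Finset (ZMod n)) (k : ℕ) (z : ZMod n) : ℕ :=
  ((V.powersetCard k).filter (fun A => ∑ a ∈ A, a = z)).card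

/-- number of `k`-subsets of the nonzero elements with sum `z` -/
def b (n : ℕ) [NeZero n] (k : ℕ) (z : ZMod n) : ℕ := cnt (univ.erase (0 : ZMod n)) k z

lemma cnt_zero {n : ℕ} (V : Finset (ZMod n)) (z : ZMod n) : cnt V 0 z = if z = 0 then 1 else 0 := by
  unfold cnt
  rw [Finset.powersetCard_zero, Finset.filter_singleton, Finset.sum_empty]
  by_cases h : z = 0
  · rw [if_pos h, if_pos h.symm, Finset.card_singleton]
  · rw [if_neg h, if_neg (Ne.symm h), Finset.card_empty]

lemma cnt_succ {n : ℕ} {V : Finset (ZMod n)} {v : ZMod n} (hv : v ∈ V) (k : ℕ) (z : ZMod n) :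
    cnt V (k + 1) z = cnt (V.erase v) (k + 1) z + cnt (V.erase v) k (z - v) := by
  classical
  unfold cnt
  have hV : V = insert v (V.erase v) := (Finset.insert_erase hv).symm
  have hnot : v ∉ V.erase v := Finset.notMem_erase v V
  conv_lhs => rw [hV, Finset.powersetCard_succ_insert hnot, Finset.filter_union]
  rw [Finset.card_union_of_disjoint]
  · congr 1
    rw [Finset.filter_image, Finset.card_image_of_injOn]
    · congr 1
      apply Finset.filter_congr
      intro A hA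
      have hvA : v ∉ A := fun h => hnot ((Finset.mem_powersetCard.1 hA).1 h)
      rw [Finset.sum_insert hvA, eq_sub_iff_add_eq, add_comm]
    · intro A hA B hB h
      rw [Finset.mem_coe, Finset.mem_filter, Finset.mem_powersetCard] at hA hB
      have hvA : v ∉ A := fun h => hnot (hA.1.1 h)
      have hvB : v ∉ B := fun h => hnot (hB.1.1 h)
      have h' := congrArg (fun S => S.erase v) h
      simpa [Finset.erase_insert hvA, Finset.erase_insert hvB] using h'
  · rw [Finset.disjoint_left]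
    intro A hA hA'
    rw [Finset.mem_filter, Finset.mem_powersetCard] at hA
    rw [Finset.mem_filter, Finset.mem_image] at hA'
    obtain ⟨⟨B, _, rfl⟩, _⟩ := hA'
    exact hnot (hA.1.1 (Finset.mem_insert_self v B))

/-- blocks through `v` -/
lemma cnt_mem {n : ℕ} {V : Finset (ZMod n)} {v : ZMod n} (hv : v ∈ V) (k : ℕ) (z : ZMod n) :
    (((V.powersetCard (k + 1)).filter (fun A => ∑ a ∈ A, a = z)).filter (fun A => v ∈ A)).card
      = cnt (V.erase v) k (z - v) := by
  classical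
  have h1 := cnt_succ hv k z
  have h2 : cnt V (k + 1) z = (((V.powersetCard (k + 1)).filter (fun A => ∑ a ∈ A, a = z)).filter
      (fun A => v ∈ A)).card + (((V.powersetCard (k + 1)).filter (fun A => ∑ a ∈ A, a = z)).filter
      (fun A => ¬ v ∈ A)).card := by
    unfold cnt
    exact (Finset.card_filter_add_card_filter_not _).symm
  have h3 : (((V.powersetCard (k + 1)).filter (fun A => ∑ a ∈ A, a = z)).filter
      (fun A => ¬ v ∈ A)) = ((V.erase v).powersetCard (k + 1)).filter (fun A => ∑ a ∈ A, a = z) := by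
    ext A
    simp only [Finset.mem_filter, Finset.mem_powersetCard, Finset.subset_erase]
    tauto
  rw [h3] at h2
  unfold cnt at h1 h2 ⊢
  omega

/-- complementary subsets -/
lemma cnt_compl {n : ℕ} (V : Finset (ZMod n)) {k : ℕ} (hk : k ≤ V.card) (z : ZMod n) :
    cnt V k z = cnt V (V.card - k) (∑ v ∈ V, v - z) := by
  classical
  unfold cnt
  refine Finset.card_bij' (fun A _ => V \ A) (fun A _ => V \ A) ?_ ?_ ?_ ?_
  · intro A hA
    rw [Finset.mem_filter, Finset.mem_powersetCard] at hA ⊢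
    refine ⟨⟨Finset.sdiff_subset, ?_⟩, ?_⟩
    · rw [Finset.card_sdiff_of_subset hA.1.1, hA.1.2]
    · rw [← hA.2, ← Finset.sum_sdiff hA.1.1]; ring
  · intro A hA
    rw [Finset.mem_filter, Finset.mem_powersetCard] at hA ⊢
    refine ⟨⟨Finset.sdiff_subset, ?_⟩, ?_⟩
    · rw [Finset.card_sdiff_of_subset hA.1.1, hA.1.2]; omega
    · have := Finset.sum_sdiff hA.1.1 (f := fun v => v)
      rw [hA.2] at this
      linear_combination this
  · intro A hA
    rw [Finset.mem_filter, Finset.mem_powersetCard] at hA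
    exact Finset.sdiff_sdiff_eq_self hA.1.1
  · intro A hA
    rw [Finset.mem_filter, Finset.mem_powersetCard] at hA
    exact Finset.sdiff_sdiff_eq_self hA.1.1

lemma cnt_pos {n : ℕ} {V A : Finset (ZMod n)} (hA : A ⊆ V) {k : ℕ} {z : ZMod n} (h1 : A.card = k)
    (h2 : ∑ a ∈ A, a = z) : 0 < cnt V k z := by
  unfold cnt
  rw [Finset.card_pos]
  exact ⟨A, by rw [Finset.mem_filter, Finset.mem_powersetCard]; exact ⟨⟨hA, h1⟩, h2⟩⟩

lemma prod_prim {ζ : ℂ} {D : ℕ} (hD : 0 < D) (h : IsPrimitiveRoot ζ D) :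
    ∏ j ∈ range D, (1 - C (ζ ^ j) * X : ℂ[X]) = 1 - X ^ D := by
  have : NeZero D := ⟨hD.ne'⟩
  have h' : IsPrimitiveRoot (C ζ : ℂ[X]) D := h.map_of_injective C_injective
  have := h'.pow_sub_pow_eq_prod_sub_mul (1 : ℂ[X]) X hD
  rw [one_pow] at this
  rw [this]
  refine Finset.prod_nbij (fun j => (C ζ : ℂ[X]) ^ j) ?_ ?_ ?_ ?_
  · intro j _
    rw [Polynomial.mem_nthRootsFinset hD, ← pow_mul, mul_comm, pow_mul, h'.pow_eq_one, one_pow]
  · intro i hi j hj hij
    exact h'.pow_inj (by simpa using hi) (by simpa using hj) hij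
  · intro ξ hξ
    have hξ' : ξ ^ D = 1 := (Polynomial.mem_nthRootsFinset hD 1).1 (by simpa using hξ)
    obtain ⟨i, hi, hi'⟩ := h'.eq_pow_of_pow_eq_one hξ'
    exact ⟨i, by simpa using hi, hi'⟩
  · intro j _
    rw [C_pow]

lemma prod_prim_mul {ζ : ℂ} {D : ℕ} (hD : 0 < D) (h : IsPrimitiveRoot ζ D) (M : ℕ) :
    ∏ j ∈ range (D * M), (1 - C (ζ ^ j) * X : ℂ[X]) = (1 - X ^ D) ^ M := by
  induction M with
  | zero => simp
  | succ M ih =>
    rw [Nat.mul_succ, Finset.prod_range_add, ih, pow_succ]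
    congr 1
    rw [← prod_prim hD h]
    refine Finset.prod_congr rfl fun j _ => ?_
    rw [pow_add, pow_mul, h.pow_eq_one, one_pow, one_mul]

lemma coeff_prod {ι : Type*} [DecidableEq ι] (S : Finset ι) (a : ι → ℂ) (m : ℕ) :
    (∏ i ∈ S, (1 - C (a i) * X : ℂ[X])).coeff m
      = (-1) ^ m * ∑ t ∈ S.powersetCard m, ∏ i ∈ t, a i := by
  have h1 : ∏ i ∈ S, (1 - C (a i) * X : ℂ[X]) = ∏ i ∈ S, (1 + C (- a i) * X) := by
    refine Finset.prod_congr rfl fun i _ => ?_
    rw [C_neg]; ring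
  rw [h1, Finset.prod_one_add, Polynomial.finsetSum_coeff]
  have h2 : ∀ t ∈ S.powerset, (∏ i ∈ t, (C (- a i) * X : ℂ[X])).coeff m
      = if t.card = m then (-1) ^ m * ∏ i ∈ t, a i else 0 := by
    intro t _
    rw [Finset.prod_mul_distrib, Finset.prod_const, ← map_prod, coeff_C_mul_X_pow]
    split_ifs with h3 h4 h4
    · rw [Finset.prod_neg, h4]
    · exact absurd h3.symm h4
    · exact absurd h4.symm h3
    · rfl
  rw [Finset.sum_congr rfl h2, ← Finset.sum_filter, Finset.mul_sum]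
  refine Finset.sum_congr ?_ fun _ _ => rfl
  ext t
  simp [Finset.mem_powersetCard]

lemma one_sub_X_ne : (1 - X : ℂ[X]) ≠ 0 := by
  intro h
  have := congrArg (Polynomial.eval 0) h
  simp at this

lemma range_split {f : ℕ → ℂ[X]} {n : ℕ} (hn : 0 < n) :
    ∏ j ∈ range n, f j = f 0 * ∏ j ∈ Icc 1 (n - 1), f j := by
  have : range n = insert 0 (Icc 1 (n - 1)) := by
    ext j; simp; omega
  rw [this, Finset.prod_insert (by simp)]

/-- the key factorisation -/
lemma key_prod {ζ : ℂ} {D d N n : ℕ} (hd : 0 < d) (hN : 0 < N) (hn : n = d * N)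
    (h : IsPrimitiveRoot ζ D) (hdD : d ∣ D) (hDn : D ∣ n) :
    ∏ j ∈ Icc 1 (n - 1), (1 - C (ζ ^ j) * X : ℂ[X])
      = expand ℂ d (∏ j ∈ Icc 1 (N - 1), (1 - C ((ζ ^ d) ^ j) * X : ℂ[X]))
        * ∑ i ∈ range d, X ^ i := by
  have hn0 : 0 < n := by rw [hn]; positivity
  have hD : 0 < D := Nat.pos_of_dvd_of_pos hDn hn0
  obtain ⟨M, rfl⟩ := hDn
  obtain ⟨E, rfl⟩ := hdD
  have hE : 0 < E := by
    rcases Nat.eq_zero_or_pos E with h0 | h0
    · subst h0; simp at hD
    · exact h0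
  have hNE : N = E * M := by
    have : d * (E * M) = d * N := by rw [← hn]; ring
    exact (Nat.eq_of_mul_eq_mul_left hd this).symm
  have hpd : IsPrimitiveRoot (ζ ^ d) E := h.pow hD rfl
  have h1 := prod_prim_mul hD h M
  have h2 := prod_prim_mul hE hpd M
  rw [← hNE, range_split hN] at h2
  rw [range_split hn0] at h1
  have h3 := congrArg (expand ℂ d) h2
  simp only [pow_zero, one_mul, map_mul, map_sub, map_one, expand_X, map_pow] at h3 h1
  rw [← pow_mul] at h3
  have h4 : (1 - X : ℂ[X]) * ∑ i ∈ range d, X ^ i = 1 - X ^ d := mul_neg_geom_sum X d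
  apply mul_left_cancel₀ one_sub_X_ne
  simp only [map_pow] at h1 h3 ⊢
  rw [h1, ← h3, ← h4]
  ring

lemma coeff_expand_geom (Q : ℂ[X]) {d : ℕ} (hd : 0 < d) (m : ℕ) :
    (expand ℂ d Q * ∑ i ∈ range d, X ^ i).coeff m = Q.coeff (m / d) := by
  rw [Finset.mul_sum, Polynomial.finsetSum_coeff,
    Finset.sum_eq_single (m % d)]
  · rw [coeff_mul_X_pow', if_pos (Nat.mod_le m d), coeff_expand hd, if_pos (Nat.dvd_sub_mod m)]
    congr 1
    rw [← Nat.div_add_mod m d]
    have : d * (m / d) + m % d - (d * (m / d) + m % d) % d = d * (m / d) := by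
      rw [Nat.div_add_mod]
      have := Nat.div_add_mod m d
      omega
    rw [this, Nat.mul_div_cancel_left _ hd, Nat.div_add_mod]
  · intro i hi him
    rw [coeff_mul_X_pow']
    split_ifs with h
    · rw [coeff_expand hd, if_neg]
      intro hdv
      apply him
      have hi' : i < d := by simpa using hi
      have h1 : m ≡ i [MOD d] := by
        have := (Nat.modEq_iff_dvd' h).2 hdv
        exact this.symm
      rw [h1, Nat.mod_eq_of_lt hi']
    · rfl
  · intro hmd
    exact absurd (Finset.mem_range.2 (Nat.mod_lt m hd)) hmd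

lemma prod_nonzero {M : Type*} [CommMonoid M] (n : ℕ) [NeZero n] (f : ℕ → M) :
    ∏ t ∈ (univ.erase (0 : ZMod n)), f t.val = ∏ j ∈ Icc 1 (n - 1), f j := by
  have hn := NeZero.pos n
  refine Finset.prod_bij (fun t _ => t.val) ?_ ?_ ?_ ?_
  · intro t ht
    have h1 := ZMod.val_lt t
    have h2 : t.val ≠ 0 := by
      rw [Ne, ZMod.val_eq_zero]; exact (Finset.mem_erase.1 ht).1
    rw [Finset.mem_Icc]; omega
  · intro a _ c _ h
    exact ZMod.val_injective n h
  · intro j hj
    rw [Finset.mem_Icc] at hj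
    have hjn : j < n := by omega
    refine ⟨(j : ZMod n), ?_, ZMod.val_cast_of_lt hjn⟩
    rw [Finset.mem_erase]
    refine ⟨?_, Finset.mem_univ _⟩
    intro h
    have := congrArg ZMod.val h
    rw [ZMod.val_cast_of_lt hjn, ZMod.val_zero] at this
    omega
  · intro t _; rfl

/-- elementary symmetric sums over the nonzero residues -/
lemma esymm_key {ζ : ℂ} {D d N n : ℕ} [NeZero n] [NeZero N] (hd : 0 < d) (hn : n = d * N)
    (h : IsPrimitiveRoot ζ D) (hdD : d ∣ D) (hDn : D ∣ n) (k : ℕ) :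
    (-1) ^ k * ∑ A ∈ (univ.erase (0 : ZMod n)).powersetCard k, ∏ a ∈ A, ζ ^ a.val
      = (-1) ^ (k / d) *
        ∑ A ∈ (univ.erase (0 : ZMod N)).powersetCard (k / d), ∏ a ∈ A, (ζ ^ d) ^ a.val := by
  classical
  rw [← coeff_prod, ← coeff_prod, prod_nonzero n (fun j => (1 - C (ζ ^ j) * X : ℂ[X])),
    prod_nonzero N (fun j => (1 - C ((ζ ^ d) ^ j) * X : ℂ[X])),
    key_prod hd (NeZero.pos N) hn h hdD hDn, coeff_expand_geom _ hd]

lemma pow_val_add {n : ℕ} [NeZero n] {ζ : ℂ} (hζ : ζ ^ n = 1) (x y : ZMod n) :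
    ζ ^ (x + y).val = ζ ^ x.val * ζ ^ y.val := by
  rw [ZMod.val_add, ← pow_add]
  conv_rhs => rw [← Nat.div_add_mod (x.val + y.val) n, pow_add, pow_mul, hζ, one_pow, one_mul]

lemma prod_pow_val {n : ℕ} [NeZero n] {ζ : ℂ} (hζ : ζ ^ n = 1) (A : Finset (ZMod n)) :
    ∏ a ∈ A, ζ ^ a.val = ζ ^ (∑ a ∈ A, a).val := by
  classical
  induction A using Finset.induction_on with
  | empty => simp
  | insert a s ha ih =>
    rw [Finset.prod_insert ha, Finset.sum_insert ha, ih, pow_val_add hζ]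

lemma sum_b {n : ℕ} [NeZero n] {ζ : ℂ} (hζ : ζ ^ n = 1) (k : ℕ) :
    ∑ z : ZMod n, (b n k z : ℂ) * ζ ^ z.val =
      ∑ A ∈ (univ.erase (0 : ZMod n)).powersetCard k, ∏ a ∈ A, ζ ^ a.val := by
  classical
  rw [← Finset.sum_fiberwise _ (fun A => ∑ a ∈ A, a)]
  refine Finset.sum_congr rfl fun z _ => ?_
  rw [Finset.sum_congr rfl (g := fun _ => ζ ^ z.val), Finset.sum_const, nsmul_eq_mul, b, cnt]
  intro A hA
  rw [prod_pow_val hζ, (Finset.mem_filter.1 hA).2]

/-- the `p`-divisible part -/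
def del (n m p k : ℕ) [NeZero n] [NeZero m] (z : ZMod n) : ℕ :=
  if p ∣ z.val then b m k ((z.val / p : ℕ) : ZMod m) else 0

lemma sum_del {n m p : ℕ} [NeZero n] [NeZero m] (hp : 0 < p) (hn : n = p * m) {ζ : ℂ} (k : ℕ) :
    ∑ z : ZMod n, (del n m p k z : ℂ) * ζ ^ z.val =
      ∑ u : ZMod m, (b m k u : ℂ) * (ζ ^ p) ^ u.val := by
  classical
  have hlt : ∀ u : ZMod m, p * u.val < n := by
    intro u
    rw [hn]
    exact Nat.mul_lt_mul_of_pos_left (ZMod.val_lt u) hp
  have h1 : ∑ z : ZMod n, (del n m p k z : ℂ) * ζ ^ z.val =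
      ∑ z ∈ univ.filter (fun z : ZMod n => p ∣ z.val), (del n m p k z : ℂ) * ζ ^ z.val := by
    rw [Finset.sum_filter]
    refine Finset.sum_congr rfl fun z _ => ?_
    by_cases h : p ∣ z.val
    · rw [if_pos h]
    · rw [if_neg h, del, if_neg h]; simp
  rw [h1]
  symm
  refine Finset.sum_bij (fun (u : ZMod m) _ => ((p * u.val : ℕ) : ZMod n)) ?_ ?_ ?_ ?_
  · intro u _
    rw [Finset.mem_filter, ZMod.val_cast_of_lt (hlt u)]
    exact ⟨Finset.mem_univ _, dvd_mul_right _ _⟩
  · intro u _ v _ h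
    have := congrArg ZMod.val h
    rw [ZMod.val_cast_of_lt (hlt u), ZMod.val_cast_of_lt (hlt v)] at this
    exact ZMod.val_injective m (Nat.eq_of_mul_eq_mul_left hp this)
  · intro z hz
    obtain ⟨c, hc⟩ := (Finset.mem_filter.1 hz).2
    have hcm : c < m := by
      have := ZMod.val_lt z
      rw [hc, hn] at this
      exact Nat.lt_of_mul_lt_mul_left this
    refine ⟨(c : ZMod m), Finset.mem_univ _, ?_⟩
    rw [ZMod.val_cast_of_lt hcm, ← hc, ZMod.natCast_zmod_val]
  · intro u _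
    rw [del, ZMod.val_cast_of_lt (hlt u), if_pos (dvd_mul_right _ _), Nat.mul_div_cancel_left _ hp,
      ZMod.natCast_zmod_val, ← pow_mul]

open ZMod in
/-- the reduction identity, residue version -/
lemma red_aux {n m p N a : ℕ} [NeZero n] [NeZero m] (hp : p.Prime) (hn : n = p * m)
    (hN : n = p ^ a * N) (k : ℕ) {z z' : ZMod n} (hz : z.val ≡ z'.val [MOD N]) :
    (b n k z : ℂ) - (-1) ^ (k + k / p) * (del n m p (k / p) z : ℂ) =
      (b n k z' : ℂ) - (-1) ^ (k + k / p) * (del n m p (k / p) z' : ℂ) := by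
  classical
  set f : ZMod n → ℂ := fun z => (b n k z : ℂ) - (-1) ^ (k + k / p) * (del n m p (k / p) z : ℂ)
    with hf
  show f z = f z'
  have hinv : ∀ z, f z = (n : ℂ)⁻¹ • ∑ j : ZMod n, stdAddChar (j * z) • ZMod.dft f j := by
    intro z
    rw [← ZMod.invDFT_apply, LinearEquiv.symm_apply_apply]
  rw [hinv z, hinv z']
  congr 1
  refine Finset.sum_congr rfl fun j _ => ?_
  have hpow : ∀ (c : ZMod n) (t : ZMod n), (stdAddChar (c * t) : ℂ) = (stdAddChar c : ℂ) ^ t.val := by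
    intro c t
    rw [← AddChar.map_nsmul_eq_pow, nsmul_eq_mul, ZMod.natCast_zmod_val, mul_comm]
  set ζ : ℂ := stdAddChar (-j) with hζ
  have hζn : ζ ^ n = 1 := by
    rw [hζ, ← AddChar.map_nsmul_eq_pow, nsmul_eq_mul, ZMod.natCast_self, zero_mul,
      AddChar.map_zero_eq_one]
  have hprim : IsPrimitiveRoot ζ (orderOf ζ) := IsPrimitiveRoot.orderOf ζ
  have hDn : orderOf ζ ∣ n := orderOf_dvd_of_pow_eq_one hζn
  by_cases hpD : p ∣ orderOf ζ
  · have h0 : ZMod.dft f j = 0 := by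
      rw [ZMod.dft_apply]
      have h1 : ∀ t : ZMod n, stdAddChar (-(t * j)) • f t = f t * ζ ^ t.val := by
        intro t
        rw [smul_eq_mul, mul_comm, show -(t * j) = (-j) * t by ring, hpow]
      rw [Finset.sum_congr rfl (fun t _ => h1 t)]
      simp only [hf, sub_mul, Finset.sum_sub_distrib, mul_assoc]
      rw [← Finset.mul_sum, sum_b hζn, sum_del hp.pos hn]
      have hζm : (ζ ^ p) ^ m = 1 := by rw [← pow_mul, ← hn, hζn]
      rw [sum_b hζm]
      have h2 := esymm_key hp.pos hn hprim hpD hDn k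
      have h3 : ((-1 : ℂ) ^ k) * (-1) ^ k = 1 := by rw [← mul_pow]; simp
      calc _ = ((-1 : ℂ) ^ k) * ((-1) ^ k *
            ∑ A ∈ (univ.erase (0 : ZMod n)).powersetCard k, ∏ a ∈ A, ζ ^ a.val) -
            (-1) ^ (k + k / p) * ∑ A ∈ (univ.erase (0 : ZMod m)).powersetCard (k / p),
              ∏ a ∈ A, (ζ ^ p) ^ a.val := by rw [← mul_assoc, h3, one_mul]
        _ = 0 := by rw [h2, pow_add]; ring
    rw [h0, smul_zero, smul_zero]
  · congr 1
    have hDN : orderOf ζ ∣ N := by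
      have hco : Nat.Coprime (orderOf ζ) (p ^ a) :=
        Nat.Coprime.pow_right a ((Nat.Prime.coprime_iff_not_dvd hp).2 hpD).symm
      rw [hN] at hDn
      exact hco.dvd_of_dvd_mul_left hDn
    rw [hpow, hpow]
    have hζN : ζ ^ N = 1 := orderOf_dvd_iff_pow_eq_one.1 hDN
    have hinvζ : (stdAddChar j : ℂ) * ζ = 1 := by
      rw [hζ, ← AddChar.map_add_eq_mul, add_neg_cancel, AddChar.map_zero_eq_one]
    have hjN : (stdAddChar j : ℂ) ^ N = 1 := by
      have h4 : ((stdAddChar j : ℂ) * ζ) ^ N = 1 := by rw [hinvζ, one_pow]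
      rwa [mul_pow, hζN, mul_one] at h4
    exact pow_eq_pow_of_modEq hz hjN

/-- the `p`-divisible part, integer version -/
def dl (m : ℕ) [NeZero m] (p k : ℕ) (z : ℤ) : ℤ :=
  if (p : ℤ) ∣ z then (b m k ((z / p : ℤ) : ZMod m) : ℤ) else 0

lemma del_eq {n m p : ℕ} [NeZero n] [NeZero m] (hp : 0 < p) (hn : n = p * m) (k : ℕ) (z : ℤ) :
    (del n m p k (z : ZMod n) : ℤ) = dl m p k z := by
  have hv : ((z : ZMod n).val : ℤ) = z % n := ZMod.val_intCast z
  have hpz : (p : ℤ) ≠ 0 := by exact_mod_cast hp.ne'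
  have hdiv : p ∣ (z : ZMod n).val ↔ (p : ℤ) ∣ z := by
    rw [← Int.natCast_dvd_natCast, hv]
    have hpn : (p : ℤ) ∣ n := by rw [hn]; push_cast; exact dvd_mul_right _ _
    rw [Int.dvd_iff_emod_eq_zero, Int.dvd_iff_emod_eq_zero, Int.emod_emod_of_dvd z hpn]
  unfold del dl
  by_cases h : (p : ℤ) ∣ z
  · rw [if_pos h, if_pos (hdiv.2 h)]
    congr 2
    have h1 : (((z : ZMod n).val / p : ℕ) : ZMod m) = (((z % n) / p : ℤ) : ZMod m) := by
      rw [← hv, ← Int.natCast_div, Int.cast_natCast]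
    rw [h1]
    have h2 : z / p = m * (z / n) + (z % n) / p := by
      conv_lhs => rw [← Int.mul_ediv_add_emod z n]
      rw [hn]; push_cast
      rw [mul_assoc, Int.mul_add_ediv_left _ _ hpz] 
    rw [h2]; push_cast
    rw [ZMod.natCast_self, zero_mul, zero_add]
  · rw [if_neg h, if_neg (fun h' => h (hdiv.1 h'))]; rfl

/-- the reduction identity -/
theorem red {n m p N a : ℕ} [NeZero n] [NeZero m] (hp : p.Prime) (hn : n = p * m)
    (hN : n = p ^ a * N) (k : ℕ) {z z' : ℤ} (hz : (N : ℤ) ∣ z - z') :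
    (b n k (z : ZMod n) : ℤ) - b n k (z' : ZMod n) =
      (-1) ^ (k + k / p) * (dl m p (k / p) z - dl m p (k / p) z') := by
  have hNn : (N : ℤ) ∣ n := by rw [hN]; push_cast; exact dvd_mul_left _ _
  have hmod : (z : ZMod n).val ≡ (z' : ZMod n).val [MOD N] := by
    rw [← Int.natCast_modEq_iff, ZMod.val_intCast, ZMod.val_intCast]
    have h1 : z % n ≡ z [ZMOD N] := (Int.mod_modEq z n).of_dvd hNn
    have h2 : z' % n ≡ z' [ZMOD N] := (Int.mod_modEq z' n).of_dvd hNn
    have h3 : z ≡ z' [ZMOD N] := (Int.modEq_iff_dvd.2 hz).symm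
    exact h1.trans (h3.trans h2.symm)
  have h := red_aux hp hn hN k hmod
  rw [← del_eq hp.pos hn, ← del_eq hp.pos hn]
  have h5 : ((b n k (z : ZMod n) : ℤ) : ℂ) - ((b n k (z' : ZMod n) : ℤ) : ℂ) =
      (((-1) ^ (k + k / p) * (((del n m p (k / p) (z : ZMod n) : ℕ) : ℤ)
        - ((del n m p (k / p) (z' : ZMod n) : ℕ) : ℤ)) : ℤ) : ℂ) := by
    push_cast
    linear_combination h
  exact_mod_cast h5

end Pool.Agent.H47.SD
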