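import Mathlib
import Pool.Agent.H47.SD.A

/-!
# Comparison of the numbers of blocks through two points
-/

set_option autoImplicit false

open Finset

namespace Pool.Agent.H47.SD

/-- alternating sum of counts; the number of `K`-subsets of the nonzero elements `≠ w` with sum `z`
when `w ≠ 0` -/
def T (n : ℕ) [NeZero n] : ℕ → ZMod n → ZMod n → ℤ
  | 0, z, _ => b n 0 z
  | (K + 1), z, w => b n (K + 1) z - T n K (z - w) w

/-- the nonzero elements `≠ w` -/
def V1 {n : ℕ} [NeZero n] (w : ZMod n) : Finset (ZMod n) := (univ.erase (0 : ZMod n)).erase w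

lemma mem_V1 {n : ℕ} [NeZero n] {w v : ZMod n} : v ∈ V1 w ↔ v ≠ w ∧ v ≠ 0 := by
  unfold V1
  simp only [Finset.mem_erase, Finset.mem_univ, and_true]

lemma T_eq_cnt {n : ℕ} [NeZero n] {w : ZMod n} (hw : w ≠ 0) (K : ℕ) (z : ZMod n) :
    T n K z w = cnt (V1 w) K z := by
  induction K generalizing z with
  | zero =>
    rw [T, b, cnt_zero, cnt_zero]
  | succ K ih =>
    have hmem : w ∈ univ.erase (0 : ZMod n) := by
      rw [Finset.mem_erase]; exact ⟨hw, Finset.mem_univ _⟩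
    rw [T, ih, b, cnt_succ hmem, V1]
    push_cast; ring

lemma T_nonneg {n : ℕ} [NeZero n] {w : ZMod n} (hw : w ≠ 0) (K : ℕ) (z : ZMod n) :
    0 ≤ T n K z w := by
  rw [T_eq_cnt hw]; positivity

/-- the number of blocks through `y`, as an alternating sum -/
def S (n : ℕ) [NeZero n] : ℕ → ℤ → ℤ → ℤ
  | 0, _, _ => 0
  | (k + 1), x, y => b n k ((x - y : ℤ) : ZMod n) - S n k (x - y) y

lemma S_succ {n : ℕ} [NeZero n] (k : ℕ) (x y : ℤ) :
    S n (k + 1) x y = T n k ((x - y : ℤ) : ZMod n) (y : ZMod n) := by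
  induction k generalizing x with
  | zero => rw [S, S, T, sub_zero]
  | succ k ih =>
    rw [S, ih, T]
    push_cast
    rfl

/-- the reduced alternating sum -/
def E (m : ℕ) [NeZero m] (p : ℕ) : ℕ → ℤ → ℤ → ℤ
  | 0, _, _ => 0
  | (k + 1), x, y => (-1) ^ (k / p) * dl m p (k / p) (x - y) + E m p k (x - y) y

theorem S_sub_S {n m p N a : ℕ} [NeZero n] [NeZero m] (hp : p.Prime) (hn : n = p * m)
    (hN : n = p ^ a * N) (k : ℕ) {x x' y y' : ℤ} (hx : (N : ℤ) ∣ x - x')
    (hy : (N : ℤ) ∣ y - y') :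
    S n k x y - S n k x' y' = - (-1) ^ k * (E m p k x y - E m p k x' y') := by
  induction k generalizing x x' with
  | zero => rw [S, S, E, E]; ring
  | succ k ih =>
    have h1 : (N : ℤ) ∣ (x - y) - (x' - y') := by
      have := dvd_sub hx hy
      rwa [show x - x' - (y - y') = x - y - (x' - y') by ring] at this
    have h2 := ih h1
    have h3 := red hp hn hN k h1
    rw [S, S, E, E]
    have h4 : ((-1 : ℤ)) ^ (k + k / p) = (-1) ^ k * (-1) ^ (k / p) := pow_add _ _ _
    rw [h4] at h3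
    rw [pow_succ]
    linear_combination h3 - h2

lemma dl_mul {m p : ℕ} [NeZero m] (hp : 0 < p) (k : ℕ) (z : ℤ) :
    dl m p k (p * z) = b m k (z : ZMod m) := by
  unfold dl
  have hpz : (p : ℤ) ≠ 0 := by exact_mod_cast hp.ne'
  rw [if_pos (dvd_mul_right _ _), Int.mul_ediv_cancel_left _ hpz]

lemma dl_of_not_dvd {m p : ℕ} [NeZero m] (k : ℕ) {z : ℤ} (h : ¬ (p : ℤ) ∣ z) :
    dl m p k z = 0 := by
  unfold dl; rw [if_neg h]

lemma E_of_dvd {m p : ℕ} [NeZero m] (k : ℕ) {x y : ℤ} (hx : ¬ (p : ℤ) ∣ x) (hy : (p : ℤ) ∣ y) :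
    E m p k x y = 0 := by
  induction k generalizing x with
  | zero => rw [E]
  | succ k ih =>
    have h1 : ¬ (p : ℤ) ∣ x - y := by
      intro h
      exact hx (by have := dvd_add h hy; rwa [sub_add_cancel] at this)
    rw [E, ih h1, dl_of_not_dvd _ h1]; ring

lemma E_of_not_dvd {m p : ℕ} [NeZero m] (hp : p.Prime) (k : ℕ) {y : ℤ} (hy : ¬ (p : ℤ) ∣ y) (z : ℤ)
    {i : ℕ} (hi1 : 1 ≤ i) (hip : i ≤ p) :
    E m p k (i * y + p * z) y =
      if k < i then 0 else (-1) ^ ((k - i) / p) * T m ((k - i) / p) (z : ZMod m) (y : ZMod m) := by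
  have hp0 := hp.pos
  induction k generalizing i z with
  | zero => rw [E, if_pos (by omega)]
  | succ k ih =>
    rw [E]
    rcases Nat.eq_or_lt_of_le hi1 with h1 | h1
    · subst h1
      rw [if_neg (by omega), show ((1 : ℕ) : ℤ) * y + p * z - y = p * z by push_cast; ring,
        dl_mul hp0]
      have h2 := ih (z - y) (i := p) hp0 le_rfl
      rw [show (p : ℤ) * y + p * (z - y) = p * z by ring] at h2
      rw [h2]
      by_cases hk : k < p
      · rw [if_pos hk, Nat.add_sub_cancel, Nat.div_eq_of_lt hk, T]; ring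
      · rw [if_neg hk, Nat.add_sub_cancel]
        have h3 : k / p = (k - p) / p + 1 := by
          have : k = (k - p) + p := by omega
          conv_lhs => rw [this]
          rw [Nat.add_div_right _ hp0]
        rw [h3, T, pow_succ]
        push_cast
        ring
    · obtain ⟨j, rfl⟩ : ∃ j, i = j + 1 := ⟨i - 1, by omega⟩
      have h2 : ((j + 1 : ℕ) : ℤ) * y + p * z - y = j * y + p * z := by push_cast; ring
      rw [h2]
      have h3 : ¬ (p : ℤ) ∣ j * y + p * z := by
        intro h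
        have h4 : (p : ℤ) ∣ j * y := (dvd_add_left (dvd_mul_right _ _)).1 h
        rcases (Nat.prime_iff_prime_int.1 hp).dvd_or_dvd h4 with h5 | h5
        · have h6 : p ∣ j := by exact_mod_cast h5
          have := Nat.le_of_dvd (by omega) h6
          omega
        · exact hy h5
      rw [dl_of_not_dvd _ h3, ih z (i := j) (by omega) (by omega)]
      by_cases hk : k < j
      · rw [if_pos hk, if_pos (by omega)]; ring
      · rw [if_neg hk, if_neg (by omega), show k + 1 - (j + 1) = k - j by omega]; ring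

lemma E_add {m p : ℕ} [NeZero m] (j k : ℕ) (x y : ℤ) :
    E m p (j + k) x y = ∑ i ∈ range j, (-1) ^ ((j + k - 1 - i) / p) *
      dl m p ((j + k - 1 - i) / p) (x - (i + 1) * y) + E m p k (x - j * y) y := by
  induction j generalizing x with
  | zero => simp
  | succ j ih =>
    rw [show j + 1 + k = (j + k) + 1 by ring, E, ih, Finset.sum_range_succ']
    have h1 : ∀ i : ℕ, j + k + 1 - 1 - (i + 1) = j + k - 1 - i := by intro i; omega
    simp only [h1]
    have h2 : ∀ i : ℕ, x - y - ((i : ℤ) + 1) * y = x - (((i + 1 : ℕ) : ℤ) + 1) * y := by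
      intro i; push_cast; ring
    simp only [h2]
    rw [show x - y - (j : ℤ) * y = x - ((j + 1 : ℕ) : ℤ) * y by push_cast; ring]
    rw [show j + k + 1 - 1 - 0 = j + k by omega]
    push_cast
    ring_nf

lemma E_mul {m p : ℕ} [NeZero m] (hp : 0 < p) (q : ℕ) (z w : ℤ) :
    E m p (p * (q + 1)) (p * z) (p * w) = (-1) ^ q *
      ∑ i ∈ range p, T m q ((z - (i + 1) * w : ℤ) : ZMod m) ((p * w : ℤ) : ZMod m) := by
  have hdiv : ∀ q i : ℕ, i < p → (p + p * q - 1 - i) / p = q := by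
    intro q i hi
    have : p + p * q - 1 - i = (p - 1 - i) + p * q := by omega
    rw [this, Nat.add_mul_div_left _ _ hp, Nat.div_eq_of_lt (by omega), zero_add]
  induction q generalizing z with
  | zero =>
    rw [show p * (0 + 1) = p + p * 0 by ring, E_add]
    rw [Finset.sum_congr rfl (g := fun i : ℕ =>
      T m 0 ((z - (i + 1) * w : ℤ) : ZMod m) ((p * w : ℤ) : ZMod m))]
    · rw [mul_zero, E, pow_zero, one_mul, add_zero]
    · intro i hi
      rw [hdiv 0 i (Finset.mem_range.1 hi), show (p : ℤ) * z - ((i : ℤ) + 1) * (p * w) =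
        p * (z - (i + 1) * w) by ring, dl_mul hp, T, pow_zero, one_mul]
  | succ q ih =>
    rw [show p * (q + 1 + 1) = p + p * (q + 1) by ring, E_add]
    rw [show (p : ℤ) * z - (p : ℤ) * (p * w) = p * (z - p * w) by ring, ih]
    rw [Finset.mul_sum, Finset.mul_sum, ← Finset.sum_add_distrib]
    refine Finset.sum_congr rfl fun i hi => ?_
    rw [hdiv (q + 1) i (Finset.mem_range.1 hi), show (p : ℤ) * z - ((i : ℤ) + 1) * (p * w) =
        p * (z - (i + 1) * w) by ring, dl_mul hp, T, pow_succ]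
    push_cast
    rw [show ((z : ZMod m) - p * w - (i + 1) * w) = (z - (i + 1) * w - p * w) by ring]
    ring

/-- the structure is constant (`r` blocks through every nonzero point) -/
def Const (n : ℕ) [NeZero n] (k : ℕ) (x : ℤ) : Prop :=
  ∀ y y' : ℤ, (y : ZMod n) ≠ 0 → (y' : ZMod n) ≠ 0 → S n k x y = S n k x y'

lemma E_eq {n m p N a : ℕ} [NeZero n] [NeZero m] (hp : p.Prime) (hn : n = p * m)
    (hN : n = p ^ a * N) {k : ℕ} {x y y' : ℤ} (hc : Const n k x)
    (hy : (y : ZMod n) ≠ 0) (hy' : (y' : ZMod n) ≠ 0) (hyy : (N : ℤ) ∣ y - y') :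
    E m p k x y = E m p k x y' := by
  have h1 := S_sub_S hp hn hN k (x := x) (x' := x) (by simp) hyy
  rw [hc y y' hy hy', sub_self] at h1
  have h2 : ((-1 : ℤ)) ^ k ≠ 0 := pow_ne_zero _ (by norm_num)
  have h3 : ((-1 : ℤ)) ^ k * (E m p k x y - E m p k x y') = 0 := by linear_combination h1
  rcases mul_eq_zero.1 h3 with h4 | h4
  · exact absurd h4 h2
  · linarith

lemma ne_zero_of_not_dvd {n p : ℕ} (hpn : p ∣ n) {y : ℤ} (hy : ¬ (p : ℤ) ∣ y) :
    (y : ZMod n) ≠ 0 := by
  intro h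
  rw [ZMod.intCast_zmod_eq_zero_iff_dvd] at h
  exact hy ((Int.natCast_dvd_natCast.2 hpn).trans h)

/-- case `p ∤ x` -/
lemma caseI {n m p N a : ℕ} [NeZero n] [NeZero m] (hp : p.Prime) (hn : n = p * m)
    (hN : n = p ^ a * N) {k : ℕ} {y y' z : ℤ} {i : ℕ} (hi1 : 1 ≤ i) (hip : i < p)
    (hik : i ≤ k) (hc : Const n k (i * y + p * z)) (hy : ¬ (p : ℤ) ∣ y) (hy' : (p : ℤ) ∣ y')
    (hy'0 : (y' : ZMod n) ≠ 0) (hyy : (N : ℤ) ∣ y - y') :
    T m ((k - i) / p) (z : ZMod m) (y : ZMod m) = 0 := by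
  have hpn : p ∣ n := by rw [hn]; exact dvd_mul_right _ _
  have h1 := E_eq hp hn hN hc (ne_zero_of_not_dvd hpn hy) hy'0 hyy
  have h2 : ¬ (p : ℤ) ∣ i * y + p * z := by
    intro h
    have h4 : (p : ℤ) ∣ i * y := (dvd_add_left (dvd_mul_right _ _)).1 h
    rcases (Nat.prime_iff_prime_int.1 hp).dvd_or_dvd h4 with h5 | h5
    · have h6 : p ∣ i := by exact_mod_cast h5
      have := Nat.le_of_dvd (by omega) h6
      omega
    · exact hy h5
  rw [E_of_dvd k h2 hy', E_of_not_dvd hp k hy z hi1 hip.le, if_neg (by omega)] at h1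
  have h3 : ((-1 : ℤ)) ^ ((k - i) / p) ≠ 0 := pow_ne_zero _ (by norm_num)
  exact (mul_eq_zero.1 h1).resolve_left h3

/-- the star identity -/
lemma star {n m p N a : ℕ} [NeZero n] [NeZero m] (hp : p.Prime) (hn : n = p * m)
    (hN : n = p ^ a * N) {q : ℕ} {y w z : ℤ}
    (hc : Const n (p * (q + 1)) (p * z)) (hy : ¬ (p : ℤ) ∣ y)
    (hw : ((p * w : ℤ) : ZMod n) ≠ 0) (hyy : (N : ℤ) ∣ y - p * w) :
    T m q ((z - y : ℤ) : ZMod m) (y : ZMod m) =
      ∑ i ∈ range p, T m q ((z - (i + 1) * w : ℤ) : ZMod m) ((p * w : ℤ) : ZMod m) := by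
  have hpn : p ∣ n := by rw [hn]; exact dvd_mul_right _ _
  have h1 := E_eq hp hn hN hc (ne_zero_of_not_dvd hpn hy) hw hyy
  rw [E_mul hp.pos] at h1
  have h2 := E_of_not_dvd (m := m) hp (p * (q + 1)) hy (z - y) (i := p) hp.pos le_rfl
  rw [show (p : ℤ) * y + p * (z - y) = p * z by ring] at h2
  have h5 : (p * (q + 1) - p) / p = q := by
    rw [Nat.mul_succ, Nat.add_sub_cancel, Nat.mul_div_cancel_left _ hp.pos]
  rw [h2, if_neg (by nlinarith [hp.pos]), h5] at h1
  have h3 : ((-1 : ℤ)) ^ q ≠ 0 := pow_ne_zero _ (by norm_num)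
  exact mul_left_cancel₀ h3 h1

end Pool.Agent.H47.SD
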