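import Mathlib
import Pool.Agent.H47.SD.B

/-!
# Symmetries, designs and existence of subsets with a given sum
-/

set_option autoImplicit false

open Finset

namespace Pool.Agent.H47.SD

lemma card_V0 (n : ℕ) [NeZero n] : (univ.erase (0 : ZMod n)).card = n - 1 := by
  rw [Finset.card_erase_of_mem (Finset.mem_univ _), Finset.card_univ, ZMod.card]

lemma card_V1 {n : ℕ} [NeZero n] {w : ZMod n} (hw : w ≠ 0) : (V1 w).card = n - 2 := by
  unfold V1
  rw [Finset.card_erase_of_mem, card_V0]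
  · rfl
  · rw [Finset.mem_erase]; exact ⟨hw, Finset.mem_univ _⟩

lemma sum_V1 {n : ℕ} [NeZero n] {w : ZMod n} (hw : w ≠ 0) :
    ∑ v ∈ V1 w, v = ∑ v ∈ univ.erase (0 : ZMod n), v - w := by
  have hmem : w ∈ univ.erase (0 : ZMod n) := by
    rw [Finset.mem_erase]; exact ⟨hw, Finset.mem_univ _⟩
  unfold V1
  rw [← Finset.add_sum_erase _ _ hmem]; ring

lemma b_split {n : ℕ} [NeZero n] {w : ZMod n} (hw : w ≠ 0) (K : ℕ) (z : ZMod n) :
    b n (K + 1) z = cnt (V1 w) (K + 1) z + cnt (V1 w) K (z - w) := by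
  have hmem : w ∈ univ.erase (0 : ZMod n) := by
    rw [Finset.mem_erase]; exact ⟨hw, Finset.mem_univ _⟩
  rw [b, cnt_succ hmem, V1]

/-- general transport of counts along an injective map -/
lemma cnt_image {n : ℕ} (f : ZMod n → ZMod n) (hf : Function.Injective f) (V : Finset (ZMod n))
    (K : ℕ) (g : ZMod n → ZMod n) (hg : Function.Injective g)
    (hfg : ∀ A : Finset (ZMod n), A.card = K → ∑ a ∈ A.image f, a = g (∑ a ∈ A, a))
    (z : ZMod n) : cnt (V.image f) K (g z) = cnt V K z := by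
  classical
  unfold cnt
  symm
  refine Finset.card_bij (fun A _ => A.image f) ?_ ?_ ?_
  · intro A hA
    rw [Finset.mem_filter, Finset.mem_powersetCard] at hA ⊢
    refine ⟨⟨Finset.image_subset_image hA.1.1, ?_⟩, ?_⟩
    · rw [Finset.card_image_of_injective _ hf, hA.1.2]
    · rw [hfg A hA.1.2, hA.2]
  · intro A _ B _ h
    exact Finset.image_injective hf h
  · intro B hB
    rw [Finset.mem_filter, Finset.mem_powersetCard] at hB
    obtain ⟨A, hA, rfl⟩ := Finset.subset_image_iff.1 hB.1.1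
    have hA' : A.card = K := by rw [← hB.1.2, Finset.card_image_of_injective _ hf]
    refine ⟨A, ?_, rfl⟩
    rw [Finset.mem_filter, Finset.mem_powersetCard]
    refine ⟨⟨?_, hA'⟩, ?_⟩
    · exact_mod_cast hA
    · apply hg
      rw [← hfg A hA', hB.2]

lemma cnt_add {n : ℕ} (V : Finset (ZMod n)) (K : ℕ) (c z : ZMod n) :
    cnt (V.image (fun a => a + c)) K (z + K * c) = cnt V K z := by
  refine cnt_image (fun a => a + c) (add_left_injective c) V K (fun z => z + K * c)
    (add_left_injective _) ?_ z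
  intro A hA
  rw [Finset.sum_image (fun a _ b' _ h => add_left_injective c h), Finset.sum_add_distrib,
    Finset.sum_const, hA, nsmul_eq_mul]

lemma cnt_unit {n : ℕ} (V : Finset (ZMod n)) (K : ℕ) (u : (ZMod n)ˣ) (z : ZMod n) :
    cnt (V.image (fun a => (u : ZMod n) * a)) K ((u : ZMod n) * z) = cnt V K z := by
  have hinj : Function.Injective (fun a : ZMod n => (u : ZMod n) * a) := by
    intro a c h
    exact (Units.mul_right_inj u).1 h
  refine cnt_image (fun a => (u : ZMod n) * a) hinj V K (fun z => (u : ZMod n) * z) hinj ?_ z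
  intro A _
  rw [Finset.sum_image (fun a _ b' _ h => hinj h), Finset.mul_sum]

lemma b_unit {n : ℕ} [NeZero n] (K : ℕ) (u : (ZMod n)ˣ) (z : ZMod n) :
    b n K ((u : ZMod n) * z) = b n K z := by
  unfold b
  rw [← cnt_unit (univ.erase (0 : ZMod n)) K u z]
  congr 1
  ext a
  rw [Finset.mem_image, Finset.mem_erase]
  constructor
  · rintro ⟨h, _⟩
    refine ⟨((u⁻¹ : (ZMod n)ˣ) : ZMod n) * a, ?_, by simp⟩
    rw [Finset.mem_erase]
    refine ⟨?_, Finset.mem_univ _⟩
    intro h0
    apply h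
    have := congrArg (fun t => (u : ZMod n) * t) h0
    simpa using this
  · rintro ⟨c, hc, rfl⟩
    rw [Finset.mem_erase] at hc
    refine ⟨?_, Finset.mem_univ _⟩
    intro h0
    apply hc.1
    have := congrArg (fun t => ((u⁻¹ : (ZMod n)ˣ) : ZMod n) * t) h0
    simpa using this

lemma T_unit {n : ℕ} [NeZero n] (K : ℕ) (u : (ZMod n)ˣ) (z w : ZMod n) :
    T n K ((u : ZMod n) * z) ((u : ZMod n) * w) = T n K z w := by
  induction K generalizing z with
  | zero => rw [T, T, b_unit]
  | succ K ih => rw [T, T, b_unit, ← mul_sub, ih]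

/-- shift identity -/
lemma shift {n : ℕ} [NeZero n] {w : ZMod n} (hw : w ≠ 0) (K : ℕ) (z : ZMod n) :
    cnt (V1 w) (K + 1) z + cnt (V1 w) K z = b n (K + 1) (z - (K + 1 : ℕ) * w) := by
  have h1 : cnt (univ.erase w) (K + 1) z = cnt (V1 w) (K + 1) z + cnt (V1 w) K z := by
    have hmem : (0 : ZMod n) ∈ univ.erase w := by
      rw [Finset.mem_erase]; exact ⟨hw.symm, Finset.mem_univ _⟩
    rw [cnt_succ hmem, sub_zero]
    have : (univ.erase w).erase (0 : ZMod n) = V1 w := by
      unfold V1; rw [Finset.erase_right_comm]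
    rw [this]
  rw [← h1, b, ← cnt_add (univ.erase (0 : ZMod n)) (K + 1) w (z - (K + 1 : ℕ) * w), sub_add_cancel]
  congr 1
  ext a
  rw [Finset.mem_image, Finset.mem_erase]
  constructor
  · rintro ⟨h, _⟩
    refine ⟨a - w, ?_, by ring⟩
    rw [Finset.mem_erase]
    exact ⟨sub_ne_zero.2 h, Finset.mem_univ _⟩
  · rintro ⟨c, hc, rfl⟩
    rw [Finset.mem_erase] at hc
    refine ⟨?_, Finset.mem_univ _⟩
    intro h0
    apply hc.1
    have h2 : c + w = 0 + w := by rw [h0, zero_add]
    exact add_right_cancel h2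

/-- complementation -/
lemma T_compl {n : ℕ} [NeZero n] {w : ZMod n} (hw : w ≠ 0) {K : ℕ} (hK : K ≤ n - 2)
    (z : ZMod n) :
    T n (n - 2 - K) (∑ v ∈ univ.erase (0 : ZMod n), v - z - w) w = T n K z w := by
  rw [T_eq_cnt hw, T_eq_cnt hw, cnt_compl (V1 w) (k := K) (by rw [card_V1 hw]; exact hK),
    card_V1 hw, sum_V1 hw]
  congr 2
  ring

lemma const_iff {n : ℕ} [NeZero n] (k : ℕ) (x : ℤ) :
    Const n (k + 1) x ↔ ∀ y y' : ZMod n, y ≠ 0 → y' ≠ 0 →
      T n k ((x : ZMod n) - y) y = T n k ((x : ZMod n) - y') y' := by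
  unfold Const
  constructor
  · intro h y y' hy hy'
    have h1 := h y.val y'.val (by push_cast; rwa [ZMod.natCast_zmod_val])
      (by push_cast; rwa [ZMod.natCast_zmod_val])
    rw [S_succ, S_succ] at h1
    push_cast at h1
    rwa [ZMod.natCast_zmod_val, ZMod.natCast_zmod_val] at h1
  · intro h y y' hy hy'
    rw [S_succ, S_succ]
    push_cast
    exact h _ _ hy hy'

lemma const_compl {n : ℕ} [NeZero n] {k : ℕ} (hk : 1 ≤ k) (hkn : k + 2 ≤ n) {x x' : ℤ}
    (hx : (x' : ZMod n) = ∑ v ∈ univ.erase (0 : ZMod n), v - x) (h : Const n k x) :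
    Const n (n - 1 - k) x' := by
  obtain ⟨j, rfl⟩ : ∃ j, k = j + 1 := ⟨k - 1, by omega⟩
  obtain ⟨i, hi⟩ : ∃ i, n - 1 - (j + 1) = i + 1 := ⟨n - 1 - (j + 1) - 1, by omega⟩
  rw [hi, const_iff]
  rw [const_iff] at h
  have key : ∀ y : ZMod n, y ≠ 0 → T n i ((x' : ZMod n) - y) y =
      b n (j + 1) (x : ZMod n) - T n j ((x : ZMod n) - y) y := by
    intro y hy
    have h1 := T_compl hy (K := j + 1) (by omega) (x : ZMod n)
    rw [show n - 2 - (j + 1) = i by omega, ← hx] at h1
    rw [h1, T]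
  intro y y' hy hy'
  rw [key y hy, key y' hy', h y y' hy hy']

/-- multiplication by units -/
lemma const_unit {n : ℕ} [NeZero n] {k : ℕ} {x x' : ℤ} (u : (ZMod n)ˣ)
    (hx : (x' : ZMod n) = (u : ZMod n) * x) (h : Const n (k + 1) x) {y y' : ZMod n} (hy : y ≠ 0)
    (hy' : y' ≠ 0) : T n k ((x' : ZMod n) - y) y = T n k ((x : ZMod n) - y') y' := by
  rw [const_iff] at h
  have hne : ((u⁻¹ : (ZMod n)ˣ) : ZMod n) * y ≠ 0 := by
    intro h0
    apply hy
    have := congrArg (fun t => (u : ZMod n) * t) h0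
    simpa using this
  have h2 := T_unit k u ((x : ZMod n) - ((u⁻¹ : (ZMod n)ˣ) : ZMod n) * y)
    (((u⁻¹ : (ZMod n)ˣ) : ZMod n) * y)
  rw [mul_sub, Units.mul_inv_cancel_left] at h2
  rw [hx, h2]
  exact h _ y' hne hy'

lemma exists_pair {m : ℕ} [NeZero m] (V : Finset (ZMod m)) (s : ZMod m)
    (h : m + (univ.filter (fun a : ZMod m => 2 * a = s)).card < 2 * V.card) :
    ∃ a ∈ V, ∃ c ∈ V, a ≠ c ∧ a + c = s := by
  classical
  by_contra hcon
  push Not at hcon
  have hsub : V ∩ V.image (fun a => s - a) ⊆ univ.filter (fun a : ZMod m => 2 * a = s) := by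
    intro a ha
    rw [Finset.mem_inter, Finset.mem_image] at ha
    obtain ⟨ha, c, hc, hca⟩ := ha
    rw [Finset.mem_filter]
    refine ⟨Finset.mem_univ _, ?_⟩
    by_contra h2
    have hne : a ≠ c := by
      rintro rfl
      apply h2
      linear_combination -hca
    exact hcon a ha c hc hne (by linear_combination -hca)
  have h1 := Finset.card_le_card hsub
  have h2 : (V ∪ V.image (fun a => s - a)).card ≤ m := by
    have := Finset.card_le_univ (V ∪ V.image (fun a => s - a))
    rwa [ZMod.card] at this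
  have h3 := Finset.card_union_add_card_inter V (V.image (fun a => s - a))
  have h4 : (V.image (fun a => s - a)).card = V.card := by
    apply Finset.card_image_of_injective
    intro a c hac
    exact sub_right_injective hac
  omega

lemma exists_sum_aux {m : ℕ} [NeZero m] (V A₀ : Finset (ZMod m)) (hA : A₀ ⊆ V) {K : ℕ}
    (hK : A₀.card + 2 = K) (z : ZMod m)
    (h : m + (univ.filter (fun a : ZMod m => 2 * a = z - ∑ a ∈ A₀, a)).card
      < 2 * (V.card - A₀.card)) : 0 < cnt V K z := by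
  classical
  have hc : (V \ A₀).card = V.card - A₀.card := Finset.card_sdiff_of_subset hA
  rw [← hc] at h
  obtain ⟨a, ha, c, hcm, hac, hs⟩ := exists_pair _ _ h
  rw [Finset.mem_sdiff] at ha hcm
  have hc1 : c ∉ A₀ := hcm.2
  have ha1 : a ∉ insert c A₀ := by
    rw [Finset.mem_insert]
    push Not
    exact ⟨hac, ha.2⟩
  refine cnt_pos (A := insert a (insert c A₀)) ?_ ?_ ?_
  · intro t ht
    rw [Finset.mem_insert, Finset.mem_insert] at ht
    rcases ht with rfl | rfl | ht
    · exact ha.1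
    · exact hcm.1
    · exact hA ht
  · rw [Finset.card_insert_of_notMem ha1, Finset.card_insert_of_notMem hc1]; omega
  · rw [Finset.sum_insert ha1, Finset.sum_insert hc1]
    linear_combination hs

lemma two_unit {m : ℕ} (hm : Odd m) {a c : ZMod m} (h : 2 * a = 2 * c) : a = c := by
  have h2 : IsUnit (2 : ZMod m) := by
    have : ((2 : ℕ) : ZMod m) = 2 := by norm_cast
    rw [← this, ZMod.isUnit_iff_coprime]
    exact (Nat.coprime_two_left.2 hm)
  exact h2.mul_left_cancel h

lemma card_roots_odd {m : ℕ} [NeZero m] (hm : Odd m) (s : ZMod m) :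
    (univ.filter (fun a : ZMod m => 2 * a = s)).card ≤ 1 := by
  rw [Finset.card_le_one]
  intro a ha c hc
  rw [Finset.mem_filter] at ha hc
  exact two_unit hm (ha.2.trans hc.2.symm)

/-- all sums are attained (odd modulus) -/
lemma EL_odd {m : ℕ} [NeZero m] (hm : Odd m) (V : Finset (ZMod m)) (hV : m ≤ V.card + 2) {K : ℕ}
    (hK : 2 ≤ K) (hKV : K + 2 ≤ V.card) (z : ZMod m) : 0 < cnt V K z := by
  have main : ∀ K : ℕ, 2 ≤ K → 2 * K ≤ V.card → ∀ z : ZMod m, 0 < cnt V K z := by
    intro K hK h2K z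
    obtain ⟨A₀, hA, hc⟩ := Finset.exists_subset_card_eq (s := V) (n := K - 2) (by omega)
    refine exists_sum_aux V A₀ hA (by omega) z ?_
    have := card_roots_odd hm (z - ∑ a ∈ A₀, a)
    omega
  by_cases h : 2 * K ≤ V.card
  · exact main K hK h z
  · rw [cnt_compl V (by omega)]
    exact main _ (by omega) (by omega) _

end Pool.Agent.H47.SD
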