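import Mathlib
import Pool.Agent.H47.SD.C

/-!
# Prime power version of the reduction identity, small `k`, and residues `k mod p` in the middle
-/

set_option autoImplicit false

open Finset

namespace Pool.Agent.H47.SD

lemma crt {P N : ℕ} (h : Nat.Coprime P N) (r s : ℤ) :
    ∃ y : ℤ, (P : ℤ) ∣ y - r ∧ (N : ℤ) ∣ y - s := by
  obtain ⟨u, v, huv⟩ := Nat.isCoprime_iff_coprime.2 h
  refine ⟨r * (v * N) + s * (u * P), ⟨u * (s - r), ?_⟩, ⟨v * (r - s), ?_⟩⟩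
  · linear_combination r * huv
  · linear_combination s * huv

lemma intCast_ne_zero {n : ℕ} {y : ℤ} : (y : ZMod n) ≠ 0 ↔ ¬ (n : ℤ) ∣ y := by
  rw [Ne, ZMod.intCast_zmod_eq_zero_iff_dvd]

/-- reduction identity for prime powers -/
theorem redf {p N : ℕ} (hp : p.Prime) (hpN : ¬ p ∣ N) (f : ℕ) :
    ∀ {n M a : ℕ} [NeZero n] [NeZero M], n = p ^ (f + 1) * M → n = p ^ a * N → ∀ (k : ℕ) {z z' : ℤ},
      (N : ℤ) ∣ z - z' → ((p : ℤ) ^ f ∣ z) → ((p : ℤ) ^ f ∣ z') →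
      (b n k (z : ZMod n) : ℤ) - b n k (z' : ZMod n) =
        (-1) ^ (k + k / p ^ (f + 1)) *
          (dl M (p ^ (f + 1)) (k / p ^ (f + 1)) z - dl M (p ^ (f + 1)) (k / p ^ (f + 1)) z') := by
  induction f with
  | zero =>
    intro n M a _ _ hn hN k z z' hz _ _
    rw [zero_add, pow_one] at hn ⊢
    exact red hp hn hN k hz
  | succ f ih =>
    intro n M a _ _ hn hN k z z' hz h1 h2
    have hp0 := hp.pos
    have hpz : (p : ℤ) ≠ 0 := by exact_mod_cast hp0.ne'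
    have hM0 : M ≠ 0 := NeZero.ne M
    have hm0 : p ^ (f + 1) * M ≠ 0 := by positivity
    have : NeZero (p ^ (f + 1) * M) := ⟨hm0⟩
    have hn1 : n = p * (p ^ (f + 1) * M) := by rw [hn, pow_succ p (f + 1)]; ring
    -- the exponent `a` is at least `f + 2`
    have ha : f + 2 ≤ a := by
      by_contra hlt
      push Not at hlt
      have h3 : p ^ (f + 2) ∣ p ^ a * N := by rw [← hN, hn]; exact dvd_mul_right _ _
      have h4 : p ^ (f + 2) = p ^ a * (p ^ (f + 2 - a)) := by rw [← pow_add]; congr 1; omega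
      rw [h4] at h3
      have h5 : p ^ (f + 2 - a) ∣ N := Nat.dvd_of_mul_dvd_mul_left (by positivity) h3
      exact hpN ((dvd_pow_self p (by omega)).trans h5)
    have hN1 : p ^ (f + 1) * M = p ^ (a - 1) * N := by
      have : p * (p ^ (f + 1) * M) = p * (p ^ (a - 1) * N) := by
        rw [← hn1, hN, ← mul_assoc, ← pow_succ']; congr 2; omega
      exact Nat.eq_of_mul_eq_mul_left hp0 this
    obtain ⟨u, rfl⟩ : (p : ℤ) ∣ z := (dvd_pow_self _ (by omega)).trans h1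
    obtain ⟨u', rfl⟩ : (p : ℤ) ∣ z' := (dvd_pow_self _ (by omega)).trans h2
    have h3 := red hp hn1 hN k hz
    rw [dl_mul hp0, dl_mul hp0] at h3
    have hcop : IsCoprime (N : ℤ) p :=
      Nat.isCoprime_iff_coprime.2 ((Nat.Prime.coprime_iff_not_dvd hp).2 hpN).symm
    have hu : (N : ℤ) ∣ u - u' := by
      rw [← mul_sub] at hz
      exact hcop.dvd_of_dvd_mul_left hz
    rw [pow_succ'] at h1 h2
    have h4 := ih rfl hN1 (k / p) hu ((mul_dvd_mul_iff_left hpz).1 h1) ((mul_dvd_mul_iff_left hpz).1 h2)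
    rw [h3, h4]
    have h5 : k / p / p ^ (f + 1) = k / p ^ (f + 1 + 1) := by
      rw [Nat.div_div_eq_div_mul, ← pow_succ']
    have h6 : ∀ v : ℤ, dl M (p ^ (f + 1)) (k / p / p ^ (f + 1)) v =
        dl M (p ^ (f + 1 + 1)) (k / p ^ (f + 1 + 1)) (p * v) := by
      intro v
      unfold dl
      rw [h5]
      have h7 : (((p ^ (f + 1 + 1) : ℕ) : ℤ) ∣ p * v) ↔ (((p ^ (f + 1) : ℕ) : ℤ) ∣ v) := by
        push_cast
        rw [pow_succ' (p : ℤ) (f + 1)]
        exact mul_dvd_mul_iff_left hpz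
      by_cases h8 : (((p ^ (f + 1) : ℕ) : ℤ) ∣ v)
      · rw [if_pos h8, if_pos (h7.2 h8)]
        congr 3
        push_cast
        rw [pow_succ' (p : ℤ) (f + 1), Int.mul_ediv_mul_of_pos _ _ (by exact_mod_cast hp0)]
      · rw [if_neg h8, if_neg (fun h => h8 (h7.1 h))]
    rw [h6, h6, ← mul_assoc, ← pow_add, h5]
    congr 1
    rw [show k + k / p + (k / p + k / p ^ (f + 1 + 1)) = (k + k / p ^ (f + 1 + 1)) + 2 * (k / p) by
      ring, pow_add, pow_mul]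
    simp

theorem S_sub_Sf {n M p N a f : ℕ} [NeZero n] [NeZero M] (hp : p.Prime) (hpN : ¬ p ∣ N)
    (hn : n = p ^ (f + 1) * M) (hN : n = p ^ a * N) (k : ℕ) {x x' y y' : ℤ} (hx : (N : ℤ) ∣ x - x')
    (hy : (N : ℤ) ∣ y - y') (h1 : (p : ℤ) ^ f ∣ x) (h2 : (p : ℤ) ^ f ∣ x') (h3 : (p : ℤ) ^ f ∣ y)
    (h4 : (p : ℤ) ^ f ∣ y') :
    S n k x y - S n k x' y' = - (-1) ^ k *
      (E M (p ^ (f + 1)) k x y - E M (p ^ (f + 1)) k x' y') := by
  induction k generalizing x x' with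
  | zero => rw [S, S, E, E]; ring
  | succ k ih =>
    have h5 : (N : ℤ) ∣ (x - y) - (x' - y') := by
      have := dvd_sub hx hy
      rwa [show x - x' - (y - y') = x - y - (x' - y') by ring] at this
    have h6 := ih h5 (dvd_sub h1 h3) (dvd_sub h2 h4)
    have h7 := redf hp hpN f hn hN k h5 (dvd_sub h1 h3) (dvd_sub h2 h4)
    rw [S, S, E, E]
    rw [pow_add] at h7
    rw [pow_succ]
    linear_combination h7 - h6

lemma E_eqf {n M p N a f : ℕ} [NeZero n] [NeZero M] (hp : p.Prime) (hpN : ¬ p ∣ N)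
    (hn : n = p ^ (f + 1) * M) (hN : n = p ^ a * N) {k : ℕ} {x y y' : ℤ} (hc : Const n k x)
    (hy : (y : ZMod n) ≠ 0) (hy' : (y' : ZMod n) ≠ 0) (hyy : (N : ℤ) ∣ y - y')
    (h1 : (p : ℤ) ^ f ∣ x) (h3 : (p : ℤ) ^ f ∣ y) (h4 : (p : ℤ) ^ f ∣ y') :
    E M (p ^ (f + 1)) k x y = E M (p ^ (f + 1)) k x y' := by
  have h5 := S_sub_Sf hp hpN hn hN k (x := x) (x' := x) (by simp) hyy h1 h1 h3 h4
  rw [hc y y' hy hy', sub_self] at h5
  have h2 : ((-1 : ℤ)) ^ k ≠ 0 := pow_ne_zero _ (by norm_num)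
  have h6 : ((-1 : ℤ)) ^ k * (E M (p ^ (f + 1)) k x y - E M (p ^ (f + 1)) k x y') = 0 := by
    linear_combination h5
  rcases mul_eq_zero.1 h6 with h7 | h7
  · exact absurd h7 h2
  · linarith

lemma b_zero {n : ℕ} [NeZero n] (z : ZMod n) : b n 0 z = if z = 0 then 1 else 0 := cnt_zero _ _

/-- for `k ≤ P` the reduced sum counts solutions -/
lemma E_small {n M P : ℕ} [NeZero M] (hP : 0 < P) (hn : n = P * M) {k : ℕ} (hk : k ≤ P) (x y : ℤ) :
    E M P k x y = ((range k).filter (fun i : ℕ => (n : ℤ) ∣ x - (i + 1) * y)).card := by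
  have hdl : ∀ z : ℤ, dl M P 0 z = if (n : ℤ) ∣ z then 1 else 0 := by
    intro z
    have hPz : (P : ℤ) ≠ 0 := by exact_mod_cast hP.ne'
    unfold dl
    by_cases h : (P : ℤ) ∣ z
    · obtain ⟨c, rfl⟩ := h
      rw [if_pos (dvd_mul_right _ _), Int.mul_ediv_cancel_left _ hPz, b_zero]
      have h2 : ((n : ℤ) ∣ P * c) ↔ ((c : ZMod M) = 0) := by
        rw [ZMod.intCast_zmod_eq_zero_iff_dvd, hn]
        push_cast
        exact mul_dvd_mul_iff_left hPz
      by_cases h3 : (c : ZMod M) = 0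
      · rw [if_pos h3, if_pos (h2.2 h3)]; rfl
      · rw [if_neg h3, if_neg (fun h => h3 (h2.1 h))]; rfl
    · rw [if_neg h, if_neg]
      intro h2
      apply h
      rw [hn] at h2
      push_cast at h2
      exact (dvd_mul_right _ _).trans h2
  have h1 := E_add (m := M) (p := P) k 0 x y
  rw [add_zero, E, add_zero] at h1
  rw [h1, Finset.card_filter]
  push_cast
  refine Finset.sum_congr rfl fun i hi => ?_
  have hi' := Finset.mem_range.1 hi
  rw [Nat.div_eq_of_lt (by omega), pow_zero, one_mul, hdl]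

/-- small `k`: impossible if some comparison point has no solutions -/
lemma small {n M p N a f : ℕ} [NeZero n] [NeZero M] (hp : p.Prime) (hpN : ¬ p ∣ N)
    (hn : n = p ^ (f + 1) * M) (hN : n = p ^ a * N) {k : ℕ} {x y' : ℤ} (hc : Const n k x)
    (hk1 : 1 ≤ k) (hk : k ≤ p ^ (f + 1)) (hx : (x : ZMod n) ≠ 0) (hy' : (y' : ZMod n) ≠ 0)
    (hyy : (N : ℤ) ∣ x - y') (h1 : (p : ℤ) ^ f ∣ x) (h4 : (p : ℤ) ^ f ∣ y')
    (hno : ∀ i : ℕ, 1 ≤ i → i ≤ k → ¬ (n : ℤ) ∣ x - i * y') : False := by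
  have hP : 0 < p ^ (f + 1) := pow_pos hp.pos _
  have h5 := E_eqf hp hpN hn hN hc hx hy' hyy h1 h1 h4
  rw [E_small hP hn hk, E_small hP hn hk] at h5
  have h6 : ((range k).filter (fun i : ℕ => (n : ℤ) ∣ x - (i + 1) * y')) = ∅ := by
    rw [Finset.filter_eq_empty_iff]
    intro i hi
    have := hno (i + 1) (by omega) (by have := Finset.mem_range.1 hi; omega)
    push_cast at this
    exact this
  rw [h6, Finset.card_empty] at h5
  have h7 : 0 ∈ ((range k).filter (fun i : ℕ => (n : ℤ) ∣ x - (i + 1) * x)) := by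
    rw [Finset.mem_filter, Finset.mem_range]
    exact ⟨by omega, by simp⟩
  have h8 : 0 < ((range k).filter (fun i : ℕ => (n : ℤ) ∣ x - (i + 1) * x)).card :=
    Finset.card_pos.2 ⟨0, h7⟩
  omega

/-- residues with the same gcd are associated -/
lemma exists_unit {n : ℕ} [NeZero n] {x x' : ℤ} (h : Int.gcd x n = Int.gcd x' n) :
    ∃ u : (ZMod n)ˣ, (x' : ZMod n) = (u : ZMod n) * x := by
  have key : ∀ x : ℤ, ∃ u : (ZMod n)ˣ, (x : ZMod n) = (u : ZMod n) * (Int.gcd x n : ℕ) := by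
    intro x
    obtain ⟨d, hd, u, hu, hx⟩ := ZMod.eq_unit_mul_divisor (x : ZMod n)
    obtain ⟨u, rfl⟩ := hu
    refine ⟨u, ?_⟩
    rw [hx]
    congr 2
    apply Nat.dvd_antisymm
    · have h1 : (d : ℤ) ∣ x := by
        have h2 : ((x : ℤ) : ZMod d) = 0 := by
          have h3 := congrArg (ZMod.castHom hd (ZMod d)) hx
          rw [map_intCast, map_mul, map_natCast, ZMod.natCast_self, mul_zero] at h3
          exact h3
        rwa [ZMod.intCast_zmod_eq_zero_iff_dvd] at h2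
      exact_mod_cast Int.dvd_coe_gcd h1 (Int.natCast_dvd_natCast.2 hd)
    · set g := Int.gcd x n with hg
      have hgn : g ∣ n := by
        have := Int.gcd_dvd_right x n
        exact_mod_cast this
      have hgx : (g : ℤ) ∣ x := Int.gcd_dvd_left x n
      have h3 : (d : ZMod n) = ((u⁻¹ : (ZMod n)ˣ) : ZMod n) * (x : ZMod n) := by
        rw [hx]; simp
      have h4 := congrArg (ZMod.castHom hgn (ZMod g)) h3
      rw [map_natCast, map_mul, map_intCast] at h4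
      rw [(ZMod.intCast_zmod_eq_zero_iff_dvd x g).2 hgx, mul_zero,
        ZMod.natCast_eq_zero_iff] at h4
      exact h4
  obtain ⟨u, hu⟩ := key x
  obtain ⟨v, hv⟩ := key x'
  refine ⟨v * u⁻¹, ?_⟩
  rw [hv, hu, h]
  push_cast
  rw [mul_assoc, Units.inv_mul_cancel_left]

/-- residues `k mod p` different from `0` and `p - 1` -/
lemma mid {n p N a e : ℕ} [NeZero n] (hp : p.Prime) (hpN : ¬ p ∣ N) (hN : n = p ^ a * N)
    (hea : e < a) {k : ℕ} (hk0 : ¬ p ∣ k) (hk1 : ¬ p ∣ k + 1) {x : ℤ} (hc : Const n k x)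
    (hx1 : (p : ℤ) ^ e ∣ x) (hx2 : ¬ (p : ℤ) ^ (e + 1) ∣ x) {ξ : ℤ} (hξ1 : (p : ℤ) ^ (e + 1) ∣ ξ)
    (hξ2 : (N : ℤ) ∣ ξ - x) : b n k (ξ : ZMod n) = b n k (x : ZMod n) := by
  obtain ⟨K, rfl⟩ : ∃ K, k = K + 1 := ⟨k - 1, by
    have : k ≠ 0 := by rintro rfl; exact hk0 (dvd_zero _)
    omega⟩
  have hpz : (p : ℤ) ≠ 0 := by exact_mod_cast hp.ne_zero
  have hpp : Prime (p : ℤ) := Nat.prime_iff_prime_int.1 hp
  set y : ℤ := (p : ℤ) ^ e * N with hy
  have hgcd : ∀ c : ℕ, ¬ p ∣ c → Int.gcd x n = Int.gcd (ξ + c * y) n := by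
    intro c hcp
    -- both have `p`-part `p ^ e`
    have hcop : IsCoprime ((p : ℤ) ^ (a - e)) (N : ℤ) := by
      apply IsCoprime.pow_left
      exact Nat.isCoprime_iff_coprime.2 ((Nat.Prime.coprime_iff_not_dvd hp).2 hpN)
    obtain ⟨x₁, rfl⟩ := hx1
    have hx₁ : ¬ (p : ℤ) ∣ x₁ := by
      intro h
      apply hx2
      rw [pow_succ]
      exact mul_dvd_mul_left _ h
    obtain ⟨ξ₁, rfl⟩ : (p : ℤ) ^ e ∣ ξ := (pow_dvd_pow _ (Nat.le_succ e)).trans hξ1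
    have hξ₁ : (p : ℤ) ∣ ξ₁ := by
      rw [pow_succ] at hξ1
      exact (mul_dvd_mul_iff_left (pow_ne_zero _ hpz)).1 hξ1
    have e1 : (p : ℤ) ^ e * ξ₁ + c * y = (p : ℤ) ^ e * (ξ₁ + c * N) := by rw [hy]; ring
    have e2 : (n : ℤ) = (p : ℤ) ^ e * ((p : ℤ) ^ (a - e) * N) := by
      rw [hN]; push_cast
      rw [← mul_assoc, ← pow_add]; congr 2; omega
    rw [e1, e2, Int.gcd_mul_left, Int.gcd_mul_left]
    congr 1
    have hd1 : IsCoprime x₁ ((p : ℤ) ^ (a - e)) := by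
      apply IsCoprime.pow_right
      exact ((Prime.coprime_iff_not_dvd hpp).2 hx₁).symm
    have hd2 : IsCoprime (ξ₁ + c * N) ((p : ℤ) ^ (a - e)) := by
      apply IsCoprime.pow_right
      refine ((Prime.coprime_iff_not_dvd hpp).2 ?_).symm
      intro h
      have h2 : (p : ℤ) ∣ c * N := (dvd_add_right hξ₁).1 h
      rcases hpp.dvd_or_dvd h2 with h3 | h3
      · exact hcp (by exact_mod_cast h3)
      · exact hpN (by exact_mod_cast h3)
    rw [Int.isCoprime_iff_gcd_eq_one] at hd1 hd2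
    rw [Int.gcd_mul_right_right_of_gcd_eq_one hd1, Int.gcd_mul_right_right_of_gcd_eq_one hd2]
    have hcopN : IsCoprime (N : ℤ) ((p : ℤ) ^ e) := by
      apply IsCoprime.pow_right
      exact (Nat.isCoprime_iff_coprime.2 ((Nat.Prime.coprime_iff_not_dvd hp).2 hpN)).symm
    have h5 : (N : ℤ) ∣ ξ₁ - x₁ := by
      rw [← mul_sub] at hξ2
      exact hcopN.dvd_of_dvd_mul_left hξ2
    obtain ⟨t, ht⟩ := h5
    rw [show ξ₁ + c * N = x₁ + (t + c) * N by linear_combination ht, Int.gcd_add_mul_right_left]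
  have hpn : ¬ (n : ℤ) ∣ y := by
    intro h
    rw [hN, hy] at h
    push_cast at h
    have h2 : (p : ℤ) ^ (e + 1) ∣ (p : ℤ) ^ e * N :=
      ((pow_dvd_pow _ hea).trans (dvd_mul_right _ _)).trans h
    rw [pow_succ] at h2
    have h3 := (mul_dvd_mul_iff_left (pow_ne_zero _ hpz)).1 h2
    exact hpN (by exact_mod_cast h3)
  have hy0 : (y : ZMod n) ≠ 0 := intCast_ne_zero.2 hpn
  obtain ⟨u, hu⟩ := exists_unit (hgcd (K + 1) hk0)
  obtain ⟨v, hv⟩ := exists_unit (hgcd (K + 1 + 1) hk1)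
  have h1 := const_unit u hu hc hy0 hy0
  have h2 := const_unit v hv hc hy0 hy0
  rw [← h2] at h1
  have h3 : (((ξ + ((K + 1 + 1 : ℕ) : ℤ) * y : ℤ) : ZMod n)) - (y : ZMod n)
      = (((ξ + ((K + 1 : ℕ) : ℤ) * y : ℤ) : ZMod n)) := by push_cast; ring
  rw [h3, T_eq_cnt hy0, T_eq_cnt hy0] at h1
  have h4 := b_split hy0 K (((ξ + ((K + 1 : ℕ) : ℤ) * y : ℤ) : ZMod n))
  have h5 := shift hy0 K (((ξ + ((K + 1 : ℕ) : ℤ) * y : ℤ) : ZMod n))
  have h6 : (((ξ + ((K + 1 : ℕ) : ℤ) * y : ℤ) : ZMod n)) - ((K + 1 : ℕ) : ZMod n) * (y : ZMod n)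
      = (ξ : ZMod n) := by push_cast; ring
  rw [h6] at h5
  have h7 : b n (K + 1) (((ξ + ((K + 1 : ℕ) : ℤ) * y : ℤ) : ZMod n)) = b n (K + 1) (x : ZMod n) := by
    rw [hu, b_unit]
  have h8 : cnt (V1 (y : ZMod n)) K ((((ξ + ((K + 1 : ℕ) : ℤ) * y : ℤ) : ZMod n)) - y) =
      cnt (V1 (y : ZMod n)) K ((((ξ + ((K + 1 : ℕ) : ℤ) * y : ℤ) : ZMod n))) := by exact_mod_cast h1
  omega

end Pool.Agent.H47.SD
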