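import Mathlib
import Pool.Agent.H47.SD.D

/-!
# Residues `k mod p` in the middle: no designs
-/

set_option autoImplicit false

open Finset

namespace Pool.Agent.H47.SD

lemma dl_zero {n M P : ℕ} [NeZero M] (hP : 0 < P) (hn : n = P * M) (z : ℤ) :
    dl M P 0 z = if (n : ℤ) ∣ z then 1 else 0 := by
  have hPz : (P : ℤ) ≠ 0 := by exact_mod_cast hP.ne'
  unfold dl
  by_cases h : (P : ℤ) ∣ z
  · obtain ⟨c, rfl⟩ := h
    rw [if_pos (dvd_mul_right _ _), Int.mul_ediv_cancel_left _ hPz, b_zero]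
    have h2 : ((n : ℤ) ∣ P * c) ↔ ((c : ZMod M) = 0) := by
      rw [ZMod.intCast_zmod_eq_zero_iff_dvd, hn]
      push_cast
      exact mul_dvd_mul_iff_left hPz
    by_cases h3 : (c : ZMod M) = 0
    · rw [if_pos h3, if_pos (h2.2 h3)]; rfl
    · rw [if_neg h3, if_neg (fun h => h3 (h2.1 h))]; rfl
  · rw [if_neg h, if_neg]
    intro h2
    apply h
    rw [hn] at h2
    push_cast at h2
    exact (dvd_mul_right _ _).trans h2

/-- the set of solutions -/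
def sol (n ℓ k : ℕ) (x y : ℤ) : Finset ℕ :=
  (range k).filter (fun i : ℕ => (n : ℤ) ∣ x - (i + 1) * y ∧ ¬ ℓ ∣ i + 1)

lemma E_diff {n M p N a f ℓ L : ℕ} [NeZero n] [NeZero M] (hp : p.Prime) (hpN : ¬ p ∣ N)
    (hn : n = p ^ (f + 1) * M) (hN : n = p ^ a * N) (hfa : f + 1 ≤ a) (hℓ : ℓ.Prime)
    (hNL : N = ℓ * L) {k : ℕ} {x y : ℤ} (hk : k ≤ p ^ (f + 1) * ℓ) (hx : (N : ℤ) ∣ x)
    (hy : (N : ℤ) ∣ y) :
    E M (p ^ (f + 1)) k x y - E M (p ^ (f + 1)) k x (y + (p ^ a * L : ℕ)) =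
      ((sol n ℓ k x y).card : ℤ) := by
  have hp0 := hp.pos
  set P := p ^ (f + 1) with hP
  have hP0 : 0 < P := pow_pos hp0 _
  have hPz : (P : ℤ) ≠ 0 := by exact_mod_cast hP0.ne'
  have hM0 : M ≠ 0 := NeZero.ne M
  have hn0 : n ≠ 0 := NeZero.ne n
  have hN0 : N ≠ 0 := by rintro rfl; rw [mul_zero] at hN; exact hn0 hN
  have hL0 : L ≠ 0 := by rintro rfl; rw [mul_zero] at hNL; exact hN0 hNL
  have hMN : M = p ^ (a - (f + 1)) * N := by
    have h1 : P * M = P * (p ^ (a - (f + 1)) * N) := by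
      rw [← hn, hN, ← mul_assoc, hP, ← pow_add]; congr 2; omega
    exact Nat.eq_of_mul_eq_mul_left hP0 h1
  set M₁ := p ^ (a - (f + 1)) * L with hM₁
  have hM₁0 : M₁ ≠ 0 := by positivity
  have : NeZero M₁ := ⟨hM₁0⟩
  have hMM : M = ℓ * M₁ := by rw [hMN, hNL, hM₁]; ring
  have hv : p ^ a * L = P * M₁ := by
    rw [hM₁, hP, ← mul_assoc, ← pow_add]; congr 2; omega
  have h1 := E_add (m := M) (p := P) k 0 x y
  have h2 := E_add (m := M) (p := P) k 0 x (y + (p ^ a * L : ℕ))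
  rw [add_zero, E, add_zero] at h1 h2
  rw [h1, h2, ← Finset.sum_sub_distrib, sol, Finset.card_filter]
  push_cast
  refine Finset.sum_congr rfl fun i hi => ?_
  have hik := Finset.mem_range.1 hi
  set κ := (k - 1 - i) / P with hκ
  have hκℓ : κ < ℓ := by
    rw [hκ, Nat.div_lt_iff_lt_mul hP0, mul_comm]; omega
  set ζ : ℤ := x - (i + 1) * y with hζ
  have hζN : (N : ℤ) ∣ ζ := dvd_sub hx (hy.mul_left _)
  have e1 : x - ((i : ℤ) + 1) * (y + (p : ℤ) ^ a * L) = ζ - P * ((i + 1) * M₁) := by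
    have : ((p : ℤ) ^ a * L) = (P : ℤ) * M₁ := by exact_mod_cast hv
    rw [this, hζ]; ring
  rw [e1]
  by_cases hPd : (P : ℤ) ∣ ζ
  · obtain ⟨u, hu⟩ := hPd
    rw [show ζ - (P : ℤ) * (((i : ℤ) + 1) * M₁) = P * (u - ((i : ℤ) + 1) * M₁) by rw [hu]; ring,
      hu, dl_mul hP0, dl_mul hP0]
    have hcop : IsCoprime (N : ℤ) P := by
      rw [hP]; push_cast
      apply IsCoprime.pow_right
      exact (Nat.isCoprime_iff_coprime.2 ((Nat.Prime.coprime_iff_not_dvd hp).2 hpN)).symm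
    have hNu : (N : ℤ) ∣ u := by rw [hu] at hζN; exact hcop.dvd_of_dvd_mul_left hζN
    have hfac : M = ℓ ^ M.factorization ℓ * (M / ℓ ^ M.factorization ℓ) :=
      (Nat.ordProj_mul_ordCompl_eq_self M ℓ).symm
    have hdvd1 : (((M / ℓ ^ M.factorization ℓ : ℕ) : ℤ)) ∣ u - (u - ((i : ℤ) + 1) * M₁) := by
      rw [sub_sub_cancel]
      apply Dvd.dvd.mul_left
      have h5 : M / ℓ ^ M.factorization ℓ ∣ ℓ * M₁ := by
        rw [← hMM]; exact Nat.ordCompl_dvd M ℓ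
      have h6 : Nat.Coprime (M / ℓ ^ M.factorization ℓ) ℓ :=
        (Nat.coprime_ordCompl hℓ hM0).symm
      exact_mod_cast h6.dvd_of_dvd_mul_left h5
    have h4 := red hℓ hMM hfac κ hdvd1
    rw [Nat.div_eq_of_lt hκℓ, dl_zero hℓ.pos hMM, dl_zero hℓ.pos hMM, add_zero] at h4
    rw [← mul_sub, h4, ← mul_assoc, ← pow_add, ← two_mul, pow_mul, neg_one_sq, one_pow, one_mul]
    have hMu : ((M : ℤ) ∣ u) ↔ ((n : ℤ) ∣ P * u) := by
      rw [hn]; push_cast; exact (mul_dvd_mul_iff_left hPz).symm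
    by_cases hd : ℓ ∣ i + 1
    · have h7 : (M : ℤ) ∣ ((i : ℤ) + 1) * M₁ := by
        rw [hMM]; push_cast
        exact mul_dvd_mul (by exact_mod_cast hd) dvd_rfl
      have h8 : ((M : ℤ) ∣ u - ((i : ℤ) + 1) * M₁) ↔ ((M : ℤ) ∣ u) := by
        constructor
        · intro h; have := dvd_add h h7; rwa [sub_add_cancel] at this
        · intro h; exact dvd_sub h h7
      rw [if_neg (show ¬ ((n : ℤ) ∣ P * u ∧ ¬ ℓ ∣ i + 1) from fun h => h.2 hd)]
      by_cases h9 : (M : ℤ) ∣ u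
      · rw [if_pos h9, if_pos (h8.2 h9)]; ring
      · rw [if_neg h9, if_neg (fun h => h9 (h8.1 h))]; ring
    · have h8 : ¬ ((M : ℤ) ∣ u - ((i : ℤ) + 1) * M₁) := by
        intro h
        have h10 : (N : ℤ) ∣ u - ((i : ℤ) + 1) * M₁ := by
          refine dvd_trans ?_ h
          rw [hMN]; push_cast; exact dvd_mul_left _ _
        have h11 : (N : ℤ) ∣ ((i : ℤ) + 1) * M₁ := by
          have := dvd_sub hNu h10; rwa [sub_sub_cancel] at this
        have h12 : ℓ * L ∣ (i + 1) * (p ^ (a - (f + 1)) * L) := by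
          rw [← hNL, ← hM₁]; exact_mod_cast h11
        rw [← mul_assoc] at h12
        have h13 : ℓ ∣ (i + 1) * p ^ (a - (f + 1)) :=
          Nat.dvd_of_mul_dvd_mul_right (Nat.pos_of_ne_zero hL0) h12
        rcases (Nat.Prime.dvd_mul hℓ).1 h13 with h14 | h14
        · exact hd h14
        · have h15 := hℓ.dvd_of_dvd_pow h14
          rw [Nat.prime_dvd_prime_iff_eq hℓ hp] at h15
          subst h15
          exact hpN (by rw [hNL]; exact dvd_mul_right _ _)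
      rw [if_neg h8, sub_zero]
      by_cases h9 : (M : ℤ) ∣ u
      · rw [if_pos h9, if_pos ⟨hMu.1 h9, hd⟩]
      · rw [if_neg h9, if_neg (fun h => h9 (hMu.2 h.1))]
  · have h3 : ¬ (P : ℤ) ∣ ζ - P * ((i + 1) * M₁) := by
      intro h
      apply hPd
      have := dvd_add h (dvd_mul_right (P : ℤ) ((i + 1) * M₁))
      rwa [sub_add_cancel] at this
    rw [dl_of_not_dvd _ hPd, dl_of_not_dvd _ h3, if_neg, mul_zero, sub_zero]
    rintro ⟨h, _⟩
    apply hPd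
    refine dvd_trans ?_ h
    rw [hn]; push_cast; exact dvd_mul_right _ _

lemma two_prime {n p N a f ℓ : ℕ} [NeZero n] (hp : p.Prime) (hpN : ¬ p ∣ N)
    (hN : n = p ^ a * N) (hfa : f + 1 ≤ a) (hℓ : ℓ.Prime) (hℓN : ℓ ∣ N) {k : ℕ} {x y y' : ℤ}
    (hc : Const n k x) (hk : k ≤ p ^ (f + 1) * ℓ) (hx : (N : ℤ) ∣ x) (hy : (N : ℤ) ∣ y)
    (hy' : (N : ℤ) ∣ y') (hy0 : ¬ (n : ℤ) ∣ y) (hy'0 : ¬ (n : ℤ) ∣ y') (h1 : (p : ℤ) ^ f ∣ x)
    (h2 : (p : ℤ) ^ f ∣ y) (h3 : (p : ℤ) ^ f ∣ y') :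
    (sol n ℓ k x y).card = (sol n ℓ k x y').card := by
  obtain ⟨L, hNL⟩ := hℓN
  have hp0 := hp.pos
  have hn0 : n ≠ 0 := NeZero.ne n
  have hN0 : N ≠ 0 := by rintro rfl; rw [mul_zero] at hN; exact hn0 hN
  have hL0 : L ≠ 0 := by rintro rfl; rw [mul_zero] at hNL; exact hN0 hNL
  set M := p ^ (a - (f + 1)) * N with hM
  have hM0 : M ≠ 0 := by positivity
  have : NeZero M := ⟨hM0⟩
  have hn : n = p ^ (f + 1) * M := by
    rw [hM, hN, ← mul_assoc, ← pow_add]; congr 2; omega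
  have hNv : ¬ (N : ℤ) ∣ ((p ^ a * L : ℕ) : ℤ) := by
    intro h
    have h5 : ℓ * L ∣ p ^ a * L := by rw [← hNL]; exact_mod_cast h
    have h6 : ℓ ∣ p ^ a := Nat.dvd_of_mul_dvd_mul_right (Nat.pos_of_ne_zero hL0) h5
    have h15 := hℓ.dvd_of_dvd_pow h6
    rw [Nat.prime_dvd_prime_iff_eq hℓ hp] at h15
    subst h15
    exact hpN (by rw [hNL]; exact dvd_mul_right _ _)
  have hne : ∀ y : ℤ, (N : ℤ) ∣ y → ((y + (p ^ a * L : ℕ) : ℤ) : ZMod n) ≠ 0 := by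
    intro y hy
    rw [intCast_ne_zero]
    intro h
    apply hNv
    have h5 : (N : ℤ) ∣ y + (p ^ a * L : ℕ) := by
      refine dvd_trans ?_ h
      rw [hN]; push_cast; exact dvd_mul_left _ _
    exact (dvd_add_right hy).1 h5
  have hpv : (p : ℤ) ^ f ∣ ((p ^ a * L : ℕ) : ℤ) := by
    push_cast
    exact (pow_dvd_pow _ (by omega)).trans (dvd_mul_right _ _)
  have hd : (N : ℤ) ∣ y - y' := dvd_sub hy hy'
  have e1 := E_eqf hp hpN hn hN hc (intCast_ne_zero.2 hy0) (intCast_ne_zero.2 hy'0) hd h1 h2 h3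
  have e2 := E_eqf hp hpN hn hN hc (hne y hy) (hne y' hy')
    (by rw [add_sub_add_right_eq_sub]; exact hd) h1 (dvd_add h2 hpv) (dvd_add h3 hpv)
  have e3 := E_diff hp hpN hn hN hfa hℓ hNL hk hx hy
  have e4 := E_diff hp hpN hn hN hfa hℓ hNL hk hx hy'
  rw [← e1, ← e2, e3] at e4
  exact_mod_cast e4

end Pool.Agent.H47.SD
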