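import Mathlib
import Pool.Agent.H47.SD.F

set_option autoImplicit false

open Finset

namespace Pool.Agent.H47.SD

lemma card_class {p k i : ℕ} (hp : 0 < p) (hi1 : 1 ≤ i) (hip : i < p) :
    ((range k).filter (fun j => j + 1 ≡ i [MOD p])).card = k / p + if i ≤ k % p then 1 else 0 := by
  have h := Nat.count_modEq_card k hp (i - 1)
  rw [Nat.count_eq_card_filter_range, Nat.mod_eq_of_lt (show i - 1 < p by omega)] at h
  have e : ((range k).filter (fun j => j + 1 ≡ i [MOD p])) =
      ((range k).filter (fun j => j ≡ i - 1 [MOD p])) := by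
    apply Finset.filter_congr
    intro j _
    constructor
    · intro h1
      have h2 : j + 1 ≡ (i - 1) + 1 [MOD p] := by rwa [Nat.sub_add_cancel hi1]
      exact Nat.ModEq.add_right_cancel' 1 h2
    · intro h1
      have h2 := Nat.ModEq.add_right 1 h1
      rwa [Nat.sub_add_cancel hi1] at h2
  rw [e, h]
  congr 1
  by_cases h3 : i ≤ k % p
  · rw [if_pos h3, if_pos (by omega)]
  · rw [if_neg h3, if_neg (by omega)]

lemma card_mult {p ℓ k i : ℕ} (hℓ : 0 < ℓ) :
    ((range k).filter (fun j => j + 1 ≡ i [MOD p] ∧ ℓ ∣ j + 1)).card =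
      ((range (k / ℓ)).filter (fun j => ℓ * (j + 1) ≡ i [MOD p])).card := by
  symm
  refine Finset.card_bij (fun j _ => ℓ * (j + 1) - 1) ?_ ?_ ?_
  · intro j hj
    rw [Finset.mem_filter, Finset.mem_range] at hj
    have h1 : ℓ * (j + 1) ≤ k := by
      have := Nat.mul_le_mul_left ℓ (show j + 1 ≤ k / ℓ by omega)
      exact this.trans (Nat.mul_div_le k ℓ)
    have h2 : 0 < ℓ * (j + 1) := by positivity
    have h3 : ℓ * (j + 1) - 1 + 1 = ℓ * (j + 1) := by omega
    rw [Finset.mem_filter, Finset.mem_range, h3]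
    exact ⟨by omega, hj.2, dvd_mul_right _ _⟩
  · intro j _ j' _ h
    have h2 : 0 < ℓ * (j + 1) := by positivity
    have h3 : 0 < ℓ * (j' + 1) := by positivity
    have h4 : ℓ * (j + 1) = ℓ * (j' + 1) := by
      have h5 : ℓ * (j + 1) - 1 = ℓ * (j' + 1) - 1 := h
      omega
    have := Nat.eq_of_mul_eq_mul_left hℓ h4
    omega
  · intro i' hi'
    rw [Finset.mem_filter, Finset.mem_range] at hi'
    obtain ⟨h1, h2, c, hc⟩ := hi'
    have hc0 : 0 < c := by
      rcases Nat.eq_zero_or_pos c with h | h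
      · subst h; omega
      · exact h
    refine ⟨c - 1, ?_, ?_⟩
    · rw [Finset.mem_filter, Finset.mem_range, Nat.sub_add_cancel hc0, ← hc]
      refine ⟨?_, h2⟩
      have h5 : c ≤ k / ℓ := by
        rw [Nat.le_div_iff_mul_le hℓ, mul_comm, ← hc]; omega
      omega
    · show ℓ * (c - 1 + 1) - 1 = i'
      rw [Nat.sub_add_cancel hc0, ← hc]; omega

lemma perm {p r ρ c t : ℕ} (hr1 : 1 ≤ r) (hrp : r + 2 ≤ p) (hc1 : 1 ≤ c)
    (hcp : c < p) (ht1 : 1 ≤ t) (htp : t < p) (hct : (c * t) % p = 1)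
    (h : ∀ i, 1 ≤ i → i < p → (i ≤ r ↔ (c * i) % p ≤ ρ)) : t = 1 := by
  have hcρ : c ≤ ρ := by
    have := (h 1 le_rfl (by omega)).1 hr1
    rwa [mul_one, Nat.mod_eq_of_lt hcp] at this
  have hρ : ρ + c < p := by
    have h1 : ¬ ((c * (p - 1)) % p ≤ ρ) := by
      intro h2
      have := (h (p - 1) (by omega) (by omega)).2 h2
      omega
    have h2 : (c * (p - 1)) % p = p - c := by
      have h3 : c * (p - 1) = (p - c) + p * (c - 1) := by
        obtain ⟨c', rfl⟩ : ∃ c', c = c' + 1 := ⟨c - 1, by omega⟩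
        obtain ⟨d, rfl⟩ : ∃ d, p = c' + 1 + d := ⟨p - (c' + 1), by omega⟩
        rw [Nat.add_sub_cancel, Nat.add_sub_cancel_left,
          show c' + 1 + d - 1 = c' + d by omega]
        ring
      rw [h3, Nat.add_mul_mod_self_left, Nat.mod_eq_of_lt (by omega)]
    omega
  have key : ∀ i, 1 ≤ i → i ≤ r → c * i ≤ ρ := by
    intro i hi
    induction i, hi using Nat.le_induction with
    | base => intro _; rwa [mul_one]
    | succ i hi ih =>
      intro hir
      have h1 := ih (by omega)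
      have h2 : c * (i + 1) < p := by rw [mul_add, mul_one]; omega
      have h3 := (h (i + 1) (by omega) (by omega)).1 hir
      rwa [Nat.mod_eq_of_lt h2] at h3
  have htr : t ≤ r := (h t ht1 htp).2 (by rw [hct]; omega)
  have h4 := key t ht1 htr
  rw [Nat.mod_eq_of_lt (by omega)] at hct
  exact Nat.eq_one_of_mul_eq_one_left hct

/-- the exceptional family in the middle -/
lemma ib_false {n p N e : ℕ} [NeZero n] (hodd : Odd n) (hp : p.Prime) (hpN : ¬ p ∣ N)
    (hN : n = p ^ (e + 1) * N) {k : ℕ} (hk0 : ¬ p ∣ k) (hk1 : ¬ p ∣ k + 1) {x : ℤ}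
    (hc : Const n k x) (hx1 : (p : ℤ) ^ e ∣ x) (hx2 : ¬ (p : ℤ) ^ (e + 1) ∣ x) (hxN : (N : ℤ) ∣ x)
    (hN3 : 3 ≤ N) (hk2 : k < 2 * p ^ (e + 1)) : False := by
  have hp0 := hp.pos
  have hp2 : p ≠ 2 := by
    rintro rfl
    rw [← Nat.not_even_iff_odd] at hodd
    apply hodd
    rw [even_iff_two_dvd, hN, pow_succ]
    exact (dvd_mul_left _ _).trans (dvd_mul_right _ _)
  have hpodd : Odd p := hp.odd_of_ne_two hp2
  have hp3 : 3 ≤ p := by have := hp.two_le; omega
  have hNodd : Odd N := by rw [hN, Nat.odd_mul] at hodd; exact hodd.2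
  have hpz : (p : ℤ) ≠ 0 := by exact_mod_cast hp0.ne'
  have hpp : Prime (p : ℤ) := Nat.prime_iff_prime_int.1 hp
  obtain ⟨ℓ, hℓ, hℓN⟩ := Nat.exists_prime_and_dvd (show N ≠ 1 by omega)
  have hℓp : ℓ ≠ p := by rintro rfl; exact hpN hℓN
  have hℓodd : Odd ℓ := hNodd.of_dvd_nat hℓN
  have hℓ0 := hℓ.pos
  have hℓ3 : 3 ≤ ℓ := by
    have := hℓ.two_le
    rcases hℓodd with ⟨s, hs⟩
    omega
  have hpℓ : ¬ p ∣ ℓ := fun h => hℓp ((Nat.prime_dvd_prime_iff_eq hp hℓ).1 h).symm
  -- `x = g x₀`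
  set g : ℤ := (p : ℤ) ^ e * N with hg
  have hng : (n : ℤ) = p * g := by rw [hN, hg]; push_cast; ring
  have hN0z : (N : ℤ) ≠ 0 := by
    have : N ≠ 0 := by omega
    exact_mod_cast this
  have hg0 : g ≠ 0 := mul_ne_zero (pow_ne_zero _ hpz) hN0z
  have hcopN : IsCoprime ((p : ℤ) ^ e) (N : ℤ) := by
    apply IsCoprime.pow_left
    exact (Nat.isCoprime_iff_coprime.2 ((Nat.Prime.coprime_iff_not_dvd hp).2 hpN))
  obtain ⟨x₀, hx₀⟩ : g ∣ x := hcopN.mul_dvd hx1 hxN
  have hx₀p : ¬ (p : ℤ) ∣ x₀ := by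
    rintro ⟨s, hs⟩
    apply hx2
    rw [hx₀, hs, hg, pow_succ]
    exact ⟨N * s, by ring⟩
  -- for each class choose `c`
  have hcls : ∀ i : ℕ, ¬ p ∣ i → ∃ c : ℤ, (p : ℤ) ∣ x₀ - i * c ∧ ¬ (p : ℤ) ∣ c := by
    intro i hi
    obtain ⟨u, v, huv⟩ := Nat.isCoprime_iff_coprime.2 ((Nat.Prime.coprime_iff_not_dvd hp).2 hi)
    refine ⟨x₀ * v, ⟨x₀ * u, ?_⟩, ?_⟩
    · linear_combination -x₀ * huv
    · intro h
      apply hx₀p
      have h1 : x₀ = p * (x₀ * u) + i * (x₀ * v) := by linear_combination -x₀ * huv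
      rw [h1]
      exact dvd_add (dvd_mul_right _ _) (h.mul_left _)
  have hsol : ∀ (i : ℕ) (c : ℤ), (p : ℤ) ∣ x₀ - i * c → ¬ (p : ℤ) ∣ c →
      sol n ℓ k x (g * c) = (range k).filter (fun j => j + 1 ≡ i [MOD p] ∧ ¬ ℓ ∣ j + 1) := by
    intro i c h1 h2
    unfold sol
    apply Finset.filter_congr
    intro j _
    have h3 : ((n : ℤ) ∣ x - (j + 1) * (g * c)) ↔ j + 1 ≡ i [MOD p] := by
      rw [hx₀, hng, show g * x₀ - ((j : ℤ) + 1) * (g * c) = g * (x₀ - (j + 1) * c) by ring,
        mul_comm (p : ℤ) g, mul_dvd_mul_iff_left hg0]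
      have h4 : x₀ - ((j : ℤ) + 1) * c = (x₀ - i * c) + (i - (j + 1)) * c := by ring
      rw [h4, dvd_add_right h1, Nat.modEq_iff_dvd]
      push_cast
      constructor
      · intro h; exact (hpp.dvd_or_dvd h).resolve_right h2
      · intro h; exact h.mul_right _
    rw [h3]
  have hNg : ∀ c : ℤ, (N : ℤ) ∣ g * c := by
    intro c; rw [hg]; exact ⟨(p : ℤ) ^ e * c, by ring⟩
  have hng' : ∀ c : ℤ, ¬ (p : ℤ) ∣ c → ¬ (n : ℤ) ∣ g * c := by
    intro c hc h
    rw [hng, mul_comm (p : ℤ) g, mul_dvd_mul_iff_left hg0] at h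
    exact hc h
  -- the counting function
  have hA : ∀ i j : ℕ, ¬ p ∣ i → ¬ p ∣ j →
      ((range k).filter (fun t => t + 1 ≡ i [MOD p] ∧ ¬ ℓ ∣ t + 1)).card =
      ((range k).filter (fun t => t + 1 ≡ j [MOD p] ∧ ¬ ℓ ∣ t + 1)).card := by
    intro i j hi hj
    obtain ⟨c, hc1, hc2⟩ := hcls i hi
    obtain ⟨d, hd1, hd2⟩ := hcls j hj
    rw [← hsol i c hc1 hc2, ← hsol j d hd1 hd2]
    refine two_prime hp hpN hN le_rfl hℓ hℓN hc ?_ hxN (hNg c) (hNg d) (hng' c hc2) (hng' d hd2)
      hx1 ?_ ?_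
    · calc k ≤ 2 * p ^ (e + 1) := hk2.le
        _ ≤ ℓ * p ^ (e + 1) := Nat.mul_le_mul_right _ (by omega)
        _ = p ^ (e + 1) * ℓ := mul_comm _ _
    · rw [hg]; exact ⟨N * c, by ring⟩
    · rw [hg]; exact ⟨N * d, by ring⟩
  set r := k % p with hr
  have hr1 : 1 ≤ r := by
    rw [Nat.one_le_iff_ne_zero]
    intro h; exact hk0 (Nat.dvd_of_mod_eq_zero h)
  have hrlt : r < p := Nat.mod_lt _ hp0
  have hr2 : r + 2 ≤ p := by
    by_contra h
    have h1 : r = p - 1 := by omega
    apply hk1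
    have h2 := Nat.div_add_mod k p
    rw [← hr, h1] at h2
    exact ⟨k / p + 1, by rw [mul_add, mul_one]; omega⟩
  set ρ := (k / ℓ) % p with hρ
  -- inverse of `ℓ`
  set t := ℓ % p with ht
  have ht1 : 1 ≤ t := by
    rw [Nat.one_le_iff_ne_zero]
    intro h; exact hpℓ (Nat.dvd_of_mod_eq_zero h)
  have htlt : t < p := Nat.mod_lt _ hp0
  obtain ⟨c, hc1, hclt, hct⟩ : ∃ c, 1 ≤ c ∧ c < p ∧ (c * t) % p = 1 := by
    have hcop : Nat.Coprime t p := by
      rw [Nat.coprime_comm, Nat.Prime.coprime_iff_not_dvd hp]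
      intro h; have := Nat.le_of_dvd (by omega) h; omega
    obtain ⟨c, hc⟩ := Nat.exists_mul_mod_eq_one_of_coprime hcop (by omega)
    refine ⟨c % p, ?_, Nat.mod_lt _ hp0, ?_⟩
    · rw [Nat.one_le_iff_ne_zero]
      intro h
      have h1 : p ∣ c := Nat.dvd_of_mod_eq_zero h
      rw [Nat.mod_eq_zero_of_dvd (h1.mul_left _)] at hc
      omega
    · rw [Nat.mod_mul_mod, mul_comm]; exact hc.2
  have hcl : c * ℓ ≡ 1 [MOD p] := by
    have h1 : c * ℓ ≡ c * t [MOD p] := Nat.ModEq.mul_left c (Nat.mod_modEq ℓ p).symm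
    refine h1.trans ?_
    show (c * t) % p = 1 % p
    rw [hct, Nat.mod_eq_of_lt (by omega)]
  have hcount : ∀ i, 1 ≤ i → i < p →
      ((range k).filter (fun t => t + 1 ≡ i [MOD p] ∧ ¬ ℓ ∣ t + 1)).card +
        ((k / ℓ) / p + if (c * i) % p ≤ ρ then 1 else 0) = k / p + if i ≤ r then 1 else 0 := by
    intro i hi1 hip
    rw [← card_class hp0 hi1 hip]
    have hci1 : 1 ≤ (c * i) % p := by
      rw [Nat.one_le_iff_ne_zero]
      intro h
      rcases (Nat.Prime.dvd_mul hp).1 (Nat.dvd_of_mod_eq_zero h) with h1 | h1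
      · have := Nat.le_of_dvd (by omega) h1; omega
      · have := Nat.le_of_dvd (by omega) h1; omega
    have h1 := card_class (k := k / ℓ) hp0 hci1 (Nat.mod_lt _ hp0)
    rw [← hρ] at h1
    rw [← h1]
    have h2 : ((range (k / ℓ)).filter (fun j => j + 1 ≡ (c * i) % p [MOD p])).card =
        ((range k).filter (fun j => j + 1 ≡ i [MOD p] ∧ ℓ ∣ j + 1)).card := by
      rw [card_mult hℓ0]
      congr 1
      apply Finset.filter_congr
      intro j _
      have h3 : (c * i) % p ≡ c * i [MOD p] := Nat.mod_modEq _ _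
      constructor
      · intro h4
        have h5 : ℓ * (j + 1) ≡ ℓ * (c * i) [MOD p] := Nat.ModEq.mul_left ℓ (h4.trans h3)
        refine h5.trans ?_
        have h6 : c * ℓ * i ≡ 1 * i [MOD p] := Nat.ModEq.mul_right i hcl
        rw [one_mul] at h6
        rwa [show ℓ * (c * i) = c * ℓ * i by ring]
      · intro h4
        have h5 : c * (ℓ * (j + 1)) ≡ c * i [MOD p] := Nat.ModEq.mul_left c h4
        have h6 : c * ℓ * (j + 1) ≡ 1 * (j + 1) [MOD p] := Nat.ModEq.mul_right _ hcl
        rw [one_mul] at h6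
        rw [show c * (ℓ * (j + 1)) = c * ℓ * (j + 1) by ring] at h5
        exact h6.symm.trans (h5.trans h3.symm)
    rw [h2]
    have h3 := Finset.card_filter_add_card_filter_not
      (s := (range k).filter (fun j => j + 1 ≡ i [MOD p])) (fun j => ℓ ∣ j + 1)
    rw [Finset.filter_filter, Finset.filter_filter] at h3
    omega
  have hndvd : ∀ i, 1 ≤ i → i < p → ¬ p ∣ i := by
    intro i h1 h2 h3
    have := Nat.le_of_dvd (by omega) h3
    omega
  have hiff : ∀ i, 1 ≤ i → i < p → (i ≤ r ↔ (c * i) % p ≤ ρ) := by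
    have h1 := hcount 1 le_rfl (by omega)
    have h2 := hcount (p - 1) (by omega) (by omega)
    rw [hA (p - 1) 1 (hndvd _ (by omega) (by omega)) (hndvd _ (by omega) (by omega))] at h2
    rw [if_pos hr1] at h1
    rw [if_neg (by omega : ¬ (p - 1 ≤ r))] at h2
    intro i hi1 hip
    have h3 := hcount i hi1 hip
    rw [hA i 1 (hndvd i hi1 hip) (hndvd _ (by omega) (by omega))] at h3
    split_ifs at h1 h2 h3 with h4 h5 h6 h7 h8 h9 <;> constructor <;> intro h10 <;> omega
  have ht1' : t = 1 := perm hr1 hr2 hc1 hclt ht1 htlt hct hiff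
  have hc1' : c = 1 := by
    rw [ht1', mul_one, Nat.mod_eq_of_lt hclt] at hct
    exact hct
  have hℓbig : 2 * p + 1 ≤ ℓ := by
    have h1 := Nat.div_add_mod ℓ p
    rw [← ht, ht1'] at h1
    set s := ℓ / p with hs
    have hs0 : s ≠ 0 := by
      intro h; rw [h] at h1; omega
    have hs1 : s ≠ 1 := by
      intro h
      rw [h, mul_one] at h1
      have h2 : Even (p + 1) := hpodd.add_one
      rw [h1] at h2
      exact (Nat.not_even_iff_odd.2 hℓodd) h2
    have h2s : 2 ≤ s := (Nat.two_le_iff s).2 ⟨hs0, hs1⟩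
    have h3 : p * 2 ≤ p * s := Nat.mul_le_mul_left p h2s
    omega
  rcases Nat.eq_zero_or_pos e with he | he
  · subst he
    have h1 : k / ℓ = 0 := Nat.div_eq_of_lt (by rw [zero_add, pow_one] at hk2; omega)
    have h2 := (hiff 1 le_rfl (by omega)).1 hr1
    rw [hρ, h1, hc1', mul_one, Nat.zero_mod, Nat.mod_eq_of_lt (by omega)] at h2
    omega
  · -- compare with elements of order `p ^ 2`
    obtain ⟨e', rfl⟩ : ∃ e', e = e' + 1 := ⟨e - 1, by omega⟩
    -- a power of two in `(k / 2, k]`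
    have hk1' : 1 ≤ k := by
      rw [Nat.one_le_iff_ne_zero]; rintro rfl; exact hk0 (dvd_zero _)
    obtain ⟨s, hs1, hs2⟩ : ∃ s, 2 ^ s ≤ k ∧ k < 2 ^ (s + 1) :=
      ⟨Nat.log 2 k, Nat.pow_log_le_self 2 (by omega), Nat.lt_pow_succ_log_self (by norm_num) k⟩
    have hps : ¬ p ∣ 2 ^ s := by
      intro h
      have := hp.dvd_of_dvd_pow h
      exact hp2 ((Nat.prime_dvd_prime_iff_eq hp Nat.prime_two).1 this)
    have hℓs : ¬ ℓ ∣ 2 ^ s := by
      intro h
      have h1 := hℓ.dvd_of_dvd_pow h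
      have := (Nat.prime_dvd_prime_iff_eq hℓ Nat.prime_two).1 h1
      omega
    obtain ⟨d, hd1, hd2⟩ := hcls (2 ^ s) hps
    set g' : ℤ := (p : ℤ) ^ e' * N with hg'
    have hgg : g = p * g' := by rw [hg, hg', pow_succ]; ring
    have hg'0 : g' ≠ 0 := by
      rintro h; rw [h, mul_zero] at hgg; exact hg0 hgg
    have hn2 : ¬ (n : ℤ) ∣ g' * d := by
      intro h
      rw [hng, hgg, show (p : ℤ) * (p * g') = g' * (p * p) by ring,
        mul_dvd_mul_iff_left hg'0] at h
      exact hd2 ((dvd_mul_right _ _).trans h)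
    have h5 := two_prime (f := e') hp hpN hN (by omega) hℓ hℓN hc (k := k) (y := g * d)
      (y' := g' * d) ?_ hxN (hNg d) ⟨(p : ℤ) ^ e' * d, by rw [hg']; ring⟩ (hng' d hd2) hn2
      ((pow_dvd_pow _ (Nat.le_succ e')).trans hx1) ?_ ?_
    · -- strict inclusion
      have hmap : (sol n ℓ k x (g' * d)).card <
          (sol n ℓ k x (g * d)).card := by
        have hmem : ∀ j ∈ sol n ℓ k x (g' * d), ∃ i, j + 1 = p * (i + 1) ∧
            (n : ℤ) ∣ x - (i + 1) * (g * d) ∧ ¬ ℓ ∣ i + 1 := by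
          intro j hj
          unfold sol at hj
          rw [Finset.mem_filter, Finset.mem_range] at hj
          obtain ⟨hj1, hj2, hj3⟩ := hj
          have h6 : x - ((j : ℤ) + 1) * (g' * d) = g' * (p * x₀ - (j + 1) * d) := by
            rw [hx₀, hgg]; ring
          rw [h6, hng, hgg, show (p : ℤ) * (p * g') = g' * (p * p) by ring,
            mul_dvd_mul_iff_left hg'0] at hj2
          have h7 : (p : ℤ) ∣ (j + 1) * d := by
            have h8 : (p : ℤ) ∣ p * x₀ - (j + 1) * d := (dvd_mul_right _ _).trans hj2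
            exact (dvd_sub_right (dvd_mul_right _ _)).1 h8
          have h9 : (p : ℤ) ∣ ((j + 1 : ℕ) : ℤ) := by
            push_cast
            exact (hpp.dvd_or_dvd h7).resolve_right hd2
          obtain ⟨i, hi⟩ : p ∣ j + 1 := by exact_mod_cast h9
          have hi0 : 0 < i := by
            rcases Nat.eq_zero_or_pos i with h | h
            · subst h; omega
            · exact h
          have hji : ((j : ℤ) + 1) = p * i := by exact_mod_cast hi
          refine ⟨i - 1, by rw [Nat.sub_add_cancel hi0]; exact hi, ?_, ?_⟩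
          · have h10 : (((i - 1 : ℕ) : ℤ) + 1) = i := by push_cast [Nat.cast_sub hi0]; ring
            rw [h10, hx₀, hng, show g * x₀ - (i : ℤ) * (g * d) = g * (x₀ - i * d) by ring,
              mul_comm (p : ℤ) g, mul_dvd_mul_iff_left hg0]
            rw [hji, show (p : ℤ) * x₀ - p * i * d = p * (x₀ - i * d) by ring,
              mul_dvd_mul_iff_left hpz] at hj2
            exact hj2
          · rw [Nat.sub_add_cancel hi0]
            intro h
            exact hj3 (by rw [hi]; exact h.mul_left _)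
        have hsub : (sol n ℓ k x (g' * d)).image (fun j => (j + 1) / p - 1) ⊂
            sol n ℓ k x (g * d) := by
          rw [Finset.ssubset_iff_of_subset]
          · refine ⟨2 ^ s - 1, ?_, ?_⟩
            · have h2s : 0 < 2 ^ s := by positivity
              unfold sol
              rw [Finset.mem_filter, Finset.mem_range, Nat.sub_add_cancel h2s]
              refine ⟨by omega, ?_, hℓs⟩
              have h10 : (((2 ^ s - 1 : ℕ) : ℤ) + 1) = (2 ^ s : ℕ) := by
                push_cast [Nat.cast_sub h2s]; ring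
              rw [h10, hx₀, hng, show g * x₀ - ((2 ^ s : ℕ) : ℤ) * (g * d) =
                g * (x₀ - ((2 ^ s : ℕ) : ℤ) * d) by ring,
                mul_comm (p : ℤ) g, mul_dvd_mul_iff_left hg0]
              exact hd1
            · intro h
              rw [Finset.mem_image] at h
              obtain ⟨j, hj, hj2⟩ := h
              obtain ⟨i, hi, _⟩ := hmem j hj
              have hjk : j < k := by
                unfold sol at hj; rw [Finset.mem_filter, Finset.mem_range] at hj; exact hj.1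
              rw [hi, Nat.mul_div_cancel_left _ hp0, Nat.add_sub_cancel] at hj2
              have h2s : 0 < 2 ^ s := by positivity
              have h11 : i + 1 = 2 ^ s := by omega
              rw [h11] at hi
              have h12 : 2 * 2 ^ s ≤ p * 2 ^ s := Nat.mul_le_mul_right _ (by omega)
              rw [pow_succ] at hs2
              omega
          · intro i' hi'
            rw [Finset.mem_image] at hi'
            obtain ⟨j, hj, rfl⟩ := hi'
            obtain ⟨i, hi, hi2, hi3⟩ := hmem j hj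
            have hjk : j < k := by
              unfold sol at hj; rw [Finset.mem_filter, Finset.mem_range] at hj; exact hj.1
            rw [hi, Nat.mul_div_cancel_left _ hp0, Nat.add_sub_cancel]
            unfold sol
            rw [Finset.mem_filter, Finset.mem_range]
            refine ⟨?_, hi2, hi3⟩
            nlinarith
        calc (sol n ℓ k x (g' * d)).card
            = ((sol n ℓ k x (g' * d)).image (fun j => (j + 1) / p - 1)).card := by
              rw [Finset.card_image_of_injOn]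
              intro j hj j' hj' h
              obtain ⟨i, hi, _⟩ := hmem j hj
              obtain ⟨i', hi', _⟩ := hmem j' hj'
              have h6 : (j + 1) / p - 1 = (j' + 1) / p - 1 := h
              rw [hi, hi', Nat.mul_div_cancel_left _ hp0, Nat.mul_div_cancel_left _ hp0,
                Nat.add_sub_cancel, Nat.add_sub_cancel] at h6
              rw [h6] at hi
              omega
          _ < _ := Finset.card_lt_card hsub
      omega
    · calc k ≤ 2 * p ^ (e' + 1 + 1) := hk2.le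
        _ = p ^ (e' + 1) * (2 * p) := by rw [pow_succ p (e' + 1)]; ring
        _ ≤ p ^ (e' + 1) * ℓ := Nat.mul_le_mul_left _ (by omega)
    · rw [hg]; exact ((pow_dvd_pow _ (Nat.le_succ e')).trans (dvd_mul_right _ _)).trans (dvd_mul_right _ _)
    · rw [hg']; exact (dvd_mul_right _ _).trans (dvd_mul_right _ _)

end Pool.Agent.H47.SD
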