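import Mathlib
import Pool.Agent.H47.SD.G

set_option autoImplicit false

open Finset

namespace Pool.Agent.H47.SD

lemma cnt_one {n : ℕ} (V : Finset (ZMod n)) (z : ZMod n) : cnt V 1 z = if z ∈ V then 1 else 0 := by
  classical
  unfold cnt
  rw [Finset.powersetCard_one]
  by_cases h : z ∈ V
  · rw [if_pos h, Finset.card_eq_one]
    refine ⟨{z}, ?_⟩
    ext A
    simp only [Finset.mem_filter, Finset.mem_map, Finset.mem_singleton,
      Function.Embedding.coeFn_mk]
    constructor
    · rintro ⟨⟨a, _, rfl⟩, h2⟩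
      simp at h2
      rw [h2]
    · rintro rfl
      exact ⟨⟨z, h, rfl⟩, by simp⟩
  · rw [if_neg h, Finset.card_eq_zero, Finset.filter_eq_empty_iff]
    intro A hA h2
    rw [Finset.mem_map] at hA
    obtain ⟨a, ha, rfl⟩ := hA
    simp at h2
    rw [h2] at ha
    exact h ha

lemma b_one {n : ℕ} [NeZero n] (z : ZMod n) : b n 1 z = if z = 0 then 0 else 1 := by
  unfold b
  rw [cnt_one]
  by_cases h : z = 0
  · rw [if_pos h, if_neg]; rw [Finset.mem_erase]; exact fun h2 => h2.1 h
  · rw [if_neg h, if_pos]; rw [Finset.mem_erase]; exact ⟨h, Finset.mem_univ _⟩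

theorem mid_false {n p N a e : ℕ} [NeZero n] (hodd : Odd n) (hp : p.Prime) (hpN : ¬ p ∣ N)
    (hN : n = p ^ a * N) (hea : e < a) {k : ℕ} (hk0 : ¬ p ∣ k) (hk1 : ¬ p ∣ k + 1)
    (hkn : 2 * k + 1 ≤ n) {x : ℤ} (hc : Const n k x) (hx1 : (p : ℤ) ^ e ∣ x)
    (hx2 : ¬ (p : ℤ) ^ (e + 1) ∣ x) : False := by
  have hp0 := hp.pos
  have hn0 : n ≠ 0 := NeZero.ne n
  have hN0 : N ≠ 0 := by rintro rfl; rw [mul_zero] at hN; exact hn0 hN
  set P := p ^ (e + 1) with hP
  have hP0 : 0 < P := pow_pos hp0 _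
  have hPz : (P : ℤ) ≠ 0 := by exact_mod_cast hP0.ne'
  set M := p ^ (a - (e + 1)) * N with hM
  have hM0 : M ≠ 0 := by positivity
  have : NeZero M := ⟨hM0⟩
  have hn : n = P * M := by
    rw [hN, hM, hP, ← mul_assoc, ← pow_add]; congr 2; omega
  have hPx : ¬ (P : ℤ) ∣ x := by rw [hP]; push_cast; exact hx2
  have hModd : Odd M := by rw [hn, Nat.odd_mul] at hodd; exact hodd.2
  have hx0 : (x : ZMod n) ≠ 0 := by
    rw [intCast_ne_zero]
    intro h
    apply hPx
    rw [hn] at h; push_cast at h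
    exact (dvd_mul_right _ _).trans h
  have hk1' : 1 ≤ k := by
    rw [Nat.one_le_iff_ne_zero]; rintro rfl; exact hk0 (dvd_zero _)
  set K := k / P with hK
  have hPK : P * K ≤ k := Nat.mul_div_le k P
  have hKM : 2 * K + 1 ≤ M := by
    by_contra hlt
    push Not at hlt
    have h1 : M ≤ 2 * K := by omega
    have h2 : P * M ≤ P * (2 * K) := Nat.mul_le_mul_left _ h1
    rw [← hn] at h2
    have h3 : P * (2 * K) = 2 * (P * K) := by ring
    omega
  have key : ∀ ξ : ℤ, (N : ℤ) ∣ P * ξ - x → b M K (ξ : ZMod M) = 0 := by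
    intro ξ hξ
    have hPd : (p : ℤ) ^ (e + 1) ∣ P * ξ := by
      rw [hP]; push_cast; exact dvd_mul_right _ _
    have h1 := mid hp hpN hN hea hk0 hk1 hc hx1 hx2 hPd hξ
    have h2 := redf hp hpN e hn hN k hξ ((pow_dvd_pow _ (Nat.le_succ e)).trans hPd) hx1
    rw [h1, sub_self, ← hP, ← hK, dl_of_not_dvd _ hPx, dl_mul hP0, sub_zero] at h2
    have h3 : ((-1 : ℤ)) ^ (k + K) ≠ 0 := pow_ne_zero _ (by norm_num)
    have h4 := (mul_eq_zero.1 h2.symm).resolve_left h3
    exact_mod_cast h4
  have hcop : Nat.Coprime P N := Nat.Coprime.pow_left _ ((Nat.Prime.coprime_iff_not_dvd hp).2 hpN)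
  obtain ⟨ξ, hξ⟩ : ∃ ξ : ℤ, (N : ℤ) ∣ P * ξ - x := by
    obtain ⟨y, h1, h2⟩ := crt hcop 0 x
    rw [sub_zero] at h1
    obtain ⟨ξ, rfl⟩ := h1
    exact ⟨ξ, h2⟩
  rcases Nat.lt_or_ge K 2 with hK2 | hK2
  swap
  · -- `K ≥ 2`
    have h1 := EL_odd hModd (univ.erase (0 : ZMod M)) (K := K) (by rw [card_V0]; omega) hK2
      (by rw [card_V0]; omega) (ξ : ZMod M)
    have h2 := key ξ hξ
    unfold b at h2
    omega
  · rcases Nat.eq_zero_or_pos K with hK0 | hK0
    · -- `K = 0`
      by_cases hNx : (N : ℤ) ∣ x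
      · have h1 := key 0 (by rw [mul_zero, zero_sub]; exact (dvd_neg).2 hNx)
        rw [hK0, b_zero, if_pos (by push_cast; rfl)] at h1
        exact one_ne_zero h1
      · have hkP : k < P := by
          by_contra hlt
          push Not at hlt
          have := (Nat.le_div_iff_mul_le hP0).2 (by rwa [one_mul] : 1 * P ≤ k)
          omega
        have hcop' : Nat.Coprime (p ^ a) N :=
          Nat.Coprime.pow_left _ ((Nat.Prime.coprime_iff_not_dvd hp).2 hpN)
        obtain ⟨y', h1, h2⟩ := crt hcop' 0 x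
        rw [sub_zero] at h1
        push_cast at h1
        have h3 : ¬ (N : ℤ) ∣ y' := by
          intro h
          apply hNx
          have := dvd_sub h h2
          rwa [sub_sub_cancel] at this
        have h4 : (y' : ZMod n) ≠ 0 := by
          rw [intCast_ne_zero]
          intro h
          apply h3
          rw [hN] at h; push_cast at h
          exact (dvd_mul_left _ _).trans h
        refine small hp hpN hn hN hc hk1' hkP.le hx0 h4 ?_ hx1 ?_ ?_
        · rw [← neg_sub]; exact (dvd_neg).2 h2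
        · exact (pow_dvd_pow _ hea.le).trans h1
        · intro i _ _ h
          apply hx2
          have h5 : (p : ℤ) ^ (e + 1) ∣ x - i * y' := by
            rw [hn, hP] at h; push_cast at h
            exact (dvd_mul_right _ _).trans h
          have h6 : (p : ℤ) ^ (e + 1) ∣ i * y' := ((pow_dvd_pow _ hea).trans h1).mul_left _
          have := dvd_add h5 h6
          rwa [sub_add_cancel] at this
    · -- `K = 1`
      have hK1 : K = 1 := by omega
      have h1 : ∀ ξ : ℤ, (N : ℤ) ∣ P * ξ - x → (M : ℤ) ∣ ξ := by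
        intro ξ hξ
        have h2 := key ξ hξ
        rw [hK1, b_one] at h2
        by_contra h3
        rw [if_neg (intCast_ne_zero.2 h3)] at h2
        exact one_ne_zero h2
      have h2 := h1 ξ hξ
      have h3 := h1 (ξ + N) (by
        rw [mul_add, add_sub_right_comm]
        exact dvd_add hξ (dvd_mul_left _ _))
      have h4 : (M : ℤ) ∣ N := (dvd_add_right h2).1 h3
      have h5 : M ∣ N := by exact_mod_cast h4
      have h6 : M = N := Nat.dvd_antisymm h5 (by rw [hM]; exact dvd_mul_left _ _)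
      have hNx : (N : ℤ) ∣ x := by
        rw [h6] at h2
        have h7 : (N : ℤ) ∣ P * ξ := h2.mul_left _
        have := dvd_sub h7 hξ
        rwa [sub_sub_cancel] at this
      have hk2 : k < 2 * P := by
        have := Nat.lt_mul_div_succ k hP0
        rw [← hK, hK1] at this
        omega
      refine ib_false hodd hp hpN (by rw [hn, h6]) hk0 hk1 hc hx1 hx2 hNx ?_ hk2
      omega

end Pool.Agent.H47.SD
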