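import Mathlib
import Pool.Agent.H47.SD.H

set_option autoImplicit false

open Finset

namespace Pool.Agent.H47.SD

lemma inv_mod {p i : ℕ} (hp : p.Prime) (h : ¬ p ∣ i) (x : ℤ) : ∃ r : ℤ, (p : ℤ) ∣ x - i * r := by
  obtain ⟨u, v, huv⟩ := Nat.isCoprime_iff_coprime.2 ((Nat.Prime.coprime_iff_not_dvd hp).2 h)
  exact ⟨x * v, x * u, by linear_combination -x * huv⟩

lemma caseB {n m p N a : ℕ} [NeZero n] [NeZero m] (hp : p.Prime) (hpN : ¬ p ∣ N) (hn : n = p * m)
    (hN : n = p ^ a * N) {k i : ℕ} {x y z : ℤ} (hi1 : 1 ≤ i) (hip : i < p)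
    (hik : i ≤ k) (hc : Const n k x) (hx : x = i * y + p * z) (hy : ¬ (p : ℤ) ∣ y)
    (hy2 : (N : ℤ) ∣ y → 2 ≤ a) :
    T m ((k - i) / p) (z : ZMod m) (y : ZMod m) = 0 := by
  have hp0 := hp.pos
  have hn0 : n ≠ 0 := NeZero.ne n
  have hN0 : N ≠ 0 := by rintro rfl; rw [mul_zero] at hN; exact hn0 hN
  have ha : a ≠ 0 := by
    rintro rfl
    rw [pow_zero, one_mul] at hN
    exact hpN (by rw [← hN, hn]; exact dvd_mul_right _ _)
  subst hx
  by_cases h : (N : ℤ) ∣ y
  · have ha2 := hy2 h
    refine caseI hp hn hN hi1 hip hik hc hy (y' := p * N) (dvd_mul_right _ _) ?_ ?_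
    · rw [intCast_ne_zero]
      intro h2
      have h3 : n ∣ p * N := by exact_mod_cast h2
      have h4 := Nat.le_of_dvd (by positivity) h3
      rw [hN] at h4
      have h5 : p ^ a ≤ p := Nat.le_of_mul_le_mul_right h4 (by omega)
      have h6 : p ^ 2 ≤ p ^ a := Nat.pow_le_pow_right hp0 ha2
      have := hp.two_le
      nlinarith
    · exact dvd_sub h (dvd_mul_left _ _)
  · have hcop' : Nat.Coprime (p ^ a) N :=
      Nat.Coprime.pow_left _ ((Nat.Prime.coprime_iff_not_dvd hp).2 hpN)
    obtain ⟨y', h1, h2⟩ := crt hcop' 0 y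
    rw [sub_zero] at h1
    push_cast at h1
    have h3 : ¬ (N : ℤ) ∣ y' := by
      intro h'
      apply h
      have := dvd_sub h' h2
      rwa [sub_sub_cancel] at this
    refine caseI hp hn hN hi1 hip hik hc hy (y' := y') ((dvd_pow_self _ ha).trans h1) ?_ ?_
    · rw [intCast_ne_zero]
      intro h'
      apply h3
      rw [hN] at h'; push_cast at h'
      exact (dvd_mul_left _ _).trans h'
    · rw [← neg_sub]; exact (dvd_neg).2 h2

/-- case `p ∥ n` -/
lemma caseB1 {n m p : ℕ} [NeZero n] [NeZero m] (hp : p.Prime) (hpm : ¬ p ∣ m) (hn : n = p * m)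
    {k i : ℕ} {x : ℤ} (hi1 : 1 ≤ i) (hip : i < p) (hik : i ≤ k) (hc : Const n k x)
    (hx : ¬ (p : ℤ) ∣ x) {s : ℤ} (hs : ¬ (m : ℤ) ∣ s) :
    ∃ z : ℤ, (m : ℤ) ∣ p * z - (x - i * s) ∧ T m ((k - i) / p) (z : ZMod m) (s : ZMod m) = 0 := by
  have hpi : ¬ p ∣ i := fun h => by have := Nat.le_of_dvd (by omega) h; omega
  obtain ⟨r, hr⟩ := inv_mod hp hpi x
  obtain ⟨y, hy1, hy2⟩ := crt ((Nat.Prime.coprime_iff_not_dvd hp).2 hpm) r s
  have hpz : (p : ℤ) ∣ x - i * y := by
    have h1 : x - i * y = (x - i * r) - i * (y - r) := by ring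
    rw [h1]
    exact dvd_sub hr (hy1.mul_left _)
  obtain ⟨z, hz⟩ := hpz
  have hpy : ¬ (p : ℤ) ∣ y := by
    intro h
    apply hx
    have h1 : x = (x - i * y) + i * y := by ring
    rw [h1, hz]
    exact dvd_add (dvd_mul_right _ _) (h.mul_left _)
  have hmy : ¬ (m : ℤ) ∣ y := by
    intro h
    apply hs
    have := dvd_sub h hy2
    rwa [sub_sub_cancel] at this
  refine ⟨z, ?_, ?_⟩
  · rw [← hz]
    have h1 : x - i * y - (x - i * s) = - (i * (y - s)) := by ring
    rw [h1]
    exact (dvd_neg).2 (hy2.mul_left _)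
  · have h1 := caseB (a := 1) hp hpm hn (by rw [pow_one]; exact hn) hi1 hip hik hc
      (show x = i * y + p * z by linear_combination hz) hpy (fun h => absurd h hmy)
    have h2 : (y : ZMod m) = (s : ZMod m) := by
      rw [← sub_eq_zero, ← Int.cast_sub, ZMod.intCast_zmod_eq_zero_iff_dvd]; exact hy2
    rwa [h2] at h1

lemma T_zero' {m : ℕ} [NeZero m] (z w : ZMod m) : T m 0 z w = if z = 0 then 1 else 0 := by
  rw [T, b_zero]; push_cast; rfl

lemma T_one {m : ℕ} [NeZero m] {z w : ZMod m} (hw : w ≠ 0) (h : T m 1 z w = 0) : z = 0 ∨ z = w := by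
  rw [T_eq_cnt hw, cnt_one] at h
  by_contra hcon
  push Not at hcon
  rw [if_pos (mem_V1.2 ⟨hcon.2, hcon.1⟩)] at h
  exact absurd h (by norm_num)

lemma T_pos {m : ℕ} [NeZero m] (hm : Odd m) {w : ZMod m} (hw : w ≠ 0) {K : ℕ} (hK : 2 ≤ K)
    (hK2 : K + 4 ≤ m) (z : ZMod m) : T m K z w ≠ 0 := by
  rw [T_eq_cnt hw]
  have := EL_odd hm (V1 w) (by rw [card_V1 hw]; omega) hK (by rw [card_V1 hw]; omega) z
  omega

theorem caseB_false {n m p N a : ℕ} [NeZero n] [NeZero m] (hodd : Odd n) (hp : p.Prime)
    (hpN : ¬ p ∣ N) (hn : n = p * m) (hN : n = p ^ a * N) {k K : ℕ}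
    (hk : k = p * (K + 1) ∨ k + 1 = p * (K + 1)) (hkn : 2 * k + 1 ≤ n) {x : ℤ}
    (hc : Const n k x) (hx : ¬ (p : ℤ) ∣ x) : False := by
  have hp0 := hp.pos
  have hn0 : n ≠ 0 := NeZero.ne n
  have hN0 : N ≠ 0 := by rintro rfl; rw [mul_zero] at hN; exact hn0 hN
  have hpz : (p : ℤ) ≠ 0 := by exact_mod_cast hp0.ne'
  have hpp : Prime (p : ℤ) := Nat.prime_iff_prime_int.1 hp
  have hoddp : Odd p ∧ Odd m := by rw [hn, Nat.odd_mul] at hodd; exact hodd
  obtain ⟨hpodd, hmodd⟩ := hoddp
  have hp3 : 3 ≤ p := by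
    have := hp.two_le
    rcases hpodd with ⟨s, hs⟩; omega
  have hKm : 2 * K + 3 ≤ m := by
    have h1 : 2 * (K + 1) ≤ m := by
      by_contra hlt
      push Not at hlt
      have h2 : p * (m + 1) ≤ p * (2 * (K + 1)) := Nat.mul_le_mul_left p hlt
      have h3 : p * (2 * (K + 1)) = 2 * (p * (K + 1)) := by ring
      rw [mul_add, mul_one, ← hn] at h2
      rcases hk with hk | hk <;> omega
    rcases hmodd with ⟨s, hs⟩; omega
  have hpK : p ≤ p * (K + 1) := Nat.le_mul_of_pos_right p (by omega)
  have hdiv : ∀ i, 1 ≤ i → i < p → i ≤ k ∧ (k - i) / p = K := by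
    intro i hi1 hip
    rcases hk with hk | hk
    · refine ⟨by omega, ?_⟩
      have h1 : k - i = (p - i) + p * K := by rw [hk, mul_add, mul_one]; omega
      rw [h1, Nat.add_mul_div_left _ _ hp0, Nat.div_eq_of_lt (by omega), zero_add]
    · refine ⟨by omega, ?_⟩
      have h1 : k - i = (p - 1 - i) + p * K := by rw [mul_add, mul_one] at hk; omega
      rw [h1, Nat.add_mul_div_left _ _ hp0, Nat.div_eq_of_lt (by omega), zero_add]
  have ha0 : a ≠ 0 := by
    rintro rfl
    rw [pow_zero, one_mul] at hN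
    exact hpN (by rw [← hN, hn]; exact dvd_mul_right _ _)
  rcases Nat.lt_or_ge a 2 with ha | ha
  · -- `a = 1`
    have ha1 : a = 1 := by omega
    subst ha1
    have hNm : N = m := by
      rw [pow_one, hn] at hN
      exact (Nat.eq_of_mul_eq_mul_left hp0 hN).symm
    subst hNm
    have hcopz : IsCoprime (N : ℤ) (p : ℤ) :=
      Nat.isCoprime_iff_coprime.2 ((Nat.Prime.coprime_iff_not_dvd hp).2 hpN).symm
    have hone : ¬ (N : ℤ) ∣ 1 := by
      intro h
      have h2 : N ∣ 1 := by exact_mod_cast h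
      have := Nat.le_of_dvd one_pos h2; omega
    have htwo : ∀ t : ℤ, (N : ℤ) ∣ 2 * t → (N : ℤ) ∣ t := by
      intro t h
      have h2 : IsCoprime (N : ℤ) (2 : ℤ) := by
        have := Nat.isCoprime_iff_coprime.2 (Nat.coprime_two_right.2 hmodd)
        exact_mod_cast this
      exact h2.dvd_of_dvd_mul_left h
    rcases Nat.lt_or_ge K 2 with hK2 | hK2
    swap
    · obtain ⟨z, _, hT⟩ := caseB1 hp hpN hn le_rfl (by omega) (hdiv 1 le_rfl (by omega)).1 hc hx
        hone
      rw [(hdiv 1 le_rfl (by omega)).2] at hT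
      exact T_pos hmodd (intCast_ne_zero.2 hone) hK2 (by omega) _ hT
    rcases Nat.eq_zero_or_pos K with hK0 | hK0
    · -- `K = 0`
      have hno : ∀ i : ℕ, 1 ≤ i → i < p → ∀ s : ℤ, ¬ (N : ℤ) ∣ s → ¬ (N : ℤ) ∣ x - i * s := by
        intro i hi1 hip s hs hcon
        obtain ⟨z, hz, hT⟩ := caseB1 hp hpN hn hi1 hip (hdiv i hi1 hip).1 hc hx hs
        rw [(hdiv i hi1 hip).2, hK0, T_zero', if_pos] at hT
        · exact one_ne_zero hT
        · rw [ZMod.intCast_zmod_eq_zero_iff_dvd]
          have h1 : (N : ℤ) ∣ p * z := by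
            have := dvd_add hz hcon
            rwa [sub_add_cancel] at this
          exact hcopz.dvd_of_dvd_mul_left h1
      have hNx : (N : ℤ) ∣ x := by
        by_contra h
        exact hno 1 le_rfl (by omega) x h (by simp)
      obtain ⟨ℓ, hℓ, hℓN⟩ := Nat.exists_prime_and_dvd (show N ≠ 1 by omega)
      obtain ⟨L, hL⟩ := hℓN
      have hℓ0 := hℓ.pos
      rcases Nat.lt_or_ge ℓ p with hℓp | hℓp
      · refine hno ℓ hℓ.one_le hℓp L ?_ ?_
        · intro h
          have h1 : N ∣ L := by exact_mod_cast h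
          have hL0 : 0 < L := by
            rcases Nat.eq_zero_or_pos L with h | h
            · subst h; omega
            · exact h
          have h2 := Nat.le_of_dvd hL0 h1
          have := hℓ.two_le
          rw [hL] at h2
          nlinarith
        · refine dvd_sub hNx ?_
          rw [hL]; push_cast; exact dvd_rfl
      · -- large prime
        have hℓp' : p < ℓ := by
          rcases Nat.eq_or_lt_of_le hℓp with h | h
          · exact absurd (by rw [hL, h]; exact dvd_mul_right _ _) hpN
          · exact h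
        obtain ⟨α, N', hN', hn'⟩ := Nat.exists_eq_pow_mul_and_not_dvd hn0 ℓ hℓ.ne_one
        have hℓn : ℓ ∣ n := by rw [hn, hL]; exact (dvd_mul_right _ _).mul_left _
        have hα : α ≠ 0 := by
          rintro rfl
          rw [pow_zero, one_mul] at hn'
          exact hN' (by rw [← hn']; exact hℓn)
        obtain ⟨M, hM⟩ := hℓn
        have hM0 : M ≠ 0 := by rintro rfl; rw [mul_zero] at hM; exact hn0 hM
        have : NeZero M := ⟨hM0⟩
        have hcop' : Nat.Coprime (ℓ ^ α) N' :=
          Nat.Coprime.pow_left _ ((Nat.Prime.coprime_iff_not_dvd hℓ).2 hN')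
        obtain ⟨y', h1, h2⟩ := crt hcop' ((ℓ : ℤ) ^ (α - 1)) x
        push_cast at h1
        have hℓz : (ℓ : ℤ) ≠ 0 := by exact_mod_cast hℓ0.ne'
        have hℓx : (ℓ : ℤ) ^ α ∣ x := by
          refine dvd_trans ?_ hNx
          have h3 : ℓ ^ α ∣ p * N := by rw [← hn, hn']; exact dvd_mul_right _ _
          have h4 : Nat.Coprime (ℓ ^ α) p :=
            Nat.Coprime.pow_left _ ((Nat.coprime_primes hℓ hp).2 hℓp'.ne')
          have := h4.dvd_of_dvd_mul_left h3
          exact_mod_cast this
        have hkey : ∀ i : ℤ, (ℓ : ℤ) ^ α ∣ i * y' → (ℓ : ℤ) ∣ i := by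
          intro i hi
          have h3 : (ℓ : ℤ) ^ α ∣ i * (ℓ : ℤ) ^ (α - 1) := by
            have h4 := dvd_sub hi (h1.mul_left i)
            rwa [show i * y' - i * (y' - (ℓ : ℤ) ^ (α - 1)) = i * (ℓ : ℤ) ^ (α - 1) by ring] at h4
          have h5 : (ℓ : ℤ) ^ α = ℓ * (ℓ : ℤ) ^ (α - 1) := by
            rw [← pow_succ']; congr 1; omega
          rw [h5] at h3
          exact (mul_dvd_mul_iff_right (pow_ne_zero _ hℓz)).1 h3
        have hndvd : ∀ j : ℤ, (n : ℤ) ∣ j → (ℓ : ℤ) ^ α ∣ j := by
          intro j hj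
          refine dvd_trans ?_ hj
          rw [hn']; push_cast; exact dvd_mul_right _ _
        refine small hℓ hN' (f := 0) (M := M) (by rw [zero_add, pow_one]; exact hM) hn' hc ?_ ?_ ?_ ?_ ?_
          (by rw [pow_zero]; exact one_dvd _) (by rw [pow_zero]; exact one_dvd _) ?_ (y' := y')
        · have := (hdiv 1 le_rfl (by omega)).1; exact this
        · rw [zero_add, pow_one]
          rw [hK0, zero_add, mul_one] at hk
          rcases hk with hk | hk <;> omega
        · rw [intCast_ne_zero]
          intro h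
          apply hx
          rw [hn] at h; push_cast at h
          exact (dvd_mul_right _ _).trans h
        · rw [intCast_ne_zero]
          intro h
          have h3 := hkey 1 (by rw [one_mul]; exact hndvd _ h)
          have h4 : ℓ ∣ 1 := by exact_mod_cast h3
          exact hℓ.one_lt.ne' (Nat.dvd_one.1 h4)
        · rw [← neg_sub]; exact (dvd_neg).2 h2
        · intro i hi1 hik h
          have h3 := hndvd _ h
          have h4 : (ℓ : ℤ) ^ α ∣ i * y' := by
            have := dvd_sub hℓx h3
            rwa [sub_sub_cancel] at this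
          have h5 := hkey i h4
          have h6 : ℓ ∣ i := by exact_mod_cast h5
          have h7 := Nat.le_of_dvd (by omega) h6
          rw [hK0, zero_add, mul_one] at hk
          rcases hk with hk | hk <;> omega
    · -- `K = 1`
      have hK1 : K = 1 := by omega
      have key : ∀ i : ℕ, 1 ≤ i → i < p → ∀ s : ℤ, ¬ (N : ℤ) ∣ s →
          (N : ℤ) ∣ x - i * s ∨ (N : ℤ) ∣ x - (i + p) * s := by
        intro i hi1 hip s hs
        obtain ⟨z, hz, hT⟩ := caseB1 hp hpN hn hi1 hip (hdiv i hi1 hip).1 hc hx hs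
        rw [(hdiv i hi1 hip).2, hK1] at hT
        rcases T_one (intCast_ne_zero.2 hs) hT with h | h
        · left
          rw [ZMod.intCast_zmod_eq_zero_iff_dvd] at h
          have := dvd_sub (h.mul_left (p : ℤ)) hz
          rwa [sub_sub_cancel] at this
        · right
          rw [← sub_eq_zero, ← Int.cast_sub, ZMod.intCast_zmod_eq_zero_iff_dvd] at h
          have := dvd_sub (h.mul_left (p : ℤ)) hz
          rwa [show (p : ℤ) * (z - s) - (p * z - (x - i * s)) = x - (i + p) * s by ring] at this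
      by_cases hNx : (N : ℤ) ∣ x
      · have h1 := key 1 le_rfl (by omega) 1 hone
        have h2 := key 2 (by norm_num) (by omega) 1 hone
        have h3 : (N : ℤ) ∣ 1 + p := by
          rcases h1 with h | h
          · exfalso
            have := dvd_sub hNx h
            rw [sub_sub_cancel] at this
            exact hone (by simpa using this)
          · have := dvd_sub hNx h
            rw [sub_sub_cancel] at this
            simpa using this
        have h4 : (N : ℤ) ∣ 2 + p := by
          rcases h2 with h | h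
          · exfalso
            have := dvd_sub hNx h
            rw [sub_sub_cancel] at this
            exact hone (htwo 1 (by simpa using this))
          · have := dvd_sub hNx h
            rw [sub_sub_cancel] at this
            simpa using this
        apply hone
        have := dvd_sub h4 h3
        rwa [show (2 : ℤ) + p - (1 + p) = 1 by ring] at this
      · have h1 := key 1 le_rfl (by omega) (-x) (by rwa [dvd_neg])
        have h2 := key 2 (by norm_num) (by omega) x hNx
        have h3 : (N : ℤ) ∣ (p + 2) * x := by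
          rcases h1 with h | h
          · exfalso
            apply hNx
            apply htwo
            rwa [show x - ((1 : ℕ) : ℤ) * -x = 2 * x by push_cast; ring] at h
          · rwa [show x - (((1 : ℕ) : ℤ) + p) * -x = (p + 2) * x by push_cast; ring] at h
        have h4 : (N : ℤ) ∣ (p + 1) * x := by
          rcases h2 with h | h
          · exfalso
            apply hNx
            rw [show x - ((2 : ℕ) : ℤ) * x = - x by push_cast; ring] at h
            rwa [dvd_neg] at h
          · rw [show x - (((2 : ℕ) : ℤ) + p) * x = - ((p + 1) * x) by push_cast; ring] at h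
            rwa [dvd_neg] at h
        apply hNx
        have := dvd_sub h3 h4
        rwa [show (p + 2 : ℤ) * x - (p + 1) * x = x by ring] at this
  · -- `a ≥ 2`
    have hpm : p ∣ m := by
      have h1 : p * m = p * (p ^ (a - 1) * N) := by
        rw [← hn, hN, ← mul_assoc, ← pow_succ']; congr 2; omega
      rw [Nat.eq_of_mul_eq_mul_left hp0 h1]
      exact (dvd_pow_self p (by omega)).mul_right _
    have hmd : ∀ t : ℤ, ¬ (p : ℤ) ∣ t → ¬ (m : ℤ) ∣ t := by
      intro t ht h
      exact ht ((Int.natCast_dvd_natCast.2 hpm).trans h)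
    have h1p : 1 < p := by omega
    rcases Nat.lt_or_ge K 2 with hK2 | hK2
    swap
    · have hT := caseB (y := x) (z := 0) hp hpN hn hN le_rfl h1p (hdiv 1 le_rfl h1p).1 hc
        (by push_cast; ring) hx (fun _ => ha)
      rw [(hdiv 1 le_rfl h1p).2] at hT
      exact T_pos hmodd (intCast_ne_zero.2 (hmd x hx)) hK2 (by omega) _ hT
    rcases Nat.eq_zero_or_pos K with hK0 | hK0
    · have hT := caseB (y := x) (z := 0) hp hpN hn hN le_rfl h1p (hdiv 1 le_rfl h1p).1 hc
        (by push_cast; ring) hx (fun _ => ha)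
      rw [(hdiv 1 le_rfl h1p).2, hK0, T_zero', if_pos (by push_cast; rfl)] at hT
      exact one_ne_zero hT
    · have hK1 : K = 1 := by omega
      have hy : ¬ (p : ℤ) ∣ (1 + p) * x := by
        intro h
        apply hx
        have := dvd_sub h (dvd_mul_right (p : ℤ) x)
        rwa [show (1 + (p : ℤ)) * x - p * x = x by ring] at this
      have hT := caseB (y := (1 + p) * x) (z := -x) hp hpN hn hN le_rfl h1p
        (hdiv 1 le_rfl h1p).1 hc (by push_cast; ring) hy (fun _ => ha)
      rw [(hdiv 1 le_rfl h1p).2, hK1] at hT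
      rcases T_one (intCast_ne_zero.2 (hmd _ hy)) hT with h | h
      · rw [ZMod.intCast_zmod_eq_zero_iff_dvd, dvd_neg] at h
        exact hmd x hx h
      · rw [← sub_eq_zero, ← Int.cast_sub, ZMod.intCast_zmod_eq_zero_iff_dvd] at h
        have h2 : (p : ℤ) ∣ -x - (1 + p) * x := (Int.natCast_dvd_natCast.2 hpm).trans h
        have h3 : (p : ℤ) ∣ 2 * x := by
          have := dvd_add h2 (dvd_mul_right (p : ℤ) x)
          rw [show -x - (1 + (p : ℤ)) * x + p * x = -(2 * x) by ring, dvd_neg] at this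
          exact this
        rcases hpp.dvd_or_dvd h3 with h4 | h4
        · have h5 : p ∣ 2 := by exact_mod_cast h4
          have := Nat.le_of_dvd (by norm_num) h5
          omega
        · exact hx h4

end Pool.Agent.H47.SD
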