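import Mathlib
import Pool.Agent.H47.SD.I

set_option autoImplicit false

open Finset

namespace Pool.Agent.H47.SD

lemma cyc {m p : ℕ} [NeZero m] {w : ZMod m} (hpw : (p : ZMod m) * w = 0) (K : ℕ)
    (z : ZMod m) : ∑ i ∈ range p, T m K (z - (i + 1) * w) 0 =
      ∑ i ∈ range p, T m K (z - (i + 1) * w) w := by
  induction K with
  | zero => simp only [T]
  | succ K ih =>
    simp only [T, Finset.sum_sub_distrib, sub_zero]
    rw [ih]
    congr 1
    have h1 := Finset.sum_range_succ (fun i : ℕ => T m K (z - (i + 1) * w) w) p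
    have h2 := Finset.sum_range_succ' (fun i : ℕ => T m K (z - (i + 1) * w) w) p
    rw [h1] at h2
    have h3 : T m K (z - ((p : ZMod m) + 1) * w) w = T m K (z - (((0 : ℕ) : ZMod m) + 1) * w) w := by
      congr 1
      rw [add_mul, hpw]; push_cast; ring
    rw [h3] at h2
    have h4 := add_right_cancel h2
    rw [h4]
    refine Finset.sum_congr rfl fun i _ => ?_
    congr 1
    push_cast; ring

lemma sum_V0_odd {m : ℕ} [NeZero m] (hm : Odd m) : ∑ v ∈ univ.erase (0 : ZMod m), v = 0 := by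
  have h0 := Finset.sum_erase (univ : Finset (ZMod m)) (f := fun v : ZMod m => v) (a := 0) rfl
  rw [h0]
  apply two_unit hm
  have h : ∑ v : ZMod m, v = ∑ v : ZMod m, -v := (Equiv.sum_comp (Equiv.neg _) _).symm
  rw [Finset.sum_neg_distrib] at h
  linear_combination h

/-- `T` at `m - 3` -/
lemma T_top {m : ℕ} [NeZero m] (hm : Odd m) (hm3 : 3 ≤ m) {z w : ZMod m} (hw : w ≠ 0)
    (h : T m (m - 3) z w = 0) : z = -w ∨ z = -(2 * w) := by
  have h1 := T_compl hw (K := 1) (by omega) (-w - z)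
  rw [sum_V0_odd hm, show (0 : ZMod m) - (-w - z) - w = z by ring,
    show m - 2 - 1 = m - 3 by omega, h] at h1
  rcases T_one hw h1.symm with h2 | h2
  · left; linear_combination -h2
  · right; linear_combination -h2

theorem Csmall {n p N a : ℕ} [NeZero n] (hodd : Odd n) (hp : p.Prime) (hpN : ¬ p ∣ N)
    (hN : n = p ^ a * N) (ha : 2 ≤ a) {k : ℕ} (hk1 : 1 ≤ k) (hkp : k ≤ p) {x : ℤ}
    (hc : Const n k x) (hx : (p : ℤ) ∣ x) (hx2 : ¬ (p : ℤ) ^ a ∣ x) : False := by
  have hp0 := hp.pos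
  have hn0 : n ≠ 0 := NeZero.ne n
  have hN0 : N ≠ 0 := by rintro rfl; rw [mul_zero] at hN; exact hn0 hN
  have hpz : (p : ℤ) ≠ 0 := by exact_mod_cast hp0.ne'
  have hpp : Prime (p : ℤ) := Nat.prime_iff_prime_int.1 hp
  have hpn : p ∣ n := by rw [hN]; exact (dvd_pow_self p (by omega)).mul_right _
  have hpodd : Odd p := hodd.of_dvd_nat hpn
  have hp3 : 3 ≤ p := by
    have := hp.two_le
    rcases hpodd with ⟨s, hs⟩; omega
  obtain ⟨M, hM⟩ := hpn
  have hM0 : M ≠ 0 := by rintro rfl; rw [mul_zero] at hM; exact hn0 hM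
  have : NeZero M := ⟨hM0⟩
  have hnd : ∀ t : ℤ, (n : ℤ) ∣ t → (p : ℤ) ^ a ∣ t := by
    intro t ht
    refine dvd_trans ?_ ht
    rw [hN]; push_cast; exact dvd_mul_right _ _
  have hNd : ∀ t : ℤ, (n : ℤ) ∣ t → (N : ℤ) ∣ t := by
    intro t ht
    refine dvd_trans ?_ ht
    rw [hN]; push_cast; exact dvd_mul_left _ _
  have hx0 : (x : ZMod n) ≠ 0 := intCast_ne_zero.2 (fun h => hx2 (hnd _ h))
  have hcop' : Nat.Coprime (p ^ a) N :=
    Nat.Coprime.pow_left _ ((Nat.Prime.coprime_iff_not_dvd hp).2 hpN)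
  by_cases hNx : (N : ℤ) ∣ x
  · -- choose the unit
    obtain ⟨u, hu, hux⟩ : ∃ u : ℤ, ¬ (p : ℤ) ∣ u ∧ ¬ (p : ℤ) ^ a ∣ x - p * u := by
      have h1 : ¬ (p : ℤ) ∣ 1 := by
        intro h
        have h2 : p ∣ 1 := by exact_mod_cast h
        have := Nat.le_of_dvd one_pos h2; omega
      by_cases h : (p : ℤ) ^ a ∣ x - p * 1
      · refine ⟨-1, by rwa [dvd_neg], ?_⟩
        intro h2
        have h3 := dvd_sub h2 h
        have h4 : (p : ℤ) ^ 2 ∣ 2 * p := by
          refine (pow_dvd_pow _ ha).trans ?_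
          rwa [show x - (p : ℤ) * -1 - (x - p * 1) = 2 * p by ring] at h3
        rw [pow_two] at h4
        have h5 := (mul_dvd_mul_iff_right hpz).1 h4
        have h6 : p ∣ 2 := by exact_mod_cast h5
        have := Nat.le_of_dvd (by norm_num) h6
        omega
      · exact ⟨1, h1, h⟩
    obtain ⟨y', h1, h2⟩ := crt hcop' u 0
    push_cast at h1
    rw [sub_zero] at h2
    have hpy : ¬ (p : ℤ) ∣ y' := by
      intro h
      apply hu
      have := dvd_sub h ((dvd_pow_self (p : ℤ) (show a ≠ 0 by omega)).trans h1)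
      rwa [sub_sub_cancel] at this
    refine small hp hpN (f := 0) (M := M) (by rw [zero_add, pow_one]; exact hM) hN hc hk1
      (by rw [zero_add, pow_one]; exact hkp) hx0 (y' := y') ?_ (dvd_sub hNx h2)
      (by rw [pow_zero]; exact one_dvd _) (by rw [pow_zero]; exact one_dvd _) ?_
    · rw [intCast_ne_zero]
      intro h
      exact hpy ((dvd_pow_self (p : ℤ) (show a ≠ 0 by omega)).trans (hnd _ h))
    · intro i hi1 hik h
      have h3 := hnd _ h
      have h4 : (p : ℤ) ∣ i * y' := by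
        have := dvd_sub hx ((dvd_pow_self (p : ℤ) (show a ≠ 0 by omega)).trans h3)
        rwa [sub_sub_cancel] at this
      have h5 := (hpp.dvd_or_dvd h4).resolve_right hpy
      have h6 : p ∣ i := by exact_mod_cast h5
      have h7 := Nat.le_of_dvd (by omega) h6
      have h8 : i = p := by omega
      rw [h8] at h3
      apply hux
      have h9 := dvd_add h3 (h1.mul_left (p : ℤ))
      rwa [show x - (p : ℤ) * y' + p * (y' - u) = x - p * u by ring] at h9
  · obtain ⟨y', h1, h2⟩ := crt hcop' 0 x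
    push_cast at h1
    rw [sub_zero] at h1
    refine small hp hpN (f := 0) (M := M) (by rw [zero_add, pow_one]; exact hM) hN hc hk1
      (by rw [zero_add, pow_one]; exact hkp) hx0 (y' := y') ?_ (by rw [← neg_sub]; exact (dvd_neg).2 h2)
      (by rw [pow_zero]; exact one_dvd _) (by rw [pow_zero]; exact one_dvd _) ?_
    · rw [intCast_ne_zero]
      intro h
      apply hNx
      have := dvd_sub (hNd _ h) h2
      rwa [sub_sub_cancel] at this
    · intro i hi1 hik h
      apply hx2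
      have := dvd_add (hnd _ h) (h1.mul_left (i : ℤ))
      rwa [sub_add_cancel] at this

theorem C2 {n m p N : ℕ} [NeZero n] [NeZero m] (hodd : Odd n) (hp : p.Prime) (hpN : ¬ p ∣ N)
    (hn : n = p * m) (hm : m = p * N) {q : ℕ} (hq1 : 1 ≤ q) (hq2 : q + 3 ≤ m) {z : ℤ}
    (hc : Const n (p * (q + 1)) (p * z)) (hz : ¬ (m : ℤ) ∣ z) : False := by
  have hp0 := hp.pos
  have hn0 : n ≠ 0 := NeZero.ne n
  have hm0 : m ≠ 0 := NeZero.ne m
  have hN0 : N ≠ 0 := by rintro rfl; rw [mul_zero] at hm; exact hm0 hm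
  have hNz : (N : ℤ) ≠ 0 := by exact_mod_cast hN0
  have hpz : (p : ℤ) ≠ 0 := by exact_mod_cast hp0.ne'
  have hpp : Prime (p : ℤ) := Nat.prime_iff_prime_int.1 hp
  have hoddp : Odd p ∧ Odd m := by rw [hn, Nat.odd_mul] at hodd; exact hodd
  obtain ⟨hpodd, hmodd⟩ := hoddp
  have hp3 : 3 ≤ p := by
    have := hp.two_le
    rcases hpodd with ⟨s, hs⟩; omega
  have hp2 : ¬ (p : ℤ) ∣ 2 := by
    intro h
    have h2 : p ∣ 2 := by exact_mod_cast h
    have := Nat.le_of_dvd (by norm_num) h2; omega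
  have hmN : ∀ c : ℤ, (m : ℤ) ∣ c * N → (p : ℤ) ∣ c := by
    intro c h
    rw [hm] at h; push_cast at h
    exact (mul_dvd_mul_iff_right hNz).1 h
  obtain ⟨c, hc1, hcp, hcz⟩ : ∃ c : ℤ, (c = 1 ∨ c = -1) ∧ ¬ (p : ℤ) ∣ c ∧ ¬ (m : ℤ) ∣ z - c * N := by
    have h1 : ¬ (p : ℤ) ∣ 1 := by
      intro h
      have h2 : p ∣ 1 := by exact_mod_cast h
      have := Nat.le_of_dvd one_pos h2; omega
    by_cases h : (m : ℤ) ∣ z - 1 * N
    · refine ⟨-1, Or.inr rfl, by rwa [dvd_neg], ?_⟩
      intro h2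
      have h3 := dvd_sub h2 h
      exact hp2 (hmN 2 (by rwa [show z - -1 * (N : ℤ) - (z - 1 * N) = 2 * N by ring] at h3))
    · exact ⟨1, Or.inl rfl, h1, h⟩
  set w : ℤ := c * N with hw
  have hpw : ¬ (p : ℤ) ∣ w := by
    intro h
    rcases hpp.dvd_or_dvd h with h1 | h1
    · exact hcp h1
    · exact hpN (by exact_mod_cast h1)
  have hmw : (w : ZMod m) ≠ 0 := by
    rw [intCast_ne_zero]; intro h; exact hcp (hmN c h)
  have hpw0 : (p : ZMod m) * (w : ZMod m) = 0 := by
    have h1 : ((p * w : ℤ) : ZMod m) = 0 := by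
      rw [ZMod.intCast_zmod_eq_zero_iff_dvd, hm, hw]
      push_cast
      exact ⟨c, by ring⟩
    push_cast at h1
    exact h1
  have hs := star (a := 2) (N := N) hp hn (by rw [hn, hm]; ring) hc hpw (w := w) (by
    rw [intCast_ne_zero, hn]
    push_cast
    rw [mul_dvd_mul_iff_left hpz]
    intro h
    exact hcp (hmN c h)) (dvd_sub (by rw [hw]; exact dvd_mul_left _ _)
      (by rw [hw]; exact (dvd_mul_left _ _).mul_left _))
  have hs2 : T m q ((z : ZMod m) - w) (w : ZMod m) =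
      ∑ i ∈ range p, T m q ((z : ZMod m) - (i + 1) * w) (w : ZMod m) := by
    rw [← cyc hpw0]
    have h1 : (((z - w : ℤ)) : ZMod m) = (z : ZMod m) - w := by push_cast; ring
    rw [← h1, hs]
    refine Finset.sum_congr rfl fun i _ => ?_
    have h2 : ((p * w : ℤ) : ZMod m) = 0 := by push_cast; exact hpw0
    rw [h2]
    congr 1
    push_cast; ring
  obtain ⟨p', rfl⟩ : ∃ p', p = p' + 1 := ⟨p - 1, by omega⟩
  rw [Finset.sum_range_succ'] at hs2
  have hs3 : ∑ i ∈ range p', T m q ((z : ZMod m) - (((i + 1 : ℕ) : ZMod m) + 1) * w) (w : ZMod m) = 0 := by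
    have h1 : T m q ((z : ZMod m) - (((0 : ℕ) : ZMod m) + 1) * w) (w : ZMod m) =
        T m q ((z : ZMod m) - w) (w : ZMod m) := by
      congr 1; push_cast; ring
    rw [h1] at hs2
    linarith
  rw [Finset.sum_eq_zero_iff_of_nonneg (fun i _ => T_nonneg hmw _ _)] at hs3
  have hzz : (z : ZMod m) ≠ 0 := intCast_ne_zero.2 hz
  have hzw : (z : ZMod m) ≠ (w : ZMod m) := by
    intro h
    rw [← sub_eq_zero, ← Int.cast_sub, ZMod.intCast_zmod_eq_zero_iff_dvd] at h
    exact hcz h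
  have h2w := hs3 0 (Finset.mem_range.2 (by omega))
  rcases Nat.lt_or_ge q 2 with hq | hq
  · have hq' : q = 1 := by omega
    subst hq'
    have h1 := hs3 (p' - 1) (Finset.mem_range.2 (by omega))
    rcases T_one hmw h1 with h | h
    · apply hzz
      have h5 : ((p' - 1 + 1 : ℕ) : ZMod m) = (p' : ZMod m) := by congr 1; omega
      rw [h5] at h
      push_cast at hpw0
      linear_combination h + hpw0
    · apply hzw
      have h5 : ((p' - 1 + 1 : ℕ) : ZMod m) = (p' : ZMod m) := by congr 1; omega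
      rw [h5] at h
      push_cast at hpw0
      linear_combination h + hpw0
  · rcases Nat.lt_or_ge (q + 3) m with hq3 | hq3
    · exact T_pos hmodd hmw hq (by omega) _ h2w
    · have hq4 : q = m - 3 := by omega
      rw [hq4] at h2w
      rcases T_top hmodd (by omega) hmw h2w with h | h
      · apply hzw
        push_cast at h
        linear_combination h
      · apply hzz
        push_cast at h
        linear_combination h

theorem C3 {n m p N b' : ℕ} [NeZero n] [NeZero m] (hodd : Odd n) (hp : p.Prime) (hpN : ¬ p ∣ N)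
    (hn : n = p * m) (hm : m = p ^ (b' + 2) * N) {q : ℕ} (hq1 : 1 ≤ q) (hq2 : q + 3 ≤ m) {z : ℤ}
    (hc : Const n (p * (q + 1)) (p * z)) : False := by
  have hp0 := hp.pos
  have hn0 : n ≠ 0 := NeZero.ne n
  have hm0 : m ≠ 0 := NeZero.ne m
  have hN0 : N ≠ 0 := by rintro rfl; rw [mul_zero] at hm; exact hm0 hm
  have hNz : (N : ℤ) ≠ 0 := by exact_mod_cast hN0
  have hpz : (p : ℤ) ≠ 0 := by exact_mod_cast hp0.ne'
  have hpp : Prime (p : ℤ) := Nat.prime_iff_prime_int.1 hp
  have hoddp : Odd p ∧ Odd m := by rw [hn, Nat.odd_mul] at hodd; exact hodd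
  obtain ⟨hpodd, hmodd⟩ := hoddp
  have hp3 : 3 ≤ p := by
    have := hp.two_le
    rcases hpodd with ⟨s, hs⟩; omega
  have hp2 : ¬ (p : ℤ) ∣ 2 := by
    intro h
    have h2 : p ∣ 2 := by exact_mod_cast h
    have := Nat.le_of_dvd (by norm_num) h2; omega
  have hp1 : ¬ (p : ℤ) ∣ 1 := by
    intro h
    have h2 : p ∣ 1 := by exact_mod_cast h
    have := Nat.le_of_dvd one_pos h2; omega
  have hmN : ∀ c : ℤ, (m : ℤ) ∣ c * N → (p : ℤ) ^ 2 ∣ c := by
    intro c h
    rw [hm] at h; push_cast at h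
    exact (pow_dvd_pow _ (by omega)).trans ((mul_dvd_mul_iff_right hNz).1 h)
  have hp12 : ∀ c : ℤ, (p : ℤ) ^ 2 ∣ c → (p : ℤ) ∣ c := fun c h =>
    (dvd_pow_self (p : ℤ) two_ne_zero).trans h
  -- main computation
  have key : ∀ c : ℤ, ¬ (p : ℤ) ∣ c →
      ∃ d : ℤ, (p : ℤ) ∣ d - 1 ∧ (m : ℤ) ∣ z - d * (c * N) := by
    intro c hcp
    set w : ℤ := c * N with hw
    have hpw : ¬ (p : ℤ) ∣ w := by
      intro h
      rcases hpp.dvd_or_dvd h with h1 | h1
      · exact hcp h1
      · exact hpN (by exact_mod_cast h1)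
    set u : ℤ := (p - 1) * w with hu
    set v : ℤ := p * w with hv
    have hpu : ¬ (p : ℤ) ∣ u := by
      intro h
      apply hpw
      have := dvd_sub (dvd_mul_right (p : ℤ) w) h
      rwa [hu, show (p : ℤ) * w - (p - 1) * w = w by ring] at this
    have hpm : (p : ℤ) ∣ m := by
      rw [hm]; push_cast
      exact (dvd_pow_self (p : ℤ) (by omega)).mul_right _
    have hmu : (u : ZMod m) ≠ 0 := by
      rw [intCast_ne_zero]; intro h; exact hpu (hpm.trans h)
    have hmv : (v : ZMod m) ≠ 0 := by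
      rw [intCast_ne_zero]
      intro h
      rw [hv, hw, ← mul_assoc] at h
      have h1 := hmN _ h
      rw [pow_two] at h1
      exact hcp ((mul_dvd_mul_iff_left hpz).1 h1)
    have huv : (u : ZMod m) ≠ (v : ZMod m) := by
      intro h
      rw [← sub_eq_zero, ← Int.cast_sub, ZMod.intCast_zmod_eq_zero_iff_dvd] at h
      apply hpw
      have := hpm.trans h
      rw [hu, hv, show ((p : ℤ) - 1) * w - p * w = - w by ring, dvd_neg] at this
      exact this
    have hs := star (a := b' + 3) (N := N) hp hn (by rw [hn, hm, pow_succ' p (b' + 2)]; ring) hc hpu (w := w) (by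
      rw [intCast_ne_zero, hn]
      push_cast
      rw [mul_dvd_mul_iff_left hpz]
      intro h
      exact hpw (hpm.trans h)) (dvd_sub (by rw [hu, hw]; exact (dvd_mul_left _ _).mul_left _)
        (by rw [hw]; exact (dvd_mul_left _ _).mul_left _))
    obtain ⟨q', rfl⟩ : ∃ q', q = q' + 1 := ⟨q - 1, by omega⟩
    obtain ⟨p', hp'⟩ : ∃ p', p = p' + 2 := ⟨p - 2, by omega⟩
    set F : ℕ → ℤ := fun i => T m (q' + 1) ((z - (i + 1) * w : ℤ) : ZMod m) (v : ZMod m) with hF
    have hs2 : T m (q' + 1) ((z - u : ℤ) : ZMod m) (u : ZMod m) = ∑ i ∈ range p, F i := hs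
    have hvmem : (v : ZMod m) ∈ V1 (u : ZMod m) := mem_V1.2 ⟨huv.symm, hmv⟩
    have humem : (u : ZMod m) ∈ V1 (v : ZMod m) := mem_V1.2 ⟨huv, hmu⟩
    have hV2 : (V1 (v : ZMod m)).erase (u : ZMod m) = (V1 (u : ZMod m)).erase (v : ZMod m) := by
      unfold V1; rw [Finset.erase_right_comm]
    have h1 : T m (q' + 1) ((z - u : ℤ) : ZMod m) (u : ZMod m) =
        cnt ((V1 (u : ZMod m)).erase (v : ZMod m)) (q' + 1) ((z - u : ℤ) : ZMod m) +
        cnt ((V1 (u : ZMod m)).erase (v : ZMod m)) q' (((z - u : ℤ) : ZMod m) - v) := by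
      rw [T_eq_cnt hmu, cnt_succ hvmem]; push_cast; rfl
    have hFcnt : ∀ i, F i = cnt ((V1 (u : ZMod m)).erase (v : ZMod m)) (q' + 1)
          ((z - (i + 1) * w : ℤ) : ZMod m) +
        cnt ((V1 (u : ZMod m)).erase (v : ZMod m)) q' (((z - (i + 1) * w : ℤ) : ZMod m) - u) := by
      intro i
      show T m (q' + 1) ((z - (i + 1) * w : ℤ) : ZMod m) (v : ZMod m) = _
      rw [T_eq_cnt hmv, cnt_succ humem, hV2]; push_cast; rfl
    have hFnn : ∀ i, 0 ≤ F i := fun i => T_nonneg hmv _ _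
    rw [hp', Finset.sum_range_succ, Finset.sum_range_succ, h1] at hs2
    have hp'z : (p : ℤ) = p' + 2 := by rw [hp']; push_cast; ring
    have e1 : (z - ((p' : ℕ) + 1) * w : ℤ) = z - u := by
      rw [hu, hp'z]; ring
    have e2 : (((z - ((p' + 1 : ℕ) + 1) * w : ℤ) : ZMod m) - u) = (((z - u : ℤ) : ZMod m) - v) := by
      have : (z - ((p' + 1 : ℕ) + 1) * w : ℤ) - u = (z - u) - v := by
        rw [hu, hv, hp'z]; push_cast; ring
      rw [← Int.cast_sub, ← Int.cast_sub, this]
    have hFa := hFcnt p'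
    have hFb := hFcnt (p' + 1)
    rw [e1] at hFa
    rw [e2] at hFb
    have hsum : ∑ i ∈ range p', F i = 0 := by
      have hnn : 0 ≤ ∑ i ∈ range p', F i := Finset.sum_nonneg (fun i _ => hFnn i)
      have n1 : (0 : ℤ) ≤ (cnt ((V1 (u : ZMod m)).erase (v : ZMod m)) q' (((z - u : ℤ) : ZMod m) - u) : ℤ) := by
        positivity
      have n2 : (0 : ℤ) ≤ (cnt ((V1 (u : ZMod m)).erase (v : ZMod m)) (q' + 1) ((z - ((p' + 1 : ℕ) + 1) * w : ℤ) : ZMod m) : ℤ) := by
        positivity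
      linarith
    rw [Finset.sum_eq_zero_iff_of_nonneg (fun i _ => hFnn i)] at hsum
    have hF0 := hsum 0 (Finset.mem_range.2 (by omega))
    have hT : T m (q' + 1) ((z : ZMod m) - w) (v : ZMod m) = 0 := by
      rw [← hF0]
      show _ = T m (q' + 1) ((z - (((0 : ℕ) : ℤ) + 1) * w : ℤ) : ZMod m) (v : ZMod m)
      congr 1
      push_cast; ring
    have hvw : (v : ZMod m) = ((p * w : ℤ) : ZMod m) := rfl
    rcases Nat.lt_or_ge (q' + 1) 2 with hq | hq
    · have hq' : q' = 0 := by omega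
      subst hq'
      rcases T_one hmv hT with h | h
      · refine ⟨1, by simp, ?_⟩
        rw [one_mul]
        rwa [← Int.cast_sub, ZMod.intCast_zmod_eq_zero_iff_dvd] at h
      · refine ⟨p + 1, by simp, ?_⟩
        rw [← Int.cast_sub, ← sub_eq_zero, ← Int.cast_sub, ZMod.intCast_zmod_eq_zero_iff_dvd, hv] at h
        rwa [show z - w - p * w = z - (p + 1) * w by ring] at h
    · rcases Nat.lt_or_ge (q' + 1 + 3) m with hq3 | hq3
      · exact absurd hT (T_pos hmodd hmv hq (by omega) _)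
      · have hq4 : q' + 1 = m - 3 := by omega
        rw [hq4] at hT
        rcases T_top hmodd (by omega) hmv hT with h | h
        · refine ⟨1 - p, ⟨-1, by ring⟩, ?_⟩
          have h7 : ((z - (1 - p) * w : ℤ) : ZMod m) = 0 := by
            rw [hv] at h
            push_cast at h ⊢
            linear_combination h
          rwa [ZMod.intCast_zmod_eq_zero_iff_dvd] at h7
        · refine ⟨1 - 2 * p, ⟨-2, by ring⟩, ?_⟩
          have h7 : ((z - (1 - 2 * p) * w : ℤ) : ZMod m) = 0 := by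
            rw [hv] at h
            push_cast at h ⊢
            linear_combination h
          rwa [ZMod.intCast_zmod_eq_zero_iff_dvd] at h7
  obtain ⟨d, hd1, hd2⟩ := key 1 hp1
  obtain ⟨d', hd1', hd2'⟩ := key (-1) (by rwa [dvd_neg])
  have h1 := dvd_sub hd2' hd2
  rw [show z - d' * (-1 * (N : ℤ)) - (z - d * (1 * N)) = (d' + d) * N by ring] at h1
  have h2 := hp12 _ (hmN _ h1)
  apply hp2
  have h3 := dvd_sub h2 (dvd_add hd1 hd1')
  rwa [show d' + d - (d - 1 + (d' - 1)) = 2 by ring] at h3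

end Pool.Agent.H47.SD
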