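import Mathlib
import Pool.Agent.H47.SD.J

set_option autoImplicit false

open Finset

namespace Pool.Agent.H47.SD

lemma const_neg {n : ℕ} [NeZero n] (hodd : Odd n) {k : ℕ} (hk : 1 ≤ k) (hkn : k + 2 ≤ n) {x : ℤ}
    (h : Const n k x) : Const n (n - 1 - k) (-x) := by
  refine const_compl hk hkn ?_ h
  rw [sum_V0_odd hodd]; push_cast; ring

/-- case `p ∣ x`, `p ∣ k` -/
lemma caseC_false {n p N a q : ℕ} [NeZero n] (hodd : Odd n) (hp : p.Prime) (hpN : ¬ p ∣ N)
    (hN : n = p ^ a * N) (ha : 2 ≤ a) (hk2 : p * (q + 1) + 2 ≤ n) {x : ℤ}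
    (hc : Const n (p * (q + 1)) x) (hx : (p : ℤ) ∣ x) (hx2 : ¬ (p : ℤ) ^ a ∣ x) : False := by
  have hp0 := hp.pos
  have hn0 : n ≠ 0 := NeZero.ne n
  have hN0 : N ≠ 0 := by rintro rfl; rw [mul_zero] at hN; exact hn0 hN
  have hpz : (p : ℤ) ≠ 0 := by exact_mod_cast hp0.ne'
  obtain ⟨b', rfl⟩ : ∃ b', a = b' + 2 := ⟨a - 2, by omega⟩
  set m := p ^ (b' + 1) * N with hm
  have hn : n = p * m := by rw [hN, hm, pow_succ' p (b' + 1)]; ring
  have hm0 : m ≠ 0 := by positivity
  have : NeZero m := ⟨hm0⟩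
  have hmodd : Odd m := by rw [hn, Nat.odd_mul] at hodd; exact hodd.2
  have hpodd : Odd p := by rw [hn, Nat.odd_mul] at hodd; exact hodd.1
  have hp3 : 3 ≤ p := by
    have := hp.two_le
    rcases hpodd with ⟨s, hs⟩; omega
  have hk1 : 1 ≤ p * (q + 1) := Nat.mul_pos hp0 (Nat.succ_pos q)
  have hqm : q + 2 ≤ m := by
    by_contra hlt
    push Not at hlt
    have h1 : m ≤ q + 1 := by omega
    have h2 := Nat.mul_le_mul_left p h1
    rw [← hn] at h2
    omega
  rcases Nat.eq_zero_or_pos q with hq0 | hq0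
  · subst hq0
    rw [zero_add, mul_one] at hc hk1
    exact Csmall hodd hp hpN hN (by omega) hk1 le_rfl hc hx hx2
  rcases Nat.eq_or_lt_of_le hqm with hqm' | hqm'
  · have hc2 := const_neg hodd hk1 hk2 hc
    have h3 : n - 1 - p * (q + 1) = p - 1 := by
      rw [hn, ← hqm', show p * (q + 2) = p * (q + 1) + p by ring]; omega
    rw [h3] at hc2
    exact Csmall hodd hp hpN hN (by omega) (by omega) (by omega) hc2 (by rwa [dvd_neg])
      (by rwa [dvd_neg])
  · obtain ⟨z, rfl⟩ := hx
    rcases Nat.eq_zero_or_pos b' with hb | hb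
    · subst hb
      have hz : ¬ (m : ℤ) ∣ z := by
        intro h
        apply hx2
        rw [zero_add, pow_two]
        apply mul_dvd_mul_left
        refine dvd_trans ?_ h
        rw [hm]; push_cast
        rw [pow_one]; exact dvd_mul_right _ _
      exact C2 hodd hp hpN hn (by rw [hm, zero_add, pow_one]) hq0 (by omega) hc hz
    · obtain ⟨b'', rfl⟩ : ∃ b'', b' = b'' + 1 := ⟨b' - 1, by omega⟩
      exact C3 hodd hp hpN hn hm hq0 (by omega) hc

/-- `n` odd, `x ≠ 0`: never constant -/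
theorem odd_ne_zero_false {n k : ℕ} [NeZero n] (hodd : Odd n) (hk1 : 1 ≤ k) (hk2 : k + 2 ≤ n)
    {x : ℤ} (hx : ¬ (n : ℤ) ∣ x) (hc : Const n k x) : False := by
  have hn0 : n ≠ 0 := NeZero.ne n
  obtain ⟨p, hp, hpd⟩ : ∃ p : ℕ, p.Prime ∧ p ∣ n / Int.gcd x n := by
    apply Nat.exists_prime_and_dvd
    intro h
    have hg : Int.gcd x n ∣ n := by
      have := Int.gcd_dvd_right x n
      exact_mod_cast this
    have h1 : n = Int.gcd x n := by
      have := Nat.div_mul_cancel hg
      rw [h, one_mul] at this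
      exact this.symm
    apply hx
    have h2 := Int.gcd_dvd_left x (n : ℤ)
    rwa [← h1] at h2
  have hp0 := hp.pos
  have hg : Int.gcd x n ∣ n := by
    have := Int.gcd_dvd_right x n
    exact_mod_cast this
  obtain ⟨a, N, hpN, hN⟩ := Nat.exists_eq_pow_mul_and_not_dvd hn0 p hp.ne_one
  have hxa : ¬ (p : ℤ) ^ a ∣ x := by
    intro h
    have h1 : p ^ a ∣ Int.gcd x n := by
      have h2 : ((p ^ a : ℕ) : ℤ) ∣ (Int.gcd x n : ℕ) := by
        apply Int.dvd_coe_gcd
        · push_cast; exact h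
        · rw [hN]; push_cast; exact dvd_mul_right _ _
      exact_mod_cast h2
    have h3 : p ^ a * p ∣ Int.gcd x n * (n / Int.gcd x n) := mul_dvd_mul h1 hpd
    rw [Nat.mul_div_cancel' hg] at h3
    rw [hN] at h3
    exact hpN ((Nat.mul_dvd_mul_iff_left (pow_pos hp0 a)).1 h3)
  have ha0 : a ≠ 0 := by
    rintro rfl
    rw [pow_zero] at hxa
    exact hxa (one_dvd _)
  obtain ⟨e, hea, hx1, hx2⟩ : ∃ e, e < a ∧ (p : ℤ) ^ e ∣ x ∧ ¬ (p : ℤ) ^ (e + 1) ∣ x := by
    classical
    have hex : ∃ e, ¬ (p : ℤ) ^ (e + 1) ∣ x := ⟨a - 1, by rwa [Nat.sub_add_cancel (by omega)]⟩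
    refine ⟨Nat.find hex, ?_, ?_, Nat.find_spec hex⟩
    · have h1 := Nat.find_min' hex (show ¬ (p : ℤ) ^ (a - 1 + 1) ∣ x by
        rwa [Nat.sub_add_cancel (by omega)])
      omega
    · rcases Nat.eq_zero_or_pos (Nat.find hex) with h | h
      · rw [h, pow_zero]; exact one_dvd _
      · have h2 := Nat.find_min hex (m := Nat.find hex - 1) (by omega)
        push Not at h2
        rwa [Nat.sub_add_cancel h] at h2
  -- reduction to `2 * k + 1 ≤ n`
  have main : ∀ k : ℕ, 1 ≤ k → 2 * k + 1 ≤ n → ∀ x : ℤ, Const n k x → (p : ℤ) ^ e ∣ x →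
      ¬ (p : ℤ) ^ (e + 1) ∣ x → False := by
    intro k hk1 hkn x hc hx1 hx2
    have hpn : p ∣ n := by rw [hN]; exact (dvd_pow_self p ha0).mul_right _
    obtain ⟨m, hn⟩ := hpn
    have hm0 : m ≠ 0 := by rintro rfl; rw [mul_zero] at hn; exact hn0 hn
    have : NeZero m := ⟨hm0⟩
    have hpodd : Odd p := by rw [hn, Nat.odd_mul] at hodd; exact hodd.1
    have hp3 : 3 ≤ p := by
      have := hp.two_le
      rcases hpodd with ⟨s, hs⟩; omega
    have hk2 : k + 2 ≤ n := by
      have : p ≤ n := by rw [hn]; exact Nat.le_mul_of_pos_right p (by omega)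
      omega
    by_cases hpk : p ∣ k
    · obtain ⟨c, hk⟩ := hpk
      obtain ⟨q, rfl⟩ : ∃ q, c = q + 1 := ⟨c - 1, by
        have : c ≠ 0 := by rintro rfl; omega
        omega⟩
      rcases Nat.eq_zero_or_pos e with he | he
      · subst he
        rw [zero_add, pow_one] at hx2
        exact caseB_false hodd hp hpN hn hN (Or.inl hk) hkn hc hx2
      · subst hk
        exact caseC_false hodd hp hpN hN (by omega) hk2 hc
          ((dvd_pow_self (p : ℤ) (by omega)).trans hx1)
          (fun h => hx2 ((pow_dvd_pow _ hea).trans h))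
    · by_cases hpk1 : p ∣ k + 1
      · obtain ⟨c, hk⟩ := hpk1
        obtain ⟨q, rfl⟩ : ∃ q, c = q + 1 := ⟨c - 1, by
          have : c ≠ 0 := by rintro rfl; omega
          omega⟩
        rcases Nat.eq_zero_or_pos e with he | he
        · subst he
          rw [zero_add, pow_one] at hx2
          exact caseB_false hodd hp hpN hn hN (Or.inr hk) hkn hc hx2
        · have hc2 := const_neg hodd hk1 hk2 hc
          have hlt : q + 1 < m := by
            by_contra hlt
            push Not at hlt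
            have := Nat.mul_le_mul_left p hlt
            rw [← hn] at this
            omega
          have h3 : n - 1 - k = p * ((m - (q + 1) - 1) + 1) := by
            have h4 : m - (q + 1) - 1 + 1 = m - (q + 1) := by omega
            rw [h4, Nat.mul_sub, ← hn, ← hk]
            omega
          rw [h3] at hc2
          refine caseC_false hodd hp hpN hN (by omega) ?_ hc2
            ((dvd_neg).2 ((dvd_pow_self (p : ℤ) (by omega)).trans hx1)) ?_
          · rw [← h3]; omega
          · rw [dvd_neg]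
            exact fun h => hx2 ((pow_dvd_pow _ hea).trans h)
      · exact mid_false hodd hp hpN hN hea hpk hpk1 hkn hc hx1 hx2
  by_cases hkn : 2 * k + 1 ≤ n
  · exact main k hk1 hkn x hc hx1 hx2
  · exact main (n - 1 - k) (by omega) (by omega) (-x) (const_neg hodd hk1 hk2 hc)
      ((dvd_neg).2 hx1) (by rwa [dvd_neg])

end Pool.Agent.H47.SD
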