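import Mathlib
import Pool.Agent.H47.SD.K

/-!
# Even modulus: tools
-/

set_option autoImplicit false

open Finset

namespace Pool.Agent.H47.SD

lemma cast_eq_iff {n : ℕ} {s t : ℤ} : (s : ZMod n) = (t : ZMod n) ↔ (n : ℤ) ∣ s - t := by
  rw [← sub_eq_zero, ← Int.cast_sub, ZMod.intCast_zmod_eq_zero_iff_dvd]

lemma half_cases {n m : ℕ} [NeZero n] (hn : n = 2 * m) {v : ZMod n} (h : 2 * v = 0) :
    v = 0 ∨ v = (m : ZMod n) := by
  have hv : v = ((v.val : ℕ) : ZMod n) := (ZMod.natCast_zmod_val v).symm
  have hlt := ZMod.val_lt v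
  have h1 : ((2 * v.val : ℕ) : ZMod n) = 0 := by push_cast; rw [ZMod.natCast_zmod_val]; exact h
  rw [ZMod.natCast_eq_zero_iff] at h1
  obtain ⟨c, hc⟩ := h1
  have hn0 : 0 < n := NeZero.pos n
  have hc2 : c < 2 := by
    by_contra hcon
    push Not at hcon
    have := Nat.mul_le_mul_left n hcon
    omega
  rcases Nat.lt_or_ge c 1 with h2 | h2
  · left
    have : v.val = 0 := by
      have : c = 0 := by omega
      subst this; omega
    rw [hv, this]; push_cast; rfl
  · right
    have : v.val = m := by
      have : c = 1 := by omega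
      subst this; omega
    rw [hv, this]

lemma two_half {n m : ℕ} (hn : n = 2 * m) : (2 : ZMod n) * (m : ZMod n) = 0 := by
  have : ((2 * m : ℕ) : ZMod n) = 0 := by rw [← hn, ZMod.natCast_self]
  push_cast at this; exact this

lemma sum_V0_even {n m : ℕ} [NeZero n] (hn : n = 2 * m) :
    ∑ v ∈ univ.erase (0 : ZMod n), v = (m : ZMod n) := by
  classical
  have hn0 : 0 < n := NeZero.pos n
  have h0 := Finset.sum_erase (univ : Finset (ZMod n)) (f := fun v : ZMod n => v) (a := 0) rfl
  rw [h0, ← Finset.add_sum_erase _ _ (Finset.mem_univ (m : ZMod n))]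
  have h1 : ∑ v ∈ univ.erase (m : ZMod n), v = 0 := by
    refine Finset.sum_involution (fun v _ => -v) ?_ ?_ ?_ ?_
    · intro a _; ring
    · intro a ha h hcon
      have h2 : 2 * a = 0 := by linear_combination -hcon
      rcases half_cases hn h2 with h3 | h3
      · exact h h3
      · exact (Finset.mem_erase.1 ha).1 h3
    · intro a ha
      rw [Finset.mem_erase]
      refine ⟨?_, Finset.mem_univ _⟩
      intro h
      apply (Finset.mem_erase.1 ha).1
      have h3 := two_half hn
      linear_combination -h - h3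
    · intro a _; ring
  rw [h1, add_zero]

lemma card_roots_even {m h : ℕ} [NeZero m] (hm : m = 2 * h) (s : ZMod m) :
    (univ.filter (fun a : ZMod m => 2 * a = s)).card ≤ 2 := by
  classical
  by_cases he : (univ.filter (fun a : ZMod m => 2 * a = s)) = ∅
  · rw [he, Finset.card_empty]; omega
  · obtain ⟨a, ha⟩ := Finset.nonempty_iff_ne_empty.2 he
    rw [Finset.mem_filter] at ha
    have hsub : (univ.filter (fun a : ZMod m => 2 * a = s)) ⊆ {a, a + (h : ZMod m)} := by
      intro c hc
      rw [Finset.mem_filter] at hc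
      have h2 : 2 * (c - a) = 0 := by rw [mul_sub, hc.2, ha.2, sub_self]
      rw [Finset.mem_insert, Finset.mem_singleton]
      rcases half_cases hm h2 with h3 | h3
      · left; exact sub_eq_zero.1 h3
      · right; rw [← h3]; ring
    exact (Finset.card_le_card hsub).trans Finset.card_le_two

/-- all sums are attained (even modulus) -/
lemma EL_even {m : ℕ} [NeZero m] (hm : Even m) (hm10 : 10 ≤ m) (V : Finset (ZMod m))
    (hV : m ≤ V.card + 3) {K : ℕ} (hK : 2 ≤ K) (hKV : K + 2 ≤ V.card) (z : ZMod m) :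
    0 < cnt V K z := by
  classical
  obtain ⟨h, hh⟩ := even_iff_exists_two_mul.1 hm
  have h2m : 2 ∣ m := hm.two_dvd
  set π := ZMod.castHom h2m (ZMod 2) with hπ
  have hπ2 : ∀ a : ZMod m, π (2 * a) = 0 := by
    intro a
    rw [map_mul]
    have : π 2 = 0 := by
      rw [map_ofNat]; decide
    rw [this, zero_mul]
  have hz2 : ∀ t : ZMod 2, t = 0 ∨ t = 1 := by decide
  -- numbers of even and odd elements
  have hcard : (univ.filter (fun a : ZMod m => π a = 0)).card =
      (univ.filter (fun a : ZMod m => ¬ π a = 0)).card := by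
    refine Finset.card_bij (fun a _ => a + 1) ?_ ?_ ?_
    · intro a ha
      rw [Finset.mem_filter] at ha ⊢
      refine ⟨Finset.mem_univ _, ?_⟩
      rw [map_add, ha.2, map_one]; decide
    · intro a _ c _ hac
      exact add_right_cancel hac
    · intro c hc
      rw [Finset.mem_filter] at hc
      refine ⟨c - 1, ?_, by ring⟩
      rw [Finset.mem_filter]
      refine ⟨Finset.mem_univ _, ?_⟩
      rw [map_sub, map_one, (hz2 (π c)).resolve_left hc.2, sub_self]
  have hcard2 := Finset.card_filter_add_card_filter_not (s := (univ : Finset (ZMod m)))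
    (fun a : ZMod m => π a = 0)
  rw [Finset.card_univ, ZMod.card] at hcard2
  have hVc : V.card + (univ \ V).card = m := by
    have := Finset.card_sdiff_add_card_eq_card (Finset.subset_univ V)
    rw [Finset.card_univ, ZMod.card] at this
    omega
  have hev : h ≤ (V.filter (fun a => π a = 0)).card + (univ \ V).card := by
    have h1 : (univ.filter (fun a : ZMod m => π a = 0)) ⊆
        V.filter (fun a => π a = 0) ∪ (univ \ V) := by
      intro a ha
      rw [Finset.mem_filter] at ha
      rw [Finset.mem_union, Finset.mem_filter, Finset.mem_sdiff]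
      by_cases haV : a ∈ V
      · exact Or.inl ⟨haV, ha.2⟩
      · exact Or.inr ⟨Finset.mem_univ _, haV⟩
    have h2 := (Finset.card_le_card h1).trans (Finset.card_union_le _ _)
    omega
  have hod : h ≤ (V.filter (fun a => ¬ π a = 0)).card + (univ \ V).card := by
    have h1 : (univ.filter (fun a : ZMod m => ¬ π a = 0)) ⊆
        V.filter (fun a => ¬ π a = 0) ∪ (univ \ V) := by
      intro a ha
      rw [Finset.mem_filter] at ha
      rw [Finset.mem_union, Finset.mem_filter, Finset.mem_sdiff]
      by_cases haV : a ∈ V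
      · exact Or.inl ⟨haV, ha.2⟩
      · exact Or.inr ⟨Finset.mem_univ _, haV⟩
    have h2 := (Finset.card_le_card h1).trans (Finset.card_union_le _ _)
    omega
  have main : ∀ K : ℕ, 2 ≤ K → 2 * K ≤ V.card → ∀ z : ZMod m, 0 < cnt V K z := by
    intro K hK h2K z
    rcases Nat.eq_or_lt_of_le hK with hK2 | hK3
    · refine exists_sum_aux V ∅ (Finset.empty_subset _) (by rw [Finset.card_empty]; omega) z ?_
      have := card_roots_even hh (z - ∑ a ∈ (∅ : Finset (ZMod m)), a)
      rw [Finset.card_empty]
      omega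
    · obtain ⟨A₀, hA, hc, hp⟩ : ∃ A₀ ⊆ V, A₀.card + 2 = K ∧ π (z - ∑ a ∈ A₀, a) ≠ 0 := by
        by_cases hπz : π z = 0
        · obtain ⟨A₁, hA₁, hc₁⟩ := Finset.exists_subset_card_eq
            (s := V.filter (fun a => π a = 0)) (n := K - 3) (by omega)
          have hne : (V.filter (fun a => ¬ π a = 0)).Nonempty := by
            rw [← Finset.card_pos]; omega
          obtain ⟨o, ho⟩ := hne
          rw [Finset.mem_filter] at ho
          have hoA : o ∉ A₁ := fun hcon => ho.2 (Finset.mem_filter.1 (hA₁ hcon)).2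
          refine ⟨insert o A₁, ?_, ?_, ?_⟩
          · intro t ht
            rw [Finset.mem_insert] at ht
            rcases ht with rfl | ht
            · exact ho.1
            · exact (Finset.mem_filter.1 (hA₁ ht)).1
          · rw [Finset.card_insert_of_notMem hoA]; omega
          · rw [Finset.sum_insert hoA, map_sub, hπz, map_add, map_sum,
              Finset.sum_eq_zero (fun a ha => (Finset.mem_filter.1 (hA₁ ha)).2),
              (hz2 (π o)).resolve_left ho.2]
            decide
        · obtain ⟨A₁, hA₁, hc₁⟩ := Finset.exists_subset_card_eq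
            (s := V.filter (fun a => π a = 0)) (n := K - 2) (by omega)
          refine ⟨A₁, fun t ht => (Finset.mem_filter.1 (hA₁ ht)).1, by omega, ?_⟩
          rw [map_sub, map_sum,
              Finset.sum_eq_zero (fun a ha => (Finset.mem_filter.1 (hA₁ ha)).2), sub_zero]
          exact hπz
      refine exists_sum_aux V A₀ hA hc z ?_
      have : (univ.filter (fun a : ZMod m => 2 * a = z - ∑ a ∈ A₀, a)) = ∅ := by
        rw [Finset.filter_eq_empty_iff]
        intro a _ hcon
        apply hp
        rw [← hcon]; exact hπ2 a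
      rw [this, Finset.card_empty]
      omega
  by_cases h : 2 * K ≤ V.card
  · exact main K hK h z
  · rw [cnt_compl V (by omega)]
    exact main _ (by omega) (by omega) _

/-- the dual of `T m 1` -/
lemma T_top_even {m h : ℕ} [NeZero m] (hm : m = 2 * h) (hm3 : 3 ≤ m) (z : ZMod m) {w : ZMod m}
    (hw : w ≠ 0) : T m (m - 3) z w = T m 1 ((h : ZMod m) - z - w) w := by
  have h1 := T_compl hw (K := 1) (by omega) ((h : ZMod m) - z - w)
  rw [sum_V0_even hm, show (h : ZMod m) - ((h : ZMod m) - z - w) - w = z by ring,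
    show m - 2 - 1 = m - 3 by omega] at h1
  exact h1

lemma T_one_eq {m : ℕ} [NeZero m] {z w : ZMod m} (hw : w ≠ 0) :
    T m 1 z w = if z ≠ w ∧ z ≠ 0 then 1 else 0 := by
  rw [T_eq_cnt hw, cnt_one]
  by_cases h : z ≠ w ∧ z ≠ 0
  · rw [if_pos h, if_pos (mem_V1.2 h)]; rfl
  · rw [if_neg h, if_neg (fun h2 => h (mem_V1.1 h2))]; rfl

lemma T_one_le {m : ℕ} [NeZero m] {z w : ZMod m} (hw : w ≠ 0) : T m 1 z w ≤ 1 := by
  rw [T_one_eq hw]; split_ifs <;> norm_num

/-- `star` for `p = 2` -/
lemma star2 {n m N a : ℕ} [NeZero n] [NeZero m] (hn : n = 2 * m)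
    (hN : n = 2 ^ a * N) {q : ℕ} {y w z : ℤ}
    (hc : Const n (2 * (q + 1)) (2 * z)) (hy : ¬ (2 : ℤ) ∣ y)
    (hw : ¬ (m : ℤ) ∣ w) (hyy : (N : ℤ) ∣ y - 2 * w) :
    T m q ((z : ZMod m) - (y : ZMod m)) (y : ZMod m) =
      T m q ((z : ZMod m) - (w : ZMod m)) ((2 : ZMod m) * w) +
      T m q ((z : ZMod m) - 2 * (w : ZMod m)) ((2 : ZMod m) * w) := by
  have h1 := star (p := 2) (y := y) (w := w) (z := z) Nat.prime_two hn hN (by exact_mod_cast hc)
    (by exact_mod_cast hy) (by
      rw [intCast_ne_zero, hn]
      push_cast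
      rw [mul_dvd_mul_iff_left (by norm_num)]
      exact hw) (by exact_mod_cast hyy)
  rw [Finset.sum_range_succ, Finset.sum_range_one] at h1
  push_cast at h1
  rw [h1]
  congr 2
  ring

/-- at the half period -/
lemma half_sum {m h : ℕ} [NeZero m] (hm : m = 2 * h) (K : ℕ) (z : ZMod m) :
    T m K (z - (h : ZMod m)) 0 + T m K z 0 = T m K (z - (h : ZMod m)) h + T m K z h := by
  have h1 := cyc (p := 2) (w := (h : ZMod m)) (by push_cast; exact two_half hm) K z
  rw [Finset.sum_range_succ, Finset.sum_range_one, Finset.sum_range_succ, Finset.sum_range_one] at h1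
  have h2 : z - (((1 : ℕ) : ZMod m) + 1) * (h : ZMod m) = z := by
    have := two_half hm
    push_cast
    linear_combination -this
  have h3 : z - (((0 : ℕ) : ZMod m) + 1) * (h : ZMod m) = z - h := by push_cast; ring
  rw [h2, h3] at h1
  exact h1

end Pool.Agent.H47.SD
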