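import Mathlib
import Pool.Agent.H47.SD.L

/-!
# Even modulus: small cases, `n / 2` odd, `x` odd
-/

set_option autoImplicit false

open Finset

namespace Pool.Agent.H47.SD

/-- the exceptional (empty) structures -/
def Exc (n k : ℕ) (x : ℤ) : Prop :=
  (k = 1 ∧ (n : ℤ) ∣ x) ∨ (k + 2 = n ∧ (n : ℤ) ∣ 2 * x ∧ ¬ (n : ℤ) ∣ x)

lemma half_dvd {n m : ℕ} (hn : n = 2 * m) {x : ℤ} (h : (n : ℤ) ∣ 2 * x) :
    (n : ℤ) ∣ x ∨ (n : ℤ) ∣ x - m := by
  have h1 : (m : ℤ) ∣ x := by
    rw [hn] at h; push_cast at h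
    exact (mul_dvd_mul_iff_left (by norm_num)).1 h
  obtain ⟨c, hc⟩ := h1
  rcases Int.even_or_odd' c with ⟨d, hd | hd⟩
  · left; rw [hc, hn, hd]; push_cast; exact ⟨d, by ring⟩
  · right; rw [hc, hn, hd]; push_cast; exact ⟨d, by ring⟩

lemma not_dvd_half {n m : ℕ} [NeZero n] (hn : n = 2 * m) : ¬ (n : ℤ) ∣ m := by
  intro h
  have h1 : n ∣ m := by exact_mod_cast h
  have hn0 := NeZero.pos n
  have := Nat.le_of_dvd (by omega) h1
  omega

lemma Exc_compl {n m k : ℕ} [NeZero n] (hn : n = 2 * m) (hk1 : 1 ≤ k) (hk2 : k + 2 ≤ n) {x : ℤ}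
    (h : Exc n (n - 1 - k) (m - x)) : Exc n k x := by
  have hm := not_dvd_half hn
  rcases h with ⟨h1, h2⟩ | ⟨h1, h2, h3⟩
  · right
    refine ⟨by omega, ?_, ?_⟩
    · have h4 := h2.mul_left 2
      rw [show (2 : ℤ) * (m - x) = n - 2 * x by rw [hn]; push_cast; ring] at h4
      exact (dvd_sub_right (dvd_refl _)).1 h4
    · intro h4
      exact hm (by have := dvd_add h2 h4; rwa [sub_add_cancel] at this)
  · left
    refine ⟨by omega, ?_⟩
    rcases half_dvd hn h2 with h4 | h4
    · exact absurd h4 h3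
    · have : (m : ℤ) - x - m = -x := by ring
      rw [this, dvd_neg] at h4
      exact h4

lemma const_compl_even {n m k : ℕ} [NeZero n] (hn : n = 2 * m) (hk1 : 1 ≤ k) (hk2 : k + 2 ≤ n)
    {x : ℤ} (h : Const n k x) : Const n (n - 1 - k) (m - x) := by
  refine const_compl hk1 hk2 ?_ h
  rw [sum_V0_even hn]; push_cast; ring

lemma T_zero_eq {m : ℕ} [NeZero m] (z w : ZMod m) : T m 0 z w = if z = 0 then 1 else 0 :=
  T_zero' z w

lemma exists_other {n : ℕ} [NeZero n] (hn : 3 ≤ n) (x : ZMod n) : ∃ y : ZMod n, y ≠ 0 ∧ y ≠ x := by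
  classical
  by_contra hcon
  push Not at hcon
  have h1 : (univ : Finset (ZMod n)) ⊆ {0, x} := by
    intro y _
    rw [Finset.mem_insert, Finset.mem_singleton]
    by_cases hy : y = 0
    · exact Or.inl hy
    · exact Or.inr (hcon y hy)
  have h2 := (Finset.card_le_card h1).trans Finset.card_le_two
  rw [Finset.card_univ, ZMod.card] at h2
  omega

lemma k_one {n : ℕ} [NeZero n] (hn : 3 ≤ n) {x : ℤ} (hc : Const n 1 x) : (n : ℤ) ∣ x := by
  by_contra hx
  have hx' := intCast_ne_zero.2 hx
  rw [show 1 = 0 + 1 from rfl, const_iff] at hc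
  obtain ⟨y, hy0, hyx⟩ := exists_other hn (x : ZMod n)
  have h1 := hc (x : ZMod n) y hx' hy0
  rw [T_zero', T_zero', if_pos (sub_self _), if_neg (sub_ne_zero.2 hyx.symm)] at h1
  exact one_ne_zero h1

lemma k_two {n m : ℕ} [NeZero n] (hnm : n = 2 * m) (hn : 3 ≤ n) {x : ℤ} (hc : Const n 2 x) :
    n = 4 ∧ (n : ℤ) ∣ 2 * x ∧ ¬ (n : ℤ) ∣ x := by
  classical
  rw [show 2 = 1 + 1 from rfl, const_iff] at hc
  have hmn : (m : ZMod n) ≠ 0 := by
    have := intCast_ne_zero.2 (not_dvd_half hnm)
    push_cast at this; exact this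
  have hx : ¬ (n : ℤ) ∣ x := by
    intro hx
    have hx0 : (x : ZMod n) = 0 := (ZMod.intCast_zmod_eq_zero_iff_dvd x n).2 hx
    have hone : (1 : ZMod n) ≠ 0 := by
      have := @intCast_ne_zero n 1
      push_cast at this
      rw [this]
      intro h
      have h1 : n ∣ 1 := by exact_mod_cast h
      have := Nat.le_of_dvd one_pos h1
      omega
    have h1 := hc (m : ZMod n) 1 hmn hone
    rw [hx0, T_one_eq hmn, T_one_eq hone] at h1
    rw [if_neg, if_pos] at h1
    · exact absurd h1 (by norm_num)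
    · refine ⟨?_, ?_⟩
      · intro h
        have h2 : ((2 : ℤ) : ZMod n) = 0 := by push_cast; linear_combination -h
        rw [ZMod.intCast_zmod_eq_zero_iff_dvd] at h2
        have h3 : n ∣ 2 := by exact_mod_cast h2
        have := Nat.le_of_dvd two_pos h3
        omega
      · intro h
        apply hone
        linear_combination -h
    · intro h
      apply h.1
      have := two_half hnm
      linear_combination -this
  have hx' := intCast_ne_zero.2 hx
  have key : ∀ y : ZMod n, y ≠ 0 → y ≠ (x : ZMod n) → 2 * y = x := by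
    intro y hy0 hyx
    have h1 := hc (x : ZMod n) y hx' hy0
    rw [T_one_eq hx', T_one_eq hy0, sub_self, if_neg (fun h => h.2 rfl)] at h1
    by_contra h2
    rw [if_pos] at h1
    · exact absurd h1 (by norm_num)
    · refine ⟨fun h => h2 (by linear_combination -h), sub_ne_zero.2 hyx.symm⟩
  have hn4 : n ≤ 4 := by
    have h1 : (univ : Finset (ZMod n)) ⊆ {0, (x : ZMod n)} ∪ (univ.filter (fun a : ZMod n => 2 * a = x)) := by
      intro y _
      rw [Finset.mem_union, Finset.mem_insert, Finset.mem_singleton, Finset.mem_filter]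
      by_cases hy : y = 0
      · exact Or.inl (Or.inl hy)
      · by_cases hyx : y = x
        · exact Or.inl (Or.inr hyx)
        · exact Or.inr ⟨Finset.mem_univ _, key y hy hyx⟩
    have h2 := (Finset.card_le_card h1).trans (Finset.card_union_le _ _)
    have h3 := card_roots_even hnm (x : ZMod n)
    have h4 : ({0, (x : ZMod n)} : Finset (ZMod n)).card ≤ 2 := Finset.card_le_two
    rw [Finset.card_univ, ZMod.card] at h2
    omega
  have hn4' : n = 4 := by omega
  refine ⟨hn4', ?_, hx⟩
  obtain ⟨y, hy0, hyx⟩ := exists_other hn (x : ZMod n)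
  have h1 := key y hy0 hyx
  rw [← ZMod.intCast_zmod_eq_zero_iff_dvd]
  push_cast
  rw [← h1]
  have h2 : ((4 : ℕ) : ZMod n) = 0 := by
    rw [ZMod.natCast_eq_zero_iff, hn4']
  push_cast at h2
  linear_combination y * h2

lemma low {n m k : ℕ} [NeZero n] (hnm : n = 2 * m) (hk1 : 1 ≤ k) (hk2 : k + 2 ≤ n) (hk : k ≤ 2) {x : ℤ}
    (hc : Const n k x) : Exc n k x := by
  rcases Nat.eq_or_lt_of_le hk1 with h | h
  · left
    subst h
    exact ⟨rfl, k_one (by omega) hc⟩
  · have hk' : k = 2 := by omega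
    subst hk'
    right
    obtain ⟨h1, h2, h3⟩ := k_two hnm (by omega) hc
    exact ⟨by omega, h2, h3⟩

lemma high {n m k : ℕ} [NeZero n] (hnm : n = 2 * m) (hk1 : 1 ≤ k) (hk2 : k + 2 ≤ n)
    (hk : n ≤ k + 3) {x : ℤ} (hc : Const n k x) : Exc n k x := by
  apply Exc_compl hnm hk1 hk2
  exact low hnm (by omega) (by omega) (by omega) (const_compl_even hnm hk1 hk2 hc)

/-- `n / 2` odd -/
theorem even_one {n m k : ℕ} [NeZero n] [NeZero m] (hnm : n = 2 * m) (hmodd : Odd m) (hk1 : 3 ≤ k)
    (hk2 : k + 4 ≤ n) {x : ℤ} (hxo : ¬ (2 : ℤ) ∣ x) (hc : Const n k x) : False := by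
  have hp2m : ¬ 2 ∣ m := by
    intro h; exact (Nat.not_even_iff_odd.2 hmodd) (even_iff_two_dvd.2 h)
  have hm5 : 5 ≤ m := by rcases hmodd with ⟨s, hs⟩; omega
  have key : ∀ s : ℤ, ¬ (m : ℤ) ∣ s → ∃ z : ℤ, (m : ℤ) ∣ 2 * z - (x - s) ∧
      T m ((k - 1) / 2) (z : ZMod m) (s : ZMod m) = 0 := by
    intro s hs
    obtain ⟨z, hz, hT⟩ := caseB1 (i := 1) Nat.prime_two hp2m hnm le_rfl (by norm_num) (by omega) hc
      (by exact_mod_cast hxo) hs
    refine ⟨z, ?_, hT⟩
    push_cast at hz
    rwa [one_mul] at hz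
  have h2m : ∀ t : ℤ, (m : ℤ) ∣ 2 * t → (m : ℤ) ∣ t := by
    intro t h
    have h2 : IsCoprime (m : ℤ) (2 : ℤ) := by
      have := Nat.isCoprime_iff_coprime.2 (Nat.coprime_two_right.2 hmodd)
      exact_mod_cast this
    exact h2.dvd_of_dvd_mul_left h
  have hsmall : ∀ t : ℕ, 0 < t → t < 5 → ¬ (m : ℤ) ∣ t := by
    intro t ht1 ht2 h
    have h1 : m ∣ t := by exact_mod_cast h
    have := Nat.le_of_dvd ht1 h1
    omega
  set K := (k - 1) / 2 with hK
  rcases Nat.lt_or_ge K 2 with hK2 | hK2
  · have hK1 : K = 1 := by omega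
    rw [hK1] at key
    have key2 : ∀ s : ℤ, ¬ (m : ℤ) ∣ s → (m : ℤ) ∣ x - s ∨ (m : ℤ) ∣ x - 3 * s := by
      intro s hs
      obtain ⟨z, hz, hT⟩ := key s hs
      rcases T_one (intCast_ne_zero.2 hs) hT with h | h
      · left
        rw [ZMod.intCast_zmod_eq_zero_iff_dvd] at h
        have := dvd_sub (h.mul_left 2) hz
        rwa [sub_sub_cancel] at this
      · right
        rw [cast_eq_iff] at h
        have := dvd_sub (h.mul_left 2) hz
        rwa [show 2 * (z - s) - (2 * z - (x - s)) = x - 3 * s by ring] at this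
    by_cases hmx : (m : ℤ) ∣ x
    · rcases key2 1 (by exact_mod_cast hsmall 1 (by norm_num) (by norm_num)) with h | h
      · have := dvd_sub hmx h
        rw [sub_sub_cancel] at this
        exact hsmall 1 (by norm_num) (by norm_num) (by exact_mod_cast this)
      · have := dvd_sub hmx h
        rw [sub_sub_cancel] at this
        exact hsmall 3 (by norm_num) (by norm_num) (by exact_mod_cast this)
    · rcases key2 (-x) (by rwa [dvd_neg]) with h | h
      · apply hmx
        apply h2m
        rwa [show x - -x = 2 * x by ring] at h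
      · apply hmx
        apply h2m
        apply h2m
        rwa [show x - 3 * -x = 2 * (2 * x) by ring] at h
  · rcases Nat.lt_or_ge (K + 3) m with hK3 | hK3
    · obtain ⟨z, _, hT⟩ := key 1 (by exact_mod_cast hsmall 1 (by norm_num) (by norm_num))
      refine T_pos hmodd ?_ hK2 (by omega) _ hT
      exact intCast_ne_zero.2 (by exact_mod_cast hsmall 1 (by norm_num) (by norm_num))
    · have hK4 : K = m - 3 := by omega
      rw [hK4] at key
      have key2 : ∀ s : ℤ, ¬ (m : ℤ) ∣ s → (m : ℤ) ∣ x + s ∨ (m : ℤ) ∣ x + 3 * s := by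
        intro s hs
        obtain ⟨z, hz, hT⟩ := key s hs
        rcases T_top hmodd (by omega) (intCast_ne_zero.2 hs) hT with h | h
        · left
          have h1 : (m : ℤ) ∣ z + s := by
            rw [← ZMod.intCast_zmod_eq_zero_iff_dvd]; push_cast; linear_combination h
          have := dvd_sub (h1.mul_left 2) hz
          rwa [show 2 * (z + s) - (2 * z - (x - s)) = x + s by ring] at this
        · right
          have h1 : (m : ℤ) ∣ z + 2 * s := by
            rw [← ZMod.intCast_zmod_eq_zero_iff_dvd]; push_cast; linear_combination h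
          have := dvd_sub (h1.mul_left 2) hz
          rwa [show 2 * (z + 2 * s) - (2 * z - (x - s)) = x + 3 * s by ring] at this
      by_cases hmx : (m : ℤ) ∣ x
      · rcases key2 1 (by exact_mod_cast hsmall 1 (by norm_num) (by norm_num)) with h | h
        · have := dvd_sub h hmx
          rw [add_sub_cancel_left] at this
          exact hsmall 1 (by norm_num) (by norm_num) (by exact_mod_cast this)
        · have := dvd_sub h hmx
          rw [add_sub_cancel_left] at this
          exact hsmall 3 (by norm_num) (by norm_num) (by exact_mod_cast this)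
      · rcases key2 x hmx with h | h
        · apply hmx
          apply h2m
          rwa [show x + x = 2 * x by ring] at h
        · apply hmx
          apply h2m
          apply h2m
          rwa [show x + 3 * x = 2 * (2 * x) by ring] at h

/-- `4 ∣ n`, `x` odd -/
theorem even_two {n m N a k : ℕ} [NeZero n] [NeZero m] (hnm : n = 2 * m) (hN : n = 2 ^ a * N)
    (hNo : ¬ 2 ∣ N) (ha : 2 ≤ a) (hk1 : 1 ≤ k) (hk2 : k + 1 ≤ m) {x : ℤ} (hxo : ¬ (2 : ℤ) ∣ x)
    (hc : Const n k x) : False := by
  classical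
  have h2m : 2 ∣ m := by
    have h1 : 2 * m = 2 * (2 ^ (a - 1) * N) := by
      rw [← hnm, hN, ← mul_assoc, ← pow_succ']; congr 2; omega
    rw [Nat.eq_of_mul_eq_mul_left two_pos h1]
    exact (dvd_pow_self 2 (by omega)).mul_right _
  obtain ⟨h, hh⟩ := h2m
  have hm0 : 0 < m := NeZero.pos m
  -- the set of the first `K` even elements
  set K := (k - 1) / 2 with hK
  have hKh : K + 1 ≤ h := by omega
  set A : Finset (ZMod m) := (range K).image (fun i : ℕ => ((2 * (i + 1) : ℕ) : ZMod m)) with hA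
  have hinj : Set.InjOn (fun i : ℕ => ((2 * (i + 1) : ℕ) : ZMod m)) (range K : Finset ℕ) := by
    intro i hi j hj hij
    rw [Finset.mem_coe, Finset.mem_range] at hi hj
    have h1 := congrArg ZMod.val hij
    simp only [] at h1
    rw [ZMod.val_cast_of_lt (by omega), ZMod.val_cast_of_lt (by omega)] at h1
    omega
  have hAc : A.card = K := by rw [hA, Finset.card_image_of_injOn hinj, Finset.card_range]
  set σ : ℤ := ∑ i ∈ range K, (2 * ((i : ℤ) + 1)) with hσ
  have hAs : ∑ v ∈ A, v = (σ : ZMod m) := by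
    rw [hA, Finset.sum_image hinj, hσ]
    push_cast
    rfl
  set y : ℤ := x - 2 * σ with hy
  have hyo : ¬ (2 : ℤ) ∣ y := by
    intro h'
    apply hxo
    have := dvd_add h' (dvd_mul_right 2 σ)
    rwa [hy, sub_add_cancel] at this
  have hT := caseB (p := 2) (i := 1) (y := y) (z := σ) Nat.prime_two hNo hnm hN le_rfl (by norm_num)
    hk1 hc (by rw [hy]; push_cast; ring) (by exact_mod_cast hyo) (fun _ => ha)
  have h2mz : (2 : ℤ) ∣ m := by rw [hh]; push_cast; exact dvd_mul_right _ _
  have hy0 : (y : ZMod m) ≠ 0 := by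
    rw [intCast_ne_zero]; intro h'; exact hyo (h2mz.trans h')
  rw [T_eq_cnt hy0] at hT
  have hpos : 0 < cnt (V1 (y : ZMod m)) ((k - 1) / 2) (σ : ZMod m) := by
    refine cnt_pos (A := A) ?_ hAc hAs
    intro v hv
    rw [hA, Finset.mem_image] at hv
    obtain ⟨i, hi, rfl⟩ := hv
    have hi' := Finset.mem_range.1 hi
    rw [mem_V1]
    constructor
    · intro hcon
      have h3 : (((2 * (i + 1) : ℕ) : ℤ) : ZMod m) = (y : ZMod m) := by exact_mod_cast hcon
      rw [cast_eq_iff] at h3
      apply hyo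
      have h4 := h2mz.trans h3
      have h5 : (2 : ℤ) ∣ ((2 * (i + 1) : ℕ) : ℤ) := by push_cast; exact dvd_mul_right _ _
      have := dvd_sub h5 h4
      rwa [sub_sub_cancel] at this
    · intro hcon
      rw [ZMod.natCast_eq_zero_iff] at hcon
      have := Nat.le_of_dvd (by omega) hcon
      omega
  omega

end Pool.Agent.H47.SD
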