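import Mathlib
import Pool.Agent.H47.SD.M

/-!
# Even modulus: `4 ∣ n`, `x` even, `k` even
-/

set_option autoImplicit false

open Finset

namespace Pool.Agent.H47.SD

lemma dvd_small {m : ℕ} {t : ℤ} (h : (m : ℤ) ∣ t) (h1 : 0 < t) (h2 : t < m) : False := by
  have := Int.le_of_dvd h1 h
  omega

lemma dec6a : ∀ t : ZMod 6, cnt (V1 ((3 : ℕ) : ZMod 6)) 2 t = 0 → t = 2 ∨ t = 4 := by
  unfold cnt V1
  decide

lemma dec6b : ¬ (((cnt (V1 ((5 : ℤ) : ZMod 6)) 2 (2 - ((5 : ℤ) : ZMod 6)) : ℕ) : ℤ) =
    (cnt (V1 (2 * ((1 : ℤ) : ZMod 6))) 2 (2 - ((1 : ℤ) : ZMod 6)) : ℕ) +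
    (cnt (V1 (2 * ((1 : ℤ) : ZMod 6))) 2 (2 - 2 * ((1 : ℤ) : ZMod 6)) : ℕ)) := by
  unfold cnt V1
  decide

lemma dec6c : ¬ (((cnt (V1 ((1 : ℤ) : ZMod 6)) 2 (4 - ((1 : ℤ) : ZMod 6)) : ℕ) : ℤ) =
    (cnt (V1 (2 * ((-1 : ℤ) : ZMod 6))) 2 (4 - ((-1 : ℤ) : ZMod 6)) : ℕ) +
    (cnt (V1 (2 * ((-1 : ℤ) : ZMod 6))) 2 (4 - 2 * ((-1 : ℤ) : ZMod 6)) : ℕ)) := by
  unfold cnt V1
  decide

/-- `4 ∥ n` -/
theorem even_three {n m N q : ℕ} [NeZero n] [NeZero m] (hnm : n = 2 * m) (hmN : m = 2 * N)
    (hNo : Odd N) (hq1 : 2 ≤ q) (hq2 : q + 2 ≤ m) {z : ℤ}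
    (hc : Const n (2 * q) (2 * z)) : False := by
  obtain ⟨K, rfl⟩ : ∃ K, q = K + 1 := ⟨q - 1, by omega⟩
  have hN : n = 2 ^ 2 * N := by rw [hnm, hmN]; ring
  obtain ⟨v, hv⟩ := hNo
  have hN3 : 3 ≤ N := by omega
  have hmz : (m : ℤ) = 2 * N := by rw [hmN]; push_cast; ring
  -- basic nonvanishing
  have hnd : ∀ t : ℤ, 0 < t → t < m → ¬ (m : ℤ) ∣ t := fun t h1 h2 h => dvd_small h h1 h2
  have hndo : ∀ t : ℤ, ¬ (2 : ℤ) ∣ t → ¬ (m : ℤ) ∣ t := by
    intro t ht h
    apply ht
    rw [hmz] at h
    exact (dvd_mul_right _ _).trans h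
  have hne : ∀ s t : ℤ, ¬ (m : ℤ) ∣ s - t → (s : ZMod m) ≠ (t : ZMod m) := by
    intro s t h h2; exact h (cast_eq_iff.1 h2)
  have hne0 : ∀ s : ℤ, ¬ (m : ℤ) ∣ s → (s : ZMod m) ≠ 0 := fun s h => intCast_ne_zero.2 h
  have hNm : ((N : ℤ) : ZMod m) ≠ 0 := hne0 _ (hnd _ (by omega) (by omega))
  have hNN : (2 : ZMod m) * ((N : ℕ) : ZMod m) = 0 := two_half hmN
  -- the main relation
  have hT : T m K (z : ZMod m) ((N : ℕ) : ZMod m) = 0 := by
    have h1 := star2 (y := N) (w := N) (N := N) hnm hN hc (by omega) (hnd _ (by omega) (by omega))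
      ⟨-1, by ring⟩
    have h2 := half_sum hmN K (z : ZMod m)
    push_cast at h1
    rw [hNN, sub_zero, h2] at h1
    linarith
  rcases Nat.lt_or_ge K 2 with hK | hK
  · -- `K = 1`
    have hK1 : K = 1 := by omega
    subst hK1
    have hNm' : ((N : ℕ) : ZMod m) ≠ 0 := by exact_mod_cast hNm
    rcases T_one hNm' hT with hz | hz
    · have h1 := star2 (y := N + 2) (w := 1) (N := N) hnm hN hc (by omega) (hnd _ (by omega) (by omega))
        ⟨1, by ring⟩
      have hy0 : ((N + 2 : ℤ) : ZMod m) ≠ 0 := hne0 _ (hndo _ (by omega))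
      have h2 := T_one_le (z := (z : ZMod m) - ((N + 2 : ℤ) : ZMod m)) hy0
      rw [h1] at h2
      have hw : (2 : ZMod m) * ((1 : ℤ) : ZMod m) ≠ 0 := by
        have := hne0 2 (hnd _ (by omega) (by omega))
        push_cast at this ⊢; rwa [mul_one]
      rw [T_one_eq hw, T_one_eq hw, hz, if_pos, if_pos] at h2
      · norm_num at h2
      · refine ⟨?_, ?_⟩
        · have := hne (-2) 2 (by
            rw [show (-2 : ℤ) - 2 = -4 by norm_num, dvd_neg]
            exact hnd _ (by omega) (by omega))
          intro h; apply this; push_cast at h ⊢; linear_combination h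
        · have := hne0 (-2) (by rw [dvd_neg]; exact hnd _ (by omega) (by omega))
          intro h; apply this; push_cast at h ⊢; linear_combination h
      · refine ⟨?_, ?_⟩
        · have := hne (-1) 2 (by
            rw [show (-1 : ℤ) - 2 = -3 by norm_num, dvd_neg]
            exact hnd _ (by omega) (by omega))
          intro h; apply this; push_cast at h ⊢; linear_combination h
        · have := hne0 (-1) (by rw [dvd_neg]; exact hnd _ (by omega) (by omega))
          intro h; apply this; push_cast at h ⊢; linear_combination h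
    · have h1 := star2 (y := N + 2) (w := N + 1) (N := N) hnm hN hc (by omega)
        (hnd _ (by omega) (by omega)) ⟨-1, by ring⟩
      have hy0 : ((N + 2 : ℤ) : ZMod m) ≠ 0 := hne0 _ (hndo _ (by omega))
      have h2 := T_one_le (z := (z : ZMod m) - ((N + 2 : ℤ) : ZMod m)) hy0
      rw [h1] at h2
      have hw2 : (2 : ZMod m) * ((N + 1 : ℤ) : ZMod m) = 2 := by
        push_cast; linear_combination hNN
      have hw : (2 : ZMod m) ≠ 0 := by
        have := hne0 2 (hnd _ (by omega) (by omega))
        push_cast at this ⊢; exact this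
      rw [hw2, T_one_eq hw, T_one_eq hw, hz, if_pos, if_pos] at h2
      · norm_num at h2
      · refine ⟨?_, ?_⟩
        · have := hne (N - 2) 2 (hndo _ (by omega))
          intro h; apply this; push_cast at h ⊢; linear_combination h
        · have := hne0 (N - 2) (hndo _ (by omega))
          intro h; apply this; push_cast at h ⊢; linear_combination h
      · refine ⟨?_, ?_⟩
        · have := hne (-1) 2 (by
            rw [show (-1 : ℤ) - 2 = -3 by norm_num, dvd_neg]
            exact hnd _ (by omega) (by omega))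
          intro h; apply this; push_cast at h ⊢; linear_combination h
        · have := hne0 (-1) (by rw [dvd_neg]; exact hnd _ (by omega) (by omega))
          intro h; apply this; push_cast at h ⊢; linear_combination h
  · have hNm' : ((N : ℕ) : ZMod m) ≠ 0 := by exact_mod_cast hNm
    rcases Nat.lt_or_ge (K + 3) m with hK3 | hK3
    · rcases Nat.lt_or_ge m 10 with hm10 | hm10
      · -- `m = 6`
        have hm6 : m = 6 := by omega
        have hN3' : N = 3 := by omega
        have hK2' : K = 2 := by omega
        subst hm6 hN3' hK2'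
        rw [T_eq_cnt hNm'] at hT
        rcases dec6a _ (by exact_mod_cast hT) with hz | hz
        · have h1 := star2 (y := 5) (w := 1) (N := 3) hnm hN hc (by omega)
            (hnd _ (by omega) (by omega)) ⟨1, by norm_num⟩
          rw [hz, T_eq_cnt (by decide), T_eq_cnt (by decide), T_eq_cnt (by decide)] at h1
          exact dec6b h1
        · have h1 := star2 (y := 1) (w := -1) (N := 3) hnm hN hc (by omega)
            (by rw [dvd_neg]; exact hnd _ (by omega) (by omega)) ⟨1, by norm_num⟩
          rw [hz, T_eq_cnt (by decide), T_eq_cnt (by decide), T_eq_cnt (by decide)] at h1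
          exact dec6c h1
      · rw [T_eq_cnt hNm'] at hT
        have := EL_even ⟨N, by omega⟩ hm10 (V1 ((N : ℕ) : ZMod m)) (by rw [card_V1 hNm']; omega) hK
          (by rw [card_V1 hNm']; omega) (z : ZMod m)
        omega
    · -- `K = m - 3`
      have hK4 : K = m - 3 := by omega
      subst hK4
      rw [T_top_even hmN (by omega) _ hNm'] at hT
      rcases T_one hNm' hT with hz | hz
      · -- `z = 0`
        have hz0 : (z : ZMod m) = 0 := by linear_combination -hz
        have h1 := star2 (y := N + 4) (w := 2) (N := N) hnm hN hc (by omega)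
          (hnd _ (by omega) (by omega)) ⟨1, by ring⟩
        have hy0 : ((N + 4 : ℤ) : ZMod m) ≠ 0 := hne0 _ (hndo _ (by omega))
        have hw2 : (2 : ZMod m) * ((2 : ℤ) : ZMod m) = 4 := by
          push_cast; norm_num
        have hw : (4 : ZMod m) ≠ 0 := by
          have := hne0 4 (hnd _ (by omega) (by omega))
          push_cast at this ⊢; exact this
        rw [hw2, T_top_even hmN (by omega) _ hy0, T_top_even hmN (by omega) _ hw,
          T_top_even hmN (by omega) _ hw] at h1
        have h2 := T_one_le (z := ((N : ℕ) : ZMod m) - ((z : ZMod m) - ((N + 4 : ℤ) : ZMod m)) - ((N + 4 : ℤ) : ZMod m)) hy0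
        rw [h1, T_one_eq hw, T_one_eq hw, hz0, if_pos, if_pos] at h2
        · norm_num at h2
        · refine ⟨?_, ?_⟩
          · have := hne N 4 (hndo _ (by omega))
            intro h; apply this; push_cast at h ⊢; linear_combination h
          · have := hne0 N (hndo _ (by omega))
            intro h; apply this; push_cast at h ⊢; linear_combination h
        · refine ⟨?_, ?_⟩
          · have := hne (N - 2) 4 (hndo _ (by omega))
            intro h; apply this; push_cast at h ⊢; linear_combination h
          · have := hne0 (N - 2) (hndo _ (by omega))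
            intro h; apply this; push_cast at h ⊢; linear_combination h
      · -- `z = h`
        have hz0 : (z : ZMod m) = ((N : ℕ) : ZMod m) := by linear_combination -hz - hNN
        have h1 := star2 (y := N + 2) (w := 1) (N := N) hnm hN hc (by omega)
          (hnd _ (by omega) (by omega)) ⟨1, by ring⟩
        have hy0 : ((N + 2 : ℤ) : ZMod m) ≠ 0 := hne0 _ (hndo _ (by omega))
        have hw2 : (2 : ZMod m) * ((1 : ℤ) : ZMod m) = 2 := by
          push_cast; ring
        have hw : (2 : ZMod m) ≠ 0 := by
          have := hne0 2 (hnd _ (by omega) (by omega))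
          push_cast at this ⊢; exact this
        rw [hw2, T_top_even hmN (by omega) _ hy0, T_top_even hmN (by omega) _ hw,
          T_top_even hmN (by omega) _ hw, T_one_eq hy0, T_one_eq hw, T_one_eq hw, hz0] at h1
        rw [if_neg, if_pos, if_neg] at h1
        · norm_num at h1
        · intro h
          apply h.2
          push_cast; ring
        · refine ⟨?_, ?_⟩
          · have := hne (-1) 2 (by
              rw [show (-1 : ℤ) - 2 = -3 by norm_num, dvd_neg]
              exact hnd _ (by omega) (by omega))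
            intro h; apply this; push_cast at h ⊢; linear_combination h
          · have := hne0 (-1) (by rw [dvd_neg]; exact hnd _ (by omega) (by omega))
            intro h; apply this; push_cast at h ⊢; linear_combination h
        · intro h
          apply h.2
          ring

end Pool.Agent.H47.SD
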