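import Mathlib
import Pool.Agent.H47.SD.N

/-!
# Even modulus: `8 ∣ n`, `x` even, `k` even
-/

set_option autoImplicit false

open Finset

namespace Pool.Agent.H47.SD

lemma dec8a : ∀ t : ZMod 8, cnt ((V1 ((1 : ℤ) : ZMod 8)).erase (2 * ((1 : ℤ) : ZMod 8))) 2 t ≠ 0 ∨
    cnt ((V1 ((1 : ℤ) : ZMod 8)).erase (2 * ((1 : ℤ) : ZMod 8))) 1 t ≠ 0 := by
  unfold cnt V1
  decide

lemma dec8b : ∀ t : ZMod 8, cnt ((V1 ((1 : ℤ) : ZMod 8)).erase (2 * ((1 : ℤ) : ZMod 8))) 3 t ≠ 0 ∨
    cnt ((V1 ((1 : ℤ) : ZMod 8)).erase (2 * ((1 : ℤ) : ZMod 8))) 2 t ≠ 0 := by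
  unfold cnt V1
  decide

lemma dec8c : ∀ t : ZMod 8, cnt ((V1 ((1 : ℤ) : ZMod 8)).erase (2 * ((1 : ℤ) : ZMod 8))) 4 t ≠ 0 ∨
    cnt ((V1 ((1 : ℤ) : ZMod 8)).erase (2 * ((1 : ℤ) : ZMod 8))) 3 t ≠ 0 := by
  unfold cnt V1
  decide

/-- `8 ∣ n` -/
theorem even_four {n m N b' q : ℕ} [NeZero n] [NeZero m] (hnm : n = 2 * m)
    (hm : m = 2 ^ (b' + 2) * N) (hNo : Odd N) (hq1 : 2 ≤ q) (hq2 : q + 2 ≤ m) {z : ℤ}
    (hc : Const n (2 * q) (2 * z)) : False := by
  classical
  obtain ⟨K, rfl⟩ : ∃ K, q = K + 2 := ⟨q - 2, by omega⟩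
  have hN : n = 2 ^ (b' + 3) * N := by rw [hnm, hm, pow_succ' 2 (b' + 2)]; ring
  set H := 2 ^ (b' + 1) * N with hH
  have hmH : m = 2 * H := by rw [hm, hH, pow_succ' 2 (b' + 1)]; ring
  obtain ⟨v, hv⟩ := hNo
  have hN0 : 0 < N := by omega
  have hNz : (N : ℤ) ≠ 0 := by exact_mod_cast hN0.ne'
  have hmz : (m : ℤ) = 2 ^ (b' + 2) * N := by rw [hm]; push_cast; ring
  have hHz : (H : ℤ) = 2 ^ (b' + 1) * N := by rw [hH]; push_cast; ring
  have hm4 : (m : ℤ) = 4 * (2 ^ b' * N) := by rw [hmz]; ring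
  have h2m : (2 : ℤ) ∣ m := by rw [hm4]; exact ⟨2 * (2 ^ b' * N), by ring⟩
  have hHN : (H : ℤ) = 2 * (2 ^ b' * N) := by rw [hHz]; ring
  have hmN : ∀ t : ℤ, (m : ℤ) ∣ t * N → (2 : ℤ) ^ (b' + 2) ∣ t := by
    intro t h
    rw [hmz] at h
    exact (mul_dvd_mul_iff_right hNz).1 h
  have h4 : (4 : ℤ) ∣ 2 ^ (b' + 2) := ⟨2 ^ b', by rw [pow_add]; ring⟩
  have hmN4 : ∀ t : ℤ, (m : ℤ) ∣ t * N → (4 : ℤ) ∣ t := fun t h => h4.trans (hmN t h)
  have hm4' : 4 ≤ m := by
    rw [hm]
    have : 1 ≤ 2 ^ b' := Nat.one_le_two_pow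
    rw [pow_add]
    nlinarith
  have key : ∀ c : ℤ, ¬ (2 : ℤ) ∣ c →
      ((c * N : ℤ) : ZMod m) ≠ 0 ∧ (2 : ZMod m) * ((c * N : ℤ) : ZMod m) ≠ 0 ∧
      ((V1 ((c * N : ℤ) : ZMod m)).erase (2 * ((c * N : ℤ) : ZMod m))).card = m - 3 ∧
      cnt ((V1 ((c * N : ℤ) : ZMod m)).erase (2 * ((c * N : ℤ) : ZMod m))) (K + 1)
        ((z : ZMod m) - 2 * ((c * N : ℤ) : ZMod m)) = 0 ∧
      cnt ((V1 ((c * N : ℤ) : ZMod m)).erase (2 * ((c * N : ℤ) : ZMod m))) K
        ((z : ZMod m) - 2 * ((c * N : ℤ) : ZMod m)) = 0 := by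
    intro c hco
    set w : ℤ := c * N with hw
    have hwo : ¬ (2 : ℤ) ∣ w := by
      intro h
      rcases (Int.prime_two.dvd_or_dvd h) with h1 | h1
      · exact hco h1
      · omega
    have hmw : ¬ (m : ℤ) ∣ w := fun h => hwo (h2m.trans h)
    have hm2w : ¬ (m : ℤ) ∣ 2 * w := by
      intro h
      rw [hw, ← mul_assoc] at h
      have := hmN4 _ h
      omega
    have hw0 : (w : ZMod m) ≠ 0 := intCast_ne_zero.2 hmw
    have h2w0 : (2 : ZMod m) * (w : ZMod m) ≠ 0 := by
      have := intCast_ne_zero.2 hm2w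
      push_cast at this; exact this
    have hww : (2 : ZMod m) * (w : ZMod m) ≠ (w : ZMod m) := by
      intro h; apply hw0; linear_combination h
    have hs := star2 (y := w) (w := w) (N := N) hnm hN hc hwo hmw (by
      rw [hw]; exact ⟨-c, by ring⟩)
    have hmem1 : (2 : ZMod m) * (w : ZMod m) ∈ V1 (w : ZMod m) := mem_V1.2 ⟨hww, h2w0⟩
    have hmem2 : (w : ZMod m) ∈ V1 ((2 : ZMod m) * (w : ZMod m)) := mem_V1.2 ⟨hww.symm, hw0⟩
    have hV2 : (V1 ((2 : ZMod m) * (w : ZMod m))).erase (w : ZMod m) =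
        (V1 (w : ZMod m)).erase ((2 : ZMod m) * (w : ZMod m)) := by
      unfold V1; rw [Finset.erase_right_comm]
    rw [T_eq_cnt hw0, T_eq_cnt h2w0, T_eq_cnt h2w0, cnt_succ hmem1, cnt_succ hmem2, cnt_succ hmem2,
      hV2] at hs
    have e1 : (z : ZMod m) - (w : ZMod m) - (w : ZMod m) = (z : ZMod m) - 2 * (w : ZMod m) := by ring
    have e2 : (z : ZMod m) - (w : ZMod m) - 2 * (w : ZMod m) =
        (z : ZMod m) - 2 * (w : ZMod m) - (w : ZMod m) := by ring
    rw [e1, e2] at hs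
    refine ⟨hw0, h2w0, ?_, ?_, ?_⟩
    · rw [Finset.card_erase_of_mem hmem1, card_V1 hw0]; omega
    · push_cast at hs; omega
    · push_cast at hs; omega
  have hne1 : ¬ (2 : ℤ) ∣ 1 := by norm_num
  have hnem1 : ¬ (2 : ℤ) ∣ -1 := by norm_num
  obtain ⟨hw1, h2w1, hcd, hD1, hD0⟩ := key 1 hne1
  have hHH : (2 : ZMod m) * ((H : ℕ) : ZMod m) = 0 := two_half hmH
  have hmHnd : ¬ (m : ℤ) ∣ H := by
    intro h
    have h1 : m ∣ H := by exact_mod_cast h
    have := Nat.le_of_dvd (by omega) h1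
    omega
  have hH0 : ((H : ℕ) : ZMod m) ≠ 0 := by
    have := intCast_ne_zero.2 hmHnd
    push_cast at this; exact this
  -- relation at the half period
  have hrel : T m (K + 1) ((z : ZMod m) - ((N : ℤ) : ZMod m)) ((N : ℤ) : ZMod m) =
      T m (K + 1) ((z : ZMod m) - ((H : ℕ) : ZMod m)) ((H : ℕ) : ZMod m) +
      T m (K + 1) (z : ZMod m) ((H : ℕ) : ZMod m) := by
    have h1 := star2 (y := N) (w := H) (N := N) hnm hN hc (by omega) hmHnd (by
      rw [hHz]
      exact ⟨1 - 2 * 2 ^ (b' + 1), by ring⟩)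
    have h2 := half_sum hmH (K + 1) (z : ZMod m)
    push_cast at h1
    rw [hHH, sub_zero, h2] at h1
    push_cast
    exact h1
  have hN0' : ((N : ℤ) : ZMod m) ≠ 0 := by
    have := hw1
    rwa [one_mul] at this
  rcases Nat.eq_zero_or_pos K with hK0 | hK0
  · -- `K = 0`
    subst hK0
    have key1 : ∀ c : ℤ, ¬ (2 : ℤ) ∣ c → ∃ d : ℤ, (d = 3 ∨ d = 4) ∧ (m : ℤ) ∣ z - d * (c * N) := by
      intro c hco
      obtain ⟨hw, h2w, _, hE1, hE0⟩ := key c hco
      rw [cnt_zero] at hE0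
      rw [zero_add, cnt_one] at hE1
      have hz0 : (z : ZMod m) - 2 * ((c * N : ℤ) : ZMod m) ≠ 0 := by
        intro h; rw [if_pos h] at hE0; exact one_ne_zero hE0
      have hz1 : ¬ ((z : ZMod m) - 2 * ((c * N : ℤ) : ZMod m) ∈
          ((V1 ((c * N : ℤ) : ZMod m)).erase (2 * ((c * N : ℤ) : ZMod m)))) := by
        intro h; rw [if_pos h] at hE1; exact one_ne_zero hE1
      rw [Finset.mem_erase, mem_V1] at hz1
      by_cases h : (z : ZMod m) - 2 * ((c * N : ℤ) : ZMod m) = 2 * ((c * N : ℤ) : ZMod m)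
      · refine ⟨4, Or.inr rfl, ?_⟩
        rw [← ZMod.intCast_zmod_eq_zero_iff_dvd]
        push_cast at h ⊢; linear_combination h
      · by_cases h' : (z : ZMod m) - 2 * ((c * N : ℤ) : ZMod m) = ((c * N : ℤ) : ZMod m)
        · refine ⟨3, Or.inl rfl, ?_⟩
          rw [← ZMod.intCast_zmod_eq_zero_iff_dvd]
          push_cast at h' ⊢; linear_combination h'
        · exact absurd ⟨h, h', hz0⟩ hz1
    obtain ⟨d, hd, hdm⟩ := key1 1 hne1
    obtain ⟨d', hd', hdm'⟩ := key1 (-1) hnem1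
    have hsum := dvd_sub hdm' hdm
    rw [show z - d' * (-1 * (N : ℤ)) - (z - d * (1 * N)) = (d + d') * N by ring] at hsum
    have hs4 := hmN4 _ hsum
    have hsb := hmN _ hsum
    have hd4 : d = 4 ∧ d' = 4 := by omega
    obtain ⟨rfl, rfl⟩ := hd4
    have hz4 : (z : ZMod m) = 4 * ((N : ℤ) : ZMod m) := by
      rw [← ZMod.intCast_zmod_eq_zero_iff_dvd] at hdm
      push_cast at hdm ⊢; linear_combination hdm
    have hL : T m (0 + 1) ((z : ZMod m) - ((N : ℤ) : ZMod m)) ((N : ℤ) : ZMod m) = 1 := by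
      rw [zero_add, T_one_eq hN0', if_pos]
      rw [hz4]
      constructor
      · intro h
        have h1 : ((2 * N : ℤ) : ZMod m) = 0 := by push_cast at h ⊢; linear_combination h
        rw [ZMod.intCast_zmod_eq_zero_iff_dvd] at h1
        have := hmN4 _ h1
        omega
      · intro h
        have h1 : ((3 * N : ℤ) : ZMod m) = 0 := by push_cast at h ⊢; linear_combination h
        rw [ZMod.intCast_zmod_eq_zero_iff_dvd] at h1
        have := hmN4 _ h1
        omega
    have hz0H : (z : ZMod m) = 0 ∨ (z : ZMod m) = ((H : ℕ) : ZMod m) := by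
      have h8 : (m : ℤ) ∣ (4 + 4) * N := hsum
      apply half_cases hmH
      rw [hz4]
      have h9 := (ZMod.intCast_zmod_eq_zero_iff_dvd _ m).2 h8
      push_cast at h9 ⊢; linear_combination h9
    rw [hL] at hrel
    rw [zero_add, T_one_eq hH0, T_one_eq hH0] at hrel
    rcases hz0H with h | h
    · rw [h, if_neg, if_neg] at hrel
      · norm_num at hrel
      · exact fun h => h.2 rfl
      · intro h; apply h.1; linear_combination -hHH
    · rw [h, if_neg, if_neg] at hrel
      · norm_num at hrel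
      · exact fun h => h.1 rfl
      · intro h; apply h.2; ring
  · by_cases hKm : K + 1 + 3 = m
    · -- `K + 1 = m - 3`
      have key1 : ∀ c : ℤ, ¬ (2 : ℤ) ∣ c → ∃ d : ℤ, (d = 2 ∨ d = 3) ∧
          (m : ℤ) ∣ z - H + d * (c * N) := by
        intro c hco
        obtain ⟨hw, h2w, hcd, hE1, hE0⟩ := key c hco
        have hww : (2 : ZMod m) * ((c * N : ℤ) : ZMod m) ≠ ((c * N : ℤ) : ZMod m) := by
          intro h; apply hw; linear_combination h
        have hmem1 : (2 : ZMod m) * ((c * N : ℤ) : ZMod m) ∈ V1 ((c * N : ℤ) : ZMod m) :=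
          mem_V1.2 ⟨hww, h2w⟩
        have hsum : ∑ v ∈ (V1 ((c * N : ℤ) : ZMod m)).erase (2 * ((c * N : ℤ) : ZMod m)), v =
            ((H : ℕ) : ZMod m) - ((c * N : ℤ) : ZMod m) - 2 * ((c * N : ℤ) : ZMod m) := by
          rw [← sum_V0_even hmH, ← sum_V1 hw, ← Finset.add_sum_erase _ _ hmem1]
          ring
        rw [cnt_compl _ (by omega), hcd, show m - 3 - (K + 1) = 0 by omega, hsum, cnt_zero] at hE1
        rw [cnt_compl _ (by omega), hcd, show m - 3 - K = 1 by omega, hsum, cnt_one] at hE0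
        have hz0 : ¬ (((H : ℕ) : ZMod m) - ((c * N : ℤ) : ZMod m) - 2 * ((c * N : ℤ) : ZMod m) -
            ((z : ZMod m) - 2 * ((c * N : ℤ) : ZMod m)) = 0) := by
          intro h; rw [if_pos h] at hE1; exact one_ne_zero hE1
        have hz1 : ¬ ((((H : ℕ) : ZMod m) - ((c * N : ℤ) : ZMod m) - 2 * ((c * N : ℤ) : ZMod m) -
            ((z : ZMod m) - 2 * ((c * N : ℤ) : ZMod m))) ∈
            ((V1 ((c * N : ℤ) : ZMod m)).erase (2 * ((c * N : ℤ) : ZMod m)))) := by
          intro h; rw [if_pos h] at hE0; exact one_ne_zero hE0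
        rw [Finset.mem_erase, mem_V1] at hz1
        by_cases h : (((H : ℕ) : ZMod m) - ((c * N : ℤ) : ZMod m) - 2 * ((c * N : ℤ) : ZMod m) -
            ((z : ZMod m) - 2 * ((c * N : ℤ) : ZMod m))) = 2 * ((c * N : ℤ) : ZMod m)
        · refine ⟨3, Or.inr rfl, ?_⟩
          rw [← ZMod.intCast_zmod_eq_zero_iff_dvd]
          push_cast at h ⊢; linear_combination -h
        · by_cases h' : (((H : ℕ) : ZMod m) - ((c * N : ℤ) : ZMod m) - 2 * ((c * N : ℤ) : ZMod m) -
            ((z : ZMod m) - 2 * ((c * N : ℤ) : ZMod m))) = ((c * N : ℤ) : ZMod m)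
          · refine ⟨2, Or.inl rfl, ?_⟩
            rw [← ZMod.intCast_zmod_eq_zero_iff_dvd]
            push_cast at h' ⊢; linear_combination -h'
          · exact absurd ⟨h, h', hz0⟩ hz1
      obtain ⟨d, hd, hdm⟩ := key1 1 hne1
      obtain ⟨d', hd', hdm'⟩ := key1 (-1) hnem1
      have hsum := dvd_sub hdm hdm'
      rw [show z - H + d * (1 * (N : ℤ)) - (z - H + d' * (-1 * N)) = (d + d') * N by ring] at hsum
      have hs4 := hmN4 _ hsum
      have hsb := hmN _ hsum
      have hd4 : d = 2 ∧ d' = 2 := by omega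
      obtain ⟨rfl, rfl⟩ := hd4
      have hb0 : b' = 0 := by
        by_contra hb
        obtain ⟨b'', rfl⟩ : ∃ b'', b' = b'' + 1 := ⟨b' - 1, by omega⟩
        have h8 : (8 : ℤ) ∣ 2 ^ (b'' + 1 + 2) := ⟨2 ^ b'', by rw [pow_add, pow_add]; ring⟩
        have := h8.trans hsb
        omega
      have hz0 : (z : ZMod m) = 0 := by
        rw [ZMod.intCast_zmod_eq_zero_iff_dvd]
        rw [hHz, hb0] at hdm
        rwa [show z - 2 ^ (0 + 1) * (N : ℤ) + 2 * (1 * N) = z by ring] at hdm
      have hm3 : 3 ≤ m := by omega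
      rw [show K + 1 = m - 3 by omega, T_top_even hmH hm3 _ hN0', T_top_even hmH hm3 _ hH0,
        T_top_even hmH hm3 _ hH0, T_one_eq hN0', T_one_eq hH0, T_one_eq hH0, hz0, if_pos, if_neg,
        if_neg] at hrel
      · norm_num at hrel
      · intro h; apply h.2; ring
      · intro h; apply h.1; ring
      · constructor
        · intro h
          have h1 : ((1 * N : ℤ) : ZMod m) = 0 := by
            have hH2 : ((H : ℕ) : ZMod m) = 2 * ((N : ℤ) : ZMod m) := by
              rw [hH, hb0]; push_cast; ring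
            rw [hH2] at h
            push_cast at h ⊢; linear_combination h
          rw [ZMod.intCast_zmod_eq_zero_iff_dvd] at h1
          have := hmN4 _ h1
          omega
        · intro h
          apply hH0
          linear_combination h
    · rcases Nat.lt_or_ge m 10 with hm10 | hm10
      · -- `m = 8`
        have hm8 : m = 8 := by
          have h44 : 4 ∣ m := by rw [hm, pow_add]; exact ⟨2 ^ b' * N, by ring⟩
          omega
        have hN1 : N = 1 := by
          have hN3 : N < 3 := by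
            by_contra hcon
            push Not at hcon
            have h1 : 4 * 3 ≤ 2 ^ (b' + 2) * N := by
              apply Nat.mul_le_mul _ hcon
              rw [pow_add]; have : 1 ≤ 2 ^ b' := Nat.one_le_two_pow
              omega
            omega
          omega
        have hK3 : K ≤ 3 := by omega
        clear_value H
        subst hm8 hN1
        rw [Nat.cast_one, mul_one] at hD1 hD0
        by_cases hK1 : K = 1
        · subst hK1
          rcases dec8a ((z : ZMod 8) - 2 * ((1 : ℤ) : ZMod 8)) with h | h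
          · exact h hD1
          · exact h hD0
        by_cases hK2 : K = 2
        · subst hK2
          rcases dec8b ((z : ZMod 8) - 2 * ((1 : ℤ) : ZMod 8)) with h | h
          · exact h hD1
          · exact h hD0
        have hK3 : K = 3 := by omega
        subst hK3
        rcases dec8c ((z : ZMod 8) - 2 * ((1 : ℤ) : ZMod 8)) with h | h
        · exact h hD1
        · exact h hD0
      · have hme : Even m := ⟨H, by omega⟩
        rcases Nat.lt_or_ge (K + 5) m with hK5 | hK5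
        · have := EL_even hme hm10 _ (K := K + 1) (by rw [hcd]; omega) (by omega)
            (by rw [hcd]; omega) ((z : ZMod m) - 2 * ((1 * N : ℤ) : ZMod m))
          omega
        · have := EL_even hme hm10 _ (K := K) (by rw [hcd]; omega) (by omega)
            (by rw [hcd]; omega) ((z : ZMod m) - 2 * ((1 * N : ℤ) : ZMod m))
          omega

/-- classification for `n` even -/
theorem even_class {n k : ℕ} [NeZero n] (he : Even n) (hk1 : 1 ≤ k) (hk2 : k + 2 ≤ n) {x : ℤ}
    (hc : Const n k x) : Exc n k x := by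
  obtain ⟨m, hnm⟩ := even_iff_exists_two_mul.1 he
  have hn0 : n ≠ 0 := NeZero.ne n
  have hm0 : m ≠ 0 := by rintro rfl; omega
  have : NeZero m := ⟨hm0⟩
  by_cases hlow : k ≤ 2
  · exact low hnm hk1 hk2 hlow hc
  by_cases hhigh : n ≤ k + 3
  · exact high hnm hk1 hk2 hhigh hc
  exfalso
  obtain ⟨a, N, hNo, hN⟩ := Nat.exists_eq_pow_mul_and_not_dvd hn0 2 (by norm_num)
  have hNodd : Odd N := by
    rw [← Nat.not_even_iff_odd, even_iff_two_dvd]; exact hNo
  have ha0 : a ≠ 0 := by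
    rintro rfl
    rw [pow_zero, one_mul] at hN
    apply hNo
    rw [← hN, hnm]; exact dvd_mul_right _ _
  have hmN : m = 2 ^ (a - 1) * N := by
    have h1 : 2 * m = 2 * (2 ^ (a - 1) * N) := by
      rw [← hnm, hN, ← mul_assoc, ← pow_succ']; congr 2; omega
    exact Nat.eq_of_mul_eq_mul_left two_pos h1
  rcases Nat.lt_or_ge a 2 with ha | ha
  · -- `n / 2` odd
    have ha1 : a = 1 := by omega
    have hmo : Odd m := by rw [hmN, ha1]; simpa using hNodd
    by_cases hxo : (2 : ℤ) ∣ x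
    · have hc2 := const_compl_even hnm hk1 hk2 hc
      refine even_one hnm hmo (by omega) (by omega) ?_ hc2
      intro h
      have h1 : (2 : ℤ) ∣ m := by
        have := dvd_add h hxo
        rwa [sub_add_cancel] at this
      have h2 : 2 ∣ m := by exact_mod_cast h1
      exact (Nat.not_even_iff_odd.2 hmo) (even_iff_two_dvd.2 h2)
    · exact even_one hnm hmo (by omega) (by omega) hxo hc
  · have hm2 : (2 : ℤ) ∣ m := by
      have h2 : 2 ∣ m := by rw [hmN]; exact (dvd_pow_self 2 (by omega)).mul_right _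
      exact_mod_cast h2
    by_cases hxo : (2 : ℤ) ∣ x
    · -- `x` even, reduce to `k` even
      have main : ∀ q : ℕ, 2 ≤ q → q + 2 ≤ m → ∀ x : ℤ, (2 : ℤ) ∣ x → Const n (2 * q) x → False := by
        intro q hq1 hq2 x hx hc
        obtain ⟨z, rfl⟩ := hx
        rcases Nat.eq_or_lt_of_le ha with ha2 | ha2
        · subst ha2
          exact even_three hnm (by rw [hmN]; ring) hNodd hq1 hq2 hc
        · obtain ⟨b', rfl⟩ : ∃ b', a = b' + 3 := ⟨a - 3, by omega⟩
          exact even_four hnm (by rw [hmN]; congr 2) hNodd hq1 hq2 hc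
      rcases Nat.even_or_odd' k with ⟨q, hq | hq⟩
      · subst hq
        exact main q (by omega) (by omega) x hxo hc
      · have hc2 := const_compl_even hnm hk1 hk2 hc
        have h1 : n - 1 - k = 2 * (m - 1 - q) := by omega
        rw [h1] at hc2
        exact main (m - 1 - q) (by omega) (by omega) _ (dvd_sub hm2 hxo) hc2
    · by_cases hkm : k + 1 ≤ m
      · exact even_two hnm hN hNo ha hk1 hkm hxo hc
      · have hc2 := const_compl_even hnm hk1 hk2 hc
        refine even_two hnm hN hNo ha (by omega) (by omega) ?_ hc2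
        intro h
        apply hxo
        have := dvd_sub hm2 h
        rwa [sub_sub_cancel] at this

end Pool.Agent.H47.SD
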