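import Mathlib
import Pool.Agent.H47.SD.O

/-!
# From constant structures to `1`-designs
-/

set_option autoImplicit false

open Finset

namespace Pool.Agent.H47.SD

/-- the blocks: `k`-subsets of the nonzero elements with sum `x` -/
def blk (n k : ℕ) [NeZero n] (x : ZMod n) : Finset (Finset (ZMod n)) :=
  ((univ.erase (0 : ZMod n)).powersetCard k).filter (fun T => ∑ t ∈ T, t = x)

lemma card_blk (n k : ℕ) [NeZero n] (x : ZMod n) : (blk n k x).card = b n k x := rfl

lemma blk_through {n k : ℕ} [NeZero n] {x y : ZMod n} (hy : y ≠ 0) :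
    (((blk n (k + 1) x).filter (fun T => y ∈ T)).card : ℤ) = T n k (x - y) y := by
  rw [T_eq_cnt hy]
  have hmem : y ∈ univ.erase (0 : ZMod n) := by
    rw [Finset.mem_erase]; exact ⟨hy, Finset.mem_univ _⟩
  have := cnt_mem hmem k x
  unfold blk V1
  exact_mod_cast this

/-- `1`-design on the nonzero elements -/
def Des (n k : ℕ) [NeZero n] (x : ZMod n) : Prop :=
  (blk n k x).Nonempty ∧
    ∃ r : ℕ, ∀ y ∈ univ.erase (0 : ZMod n), ((blk n k x).filter (fun T => y ∈ T)).card = r

lemma Des.const {n k : ℕ} [NeZero n] (hk : 1 ≤ k) {x : ℤ} (h : Des n k (x : ZMod n)) :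
    Const n k x := by
  obtain ⟨j, rfl⟩ : ∃ j, k = j + 1 := ⟨k - 1, by omega⟩
  obtain ⟨_, r, hr⟩ := h
  rw [const_iff]
  intro y y' hy hy'
  rw [← blk_through hy, ← blk_through hy', hr y (by rw [Finset.mem_erase]; exact ⟨hy, Finset.mem_univ _⟩),
    hr y' (by rw [Finset.mem_erase]; exact ⟨hy', Finset.mem_univ _⟩)]

lemma Des.of_const {n k : ℕ} [NeZero n] (hn : 2 ≤ n) (hk : 1 ≤ k) {x : ℤ} (h : Const n k x)
    (hne : (blk n k (x : ZMod n)).Nonempty) : Des n k (x : ZMod n) := by
  obtain ⟨j, rfl⟩ : ∃ j, k = j + 1 := ⟨k - 1, by omega⟩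
  rw [const_iff] at h
  refine ⟨hne, ((blk n (j + 1) (x : ZMod n)).filter (fun T => (1 : ZMod n) ∈ T)).card, ?_⟩
  intro y hy
  have hy0 := (Finset.mem_erase.1 hy).1
  have h1 : (1 : ZMod n) ≠ 0 := by
    have := @intCast_ne_zero n 1
    push_cast at this
    rw [this]
    intro h
    have h1 : n ∣ 1 := by exact_mod_cast h
    have := Nat.le_of_dvd one_pos h1
    omega
  have h2 := h y 1 hy0 h1
  rw [← blk_through hy0, ← blk_through h1] at h2
  exact_mod_cast h2

lemma blk_nonempty {n k : ℕ} [NeZero n] {x : ZMod n} : (blk n k x).Nonempty ↔ 0 < b n k x := by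
  rw [← card_blk, Finset.card_pos]

lemma b_compl {n k : ℕ} [NeZero n] (hk : k ≤ n - 1) (x : ZMod n) :
    b n k x = b n (n - 1 - k) (∑ v ∈ univ.erase (0 : ZMod n), v - x) := by
  unfold b
  rw [cnt_compl _ (by rw [card_V0]; exact hk), card_V0]

lemma b_one_zero {n : ℕ} [NeZero n] : b n 1 (0 : ZMod n) = 0 := by rw [b_one, if_pos rfl]

/-- the exceptional constant structures are empty -/
lemma Exc.empty {n k : ℕ} [NeZero n] (he : Even n) (hk2 : k + 2 ≤ n) {x : ℤ} (h : Exc n k x) :
    b n k (x : ZMod n) = 0 := by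
  obtain ⟨m, hnm⟩ := even_iff_exists_two_mul.1 he
  rcases h with ⟨rfl, h⟩ | ⟨h1, h2, h3⟩
  · rw [(ZMod.intCast_zmod_eq_zero_iff_dvd x n).2 h, b_one_zero]
  · rcases half_dvd hnm h2 with h4 | h4
    · exact absurd h4 h3
    · rw [b_compl (by omega), show n - 1 - k = 1 by omega, sum_V0_even hnm]
      have h5 : (m : ZMod n) - (x : ZMod n) = 0 := by
        have := (ZMod.intCast_zmod_eq_zero_iff_dvd _ n).2 h4
        push_cast at this
        linear_combination -this
      rw [h5, b_one_zero]

lemma sum_V0 {n : ℕ} [NeZero n] :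
    ∑ v ∈ univ.erase (0 : ZMod n), v = ((n * (n - 1) / 2 : ℕ) : ZMod n) := by
  have hn0 : 0 < n := NeZero.pos n
  rcases Nat.even_or_odd' n with ⟨m, hm | hm⟩
  · rw [sum_V0_even hm]
    have h1 : n * (n - 1) / 2 = m * (n - 1) := by
      rw [hm, mul_assoc, Nat.mul_div_cancel_left _ two_pos]
    rw [h1, Nat.cast_mul, Nat.cast_sub (by omega), Nat.cast_one, ZMod.natCast_self]
    have := two_half hm
    linear_combination this
  · rw [sum_V0_odd ⟨m, hm⟩]
    have h1 : n * (n - 1) / 2 = n * m := by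
      have : n - 1 = 2 * m := by omega
      rw [this, show n * (2 * m) = 2 * (n * m) by ring, Nat.mul_div_cancel_left _ two_pos]
    rw [h1, Nat.cast_mul, ZMod.natCast_self, zero_mul]

/-- the case `k = n - 1` -/
lemma des_top {n : ℕ} [NeZero n] (x : ZMod n) :
    Des n (n - 1) x ↔ x = ((n * (n - 1) / 2 : ℕ) : ZMod n) := by
  have hps : (univ.erase (0 : ZMod n)).powersetCard (n - 1) = {univ.erase (0 : ZMod n)} := by
    rw [← card_V0 n, Finset.powersetCard_self]
  constructor
  · rintro ⟨⟨A, hA⟩, _⟩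
    unfold blk at hA
    rw [hps, Finset.mem_filter, Finset.mem_singleton] at hA
    rw [← hA.2, hA.1, sum_V0]
  · intro h
    have hb : blk n (n - 1) x = {univ.erase (0 : ZMod n)} := by
      unfold blk
      rw [hps, Finset.filter_singleton, if_pos (by rw [sum_V0, h])]
    refine ⟨by rw [hb]; exact Finset.singleton_nonempty _, 1, ?_⟩
    intro y hy
    rw [hb, Finset.filter_singleton, if_pos hy, Finset.card_singleton]

/-- arithmetic: the three alternatives do not mix -/
lemma cond_iff {n k : ℕ} (hodd : Odd n) (hk1 : 1 ≤ k) (hk2 : k + 2 ≤ n) :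
    (∀ p, p.Prime → p ∣ n → k < p ∨ n - 1 - k < p ∨ (p - 1) * k = (n - 1) * (k % p)) ↔
    ((∀ p, p.Prime → p ∣ n → k < p) ∨ (∀ p, p.Prime → p ∣ n → n - 1 - k < p) ∨
      ∀ p, p.Prime → p ∣ n → n - 1 ∣ (p - 1) * k) := by
  have hsym : ∀ k, 1 ≤ k → k + 2 ≤ n → ∀ p, p.Prime → p ∣ n →
      ((p - 1) * k = (n - 1) * (k % p) →
        (p - 1) * (n - 1 - k) = (n - 1) * ((n - 1 - k) % p)) := by
    intro k hk1 hk2 p hp hpn h
    have hp2 := hp.two_le
    have hkp := Nat.mod_lt k hp.pos
    have h1 : (n - 1 - k) % p = p - 1 - k % p := by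
      obtain ⟨m, hm⟩ := hpn
      have h2 := Nat.div_add_mod k p
      have h3 : n - 1 - k = (p - 1 - k % p) + p * (m - 1 - k / p) := by
        have h4 : k / p < m := by
          rw [Nat.div_lt_iff_lt_mul hp.pos, mul_comm, ← hm]; omega
        obtain ⟨d, hd⟩ : ∃ d, m = k / p + 1 + d := ⟨m - (k / p + 1), by omega⟩
        rw [hm]
        conv_rhs => rw [hd]
        have e1 : k / p + 1 + d - 1 - k / p = d := by omega
        rw [e1]
        have e2 : p * m = p * (k / p) + p + p * d := by
          conv_lhs => rw [hd]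
          ring
        rw [e2]
        omega
      rw [h3, Nat.add_mul_mod_self_left, Nat.mod_eq_of_lt (by omega)]
    rw [h1]
    zify [show k ≤ n - 1 by omega, show 1 ≤ n by omega, show 1 ≤ p by omega,
      show k % p ≤ p - 1 by omega] at h ⊢
    linear_combination -h
  -- main implication
  have key : ∀ k, 1 ≤ k → k + 2 ≤ n →
      (∀ p, p.Prime → p ∣ n → k < p ∨ n - 1 - k < p ∨ (p - 1) * k = (n - 1) * (k % p)) →
      (∃ p, p.Prime ∧ p ∣ n ∧ k < p ∧ (p - 1) * k ≠ (n - 1) * (k % p)) →
      ∀ p, p.Prime → p ∣ n → k < p := by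
    intro k hk1 hk2 hall ⟨p, hp, hpn, hkp, hne⟩ p' hp' hpn'
    by_contra hcon
    push Not at hcon
    have hpp : p' < p := by omega
    have hdvd : p' * p ∣ n := by
      have hcop : Nat.Coprime p' p := (Nat.coprime_primes hp' hp).2 hpp.ne
      exact hcop.mul_dvd_of_dvd_of_dvd hpn' hpn
    have hle : p' * p ≤ n := Nat.le_of_dvd (by omega) hdvd
    have hp'3 : 3 ≤ p' := by
      have h2 := hp'.two_le
      have : Odd p' := hodd.of_dvd_nat hpn'
      rcases this with ⟨s, hs⟩; omega
    rcases hall p' hp' hpn' with h | h | h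
    · omega
    · have : 3 * p ≤ p' * p := Nat.mul_le_mul_right p hp'3
      omega
    · have h1 : k % p' ≠ 0 := by
        intro h0
        rw [h0, mul_zero] at h
        rcases Nat.mul_eq_zero.1 h with h2 | h2 <;> omega
      have h2 : n - 1 ≤ (n - 1) * (k % p') := Nat.le_mul_of_pos_right _ (Nat.pos_of_ne_zero h1)
      rw [← h] at h2
      have h3 : (p' - 1) * k ≤ (p' - 1) * (p - 1) := Nat.mul_le_mul_left _ (by omega)
      obtain ⟨u, rfl⟩ : ∃ u, p' = u + 1 := ⟨p' - 1, by omega⟩
      obtain ⟨v, rfl⟩ : ∃ v, p = v + 1 := ⟨p - 1, by omega⟩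
      rw [Nat.add_sub_cancel, Nat.add_sub_cancel] at h3
      rw [Nat.add_sub_cancel] at h2
      have h4 : (u + 1) * (v + 1) = u * v + u + v + 1 := by ring
      omega
  constructor
  · intro hall
    by_cases hall2 : ∀ p, p.Prime → p ∣ n → (p - 1) * k = (n - 1) * (k % p)
    · right; right
      intro p hp hpn
      rw [hall2 p hp hpn]; exact dvd_mul_right _ _
    · push Not at hall2
      obtain ⟨p, hp, hpn, hne⟩ := hall2
      rcases hall p hp hpn with h | h | h
      · left
        exact key k hk1 hk2 hall ⟨p, hp, hpn, h, hne⟩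
      · right; left
        refine key (n - 1 - k) (by omega) (by omega) ?_ ⟨p, hp, hpn, h, ?_⟩
        · intro p hp hpn
          rcases hall p hp hpn with h | h | h
          · right; left; omega
          · left; exact h
          · right; right; exact hsym k hk1 hk2 p hp hpn h
        · intro h2
          have h3 := hsym (n - 1 - k) (by omega) (by omega) p hp hpn h2
          rw [show n - 1 - (n - 1 - k) = k by omega] at h3
          exact hne h3
      · exact absurd h hne
  · rintro (h | h | h) p hp hpn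
    · exact Or.inl (h p hp hpn)
    · exact Or.inr (Or.inl (h p hp hpn))
    · right; right
      obtain ⟨r, hr⟩ := h p hp hpn
      have hp0 := hp.pos
      have hp2 := hp.two_le
      -- `r < p` and `r ≡ k`
      have hrp : r < p := by
        by_contra hcon
        push Not at hcon
        have h1 : (n - 1) * p ≤ (n - 1) * r := Nat.mul_le_mul_left _ hcon
        rw [← hr] at h1
        have h2 : (p - 1) * k ≤ (p - 1) * (n - 1) := Nat.mul_le_mul_left _ (by omega)
        have h3 : (n - 1) * p = (p - 1) * (n - 1) + (n - 1) := by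
          obtain ⟨v, rfl⟩ : ∃ v, p = v + 1 := ⟨p - 1, by omega⟩
          rw [Nat.add_sub_cancel]; ring
        omega
      have hmod : k ≡ r [MOD p] := by
        rw [Nat.modEq_iff_dvd]
        have h1 : (p : ℤ) ∣ n := by exact_mod_cast hpn
        have h2 : ((p : ℤ) - 1) * k = (n - 1) * r := by
          zify [show 1 ≤ n by omega, show 1 ≤ p by omega] at hr
          exact hr
        have h3 : (r : ℤ) - k = n * r - p * k := by linear_combination h2
        rw [h3]
        exact dvd_sub (h1.mul_right _) (dvd_mul_right _ _)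
      have : k % p = r := by
        have h1 : k % p = r % p := hmod
        rw [h1, Nat.mod_eq_of_lt hrp]
      rw [this, hr]

/-- the classification, given the case `n` odd, `x = 0` -/
theorem des_iff
    (X0 : ∀ {n k : ℕ} [NeZero n], Odd n → 1 ≤ k → k + 2 ≤ n → (Const n k 0 ↔
      ∀ p, p.Prime → p ∣ n → k < p ∨ n - 1 - k < p ∨ (p - 1) * k = (n - 1) * (k % p)))
    {n k : ℕ} [NeZero n] (hn : 2 ≤ n) (hk1 : 1 ≤ k) (hk2 : k ≤ n - 1) (x : ZMod n) :
    Des n k x ↔ (k = n - 1 ∧ x = ((n * (n - 1) / 2 : ℕ) : ZMod n)) ∨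
      (Odd n ∧ x = 0 ∧ 2 ≤ k ∧ k + 3 ≤ n ∧
        ((∀ p, p.Prime → p ∣ n → k < p) ∨ (∀ p, p.Prime → p ∣ n → n - 1 - k < p) ∨
          ∀ p, p.Prime → p ∣ n → n - 1 ∣ (p - 1) * k)) := by
  obtain ⟨X, rfl⟩ : ∃ X : ℤ, (X : ZMod n) = x := ⟨x.val, by push_cast; exact ZMod.natCast_zmod_val x⟩
  rcases Nat.eq_or_lt_of_le hk2 with hkn | hkn
  · subst hkn
    rw [des_top]
    constructor
    · intro h; exact Or.inl ⟨rfl, h⟩
    · rintro (h | h)
      · exact h.2
      · have := h.2.2.2.1; omega
  · have hkn2 : k + 2 ≤ n := by omega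
    constructor
    · intro hD
      have hc := hD.const hk1
      have hne := blk_nonempty.1 hD.1
      right
      rcases Nat.even_or_odd n with he | ho
      · have := (even_class he hk1 hkn2 hc).empty he hkn2
        omega
      · have hX : (n : ℤ) ∣ X := by
          by_contra h
          exact odd_ne_zero_false ho hk1 hkn2 h hc
        have hX0 : (X : ZMod n) = 0 := (ZMod.intCast_zmod_eq_zero_iff_dvd X n).2 hX
        have hc0 : Const n k 0 := by
          obtain ⟨j, rfl⟩ : ∃ j, k = j + 1 := ⟨k - 1, by omega⟩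
          rw [const_iff] at hc ⊢
          rw [hX0] at hc
          push_cast
          exact hc
        rw [hX0] at hne
        refine ⟨ho, hX0, ?_, ?_, (cond_iff ho hk1 hkn2).1 ((X0 ho hk1 hkn2).1 hc0)⟩
        · by_contra h
          have hk : k = 1 := by omega
          rw [hk, b_one_zero] at hne
          omega
        · by_contra h
          have hk : n - 1 - k = 1 := by omega
          rw [b_compl (by omega), hk, sum_V0_odd ho, sub_zero, b_one_zero] at hne
          omega
    · rintro (h | ⟨ho, hx, h2, h3, hcond⟩)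
      · omega
      · have hc0 : Const n k 0 := (X0 ho hk1 hkn2).2 ((cond_iff ho hk1 hkn2).2 hcond)
        have hb : (blk n k ((0 : ℤ) : ZMod n)).Nonempty := by
          rw [blk_nonempty]
          exact EL_odd ho _ (by rw [card_V0]; omega) h2 (by rw [card_V0]; omega) _
        have := Des.of_const hn hk1 hc0 hb
        rw [hx]
        push_cast at this
        exact this

end Pool.Agent.H47.SD
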